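import Mathlib

/-! Scales, digits, approximations: definitions. -/

set_option autoImplicit false

open Finset

namespace Pool.Agent.H723.QP

/-- the `n`-th base-`b` digit after the point of the real number `ξ` (`n ≥ 1`) -/
noncomputable def dg (b : ℕ) (ξ : ℝ) (n : ℕ) : ℤ := ⌊ξ * (b : ℝ) ^ n⌋ % (b : ℤ)

theorem dg_nonneg {b : ℕ} (hb : 2 ≤ b) (ξ : ℝ) (n : ℕ) : 0 ≤ dg b ξ n :=
  Int.emod_nonneg _ (by omega)

theorem dg_lt {b : ℕ} (hb : 2 ≤ b) (ξ : ℝ) (n : ℕ) : dg b ξ n < b :=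
  Int.emod_lt_of_pos _ (by omega)

theorem dg_abs {b : ℕ} (hb : 2 ≤ b) (ξ : ℝ) (n : ℕ) : |dg b ξ n| ≤ b := by
  rw [abs_of_nonneg (dg_nonneg hb ξ n)]
  exact (dg_lt hb ξ n).le

theorem floor_mul_ediv {b : ℕ} (hb : 2 ≤ b) (y : ℝ) : ⌊(b : ℝ) * y⌋ / (b : ℤ) = ⌊y⌋ := by
  have hbR : (2 : ℝ) ≤ b := by exact_mod_cast hb
  have hbZ : (0 : ℤ) < b := by omega
  rw [Int.ediv_eq_iff_of_pos hbZ]
  have h1 := Int.floor_le y
  have h2 := Int.lt_floor_add_one y
  constructor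
  · rw [Int.le_floor]; push_cast; nlinarith
  · rw [Int.floor_lt]; push_cast; nlinarith

theorem dg_rec {b : ℕ} (hb : 2 ≤ b) (ξ : ℝ) (n : ℕ) :
    (b : ℝ) * Int.fract (ξ * (b : ℝ) ^ n) =
      dg b ξ (n + 1) + Int.fract (ξ * (b : ℝ) ^ (n + 1)) := by
  set y : ℝ := ξ * (b : ℝ) ^ n with hy
  have hy1 : ξ * (b : ℝ) ^ (n + 1) = b * y := by rw [hy, pow_succ]; ring
  have h1 : (⌊(b : ℝ) * y⌋ : ℤ) = b * ⌊y⌋ + dg b ξ (n + 1) := by
    unfold dg
    rw [hy1]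
    have h3 := Int.mul_ediv_add_emod ⌊(b : ℝ) * y⌋ (b : ℤ)
    rw [floor_mul_ediv hb] at h3
    linarith
  rw [hy1]
  unfold Int.fract
  have h2 : ((⌊(b : ℝ) * y⌋ : ℤ) : ℝ) = b * ⌊y⌋ + dg b ξ (n + 1) := by exact_mod_cast h1
  rw [h2]; ring

/-- every element of `S` is at least twice every smaller element -/
def Sep2 (S : Finset ℕ) : Prop :=
  (∀ L ∈ S, 1 ≤ L) ∧ ∀ L ∈ S, ∀ L' ∈ S, L < L' → 2 * L ≤ L'

theorem Sep2.subset {S S' : Finset ℕ} (h : Sep2 S) (hS : S' ⊆ S) : Sep2 S' :=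
  ⟨fun L hL => h.1 L (hS hL), fun L hL L' hL' => h.2 L (hS hL) L' (hS hL')⟩

/-- `P` holds for at most `B` scales -/
def Thin (P : ℕ → Prop) (B : ℝ) : Prop :=
  ∀ S : Finset ℕ, Sep2 S → (∀ L ∈ S, P L) → (S.card : ℝ) ≤ B

theorem Thin.mono {P P' : ℕ → Prop} {B B' : ℝ} (h : Thin P B) (hP : ∀ L, 1 ≤ L → P' L → P L)
    (hB : B ≤ B') : Thin P' B' := fun S hS hSP =>
  (h S hS (fun L hL => hP L (hS.1 L hL) (hSP L hL))).trans hB

theorem Thin.or {P P' : ℕ → Prop} {B B' : ℝ} (h : Thin P B) (h' : Thin P' B') :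
    Thin (fun L => P L ∨ P' L) (B + B') := by
  classical
  intro S hS hSP
  have h1 := h (S.filter P) (hS.subset (Finset.filter_subset _ _))
    (fun L hL => (Finset.mem_filter.mp hL).2)
  have h2 := h' (S.filter P') (hS.subset (Finset.filter_subset _ _))
    (fun L hL => (Finset.mem_filter.mp hL).2)
  have h3 : S ⊆ S.filter P ∪ S.filter P' := by
    intro L hL
    rw [Finset.mem_union, Finset.mem_filter, Finset.mem_filter]
    rcases hSP L hL with h | h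
    · exact Or.inl ⟨hL, h⟩
    · exact Or.inr ⟨hL, h⟩
  have h4 := (Finset.card_le_card h3).trans (Finset.card_union_le _ _)
  have h5 : (S.card : ℝ) ≤ (S.filter P).card + (S.filter P').card := by exact_mod_cast h4
  linarith

/-- small scales -/
theorem thin_small (M : ℕ) : Thin (fun L => L < M) M := by
  intro S hS hSP
  have h1 : S ⊆ Finset.range M := fun L hL => Finset.mem_range.mpr (hSP L hL)
  have h2 := Finset.card_le_card h1
  rw [Finset.card_range] at h2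
  exact_mod_cast h2

/-- a division of the scales -/
theorem Thin.div {P P' : ℕ → Prop} {B : ℝ} (h : Thin P B) (q M : ℕ) (hq : 1 ≤ q)
    (hPP : ∀ m, M ≤ m → q ≤ m → P' m → P (m / q)) : Thin P' (B + (M + q : ℕ)) := by
  classical
  intro S hS hSP
  set S1 : Finset ℕ := S.filter (fun m => M + q ≤ m) with hS1
  have hinj : Set.InjOn (fun m => m / q) (S1 : Set ℕ) := by
    intro m hm m' hm' heq
    have h1 := Finset.mem_filter.mp (Finset.mem_coe.mp hm)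
    have h2 := Finset.mem_filter.mp (Finset.mem_coe.mp hm')
    have aux : ∀ m m' : ℕ, q ≤ m → 2 * m ≤ m' → m / q < m' / q := by
      intro m m' h3 h4
      have h5 : 1 ≤ m / q := (Nat.one_le_div_iff (by omega)).mpr h3
      have h6 : 2 * (m / q) ≤ m' / q := by
        rw [Nat.le_div_iff_mul_le (by omega)]
        have h7 := Nat.div_mul_le_self m q
        nlinarith
      omega
    simp only at heq
    rcases lt_trichotomy m m' with hlt | heq' | hlt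
    · have := aux m m' (by omega) (hS.2 m h1.1 m' h2.1 hlt)
      omega
    · exact heq'
    · have := aux m' m (by omega) (hS.2 m' h2.1 m h1.1 hlt)
      omega
  have hsep : Sep2 (S1.image (fun m => m / q)) := by
    constructor
    · intro L hL
      obtain ⟨m, hm, rfl⟩ := Finset.mem_image.mp hL
      have h1 := Finset.mem_filter.mp hm
      exact (Nat.one_le_div_iff (by omega)).mpr (by omega)
    · intro L hL L' hL' hlt
      obtain ⟨m, hm, rfl⟩ := Finset.mem_image.mp hL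
      obtain ⟨m', hm', rfl⟩ := Finset.mem_image.mp hL'
      have h1 := Finset.mem_filter.mp hm
      have h2 := Finset.mem_filter.mp hm'
      have hmm : m < m' := by
        by_contra hcon
        push Not at hcon
        have := Nat.div_le_div_right (c := q) hcon
        omega
      have h3 := hS.2 m h1.1 m' h2.1 hmm
      rw [Nat.le_div_iff_mul_le (by omega)]
      have h7 := Nat.div_mul_le_self m q
      nlinarith
  have h1 := h _ hsep (by
    intro L hL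
    obtain ⟨m, hm, rfl⟩ := Finset.mem_image.mp hL
    have h1 := Finset.mem_filter.mp hm
    exact hPP m (by omega) (by omega) (hSP m h1.1))
  rw [Finset.card_image_of_injOn hinj] at h1
  have h2 : S ⊆ S1 ∪ Finset.range (M + q) := by
    intro m hm
    rw [Finset.mem_union, Finset.mem_range, hS1, Finset.mem_filter]
    by_cases h3 : M + q ≤ m
    · exact Or.inl ⟨hm, h3⟩
    · exact Or.inr (by omega)
  have h3 := (Finset.card_le_card h2).trans (Finset.card_union_le _ _)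
  rw [Finset.card_range] at h3
  have h4 : (S.card : ℝ) ≤ S1.card + (M + q : ℕ) := by exact_mod_cast h3
  linarith

/-- an approximation by a sum of `D` small multiples of powers at the scale `L` -/
def Ex (b : ℕ) (ξ : ℝ) (D : ℕ) (η ε ρ : ℝ) (L : ℕ) : Prop :=
  ∃ e : Fin D → ℕ, (∀ i, L ≤ e i) ∧ (∀ i, (e i : ℝ) ≤ ρ * L) ∧
    ∃ lam : Fin D → ℤ, (∀ j, |(lam j : ℝ)| ≤ Real.exp (ε * (L * Real.log b))) ∧
      ∑ j, lam j * (b : ℤ) ^ (e j) ≠ 0 ∧
      ∃ P : ℤ, |ξ * ∑ j, (lam j : ℝ) * (b : ℝ) ^ (e j) - P| ≤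
        Real.exp (-(η * (L * Real.log b)))

/-- a constant window of digits -/
def Dep0 (b : ℕ) (ξ : ℝ) (C : ℝ) (m : ℕ) : Prop :=
  ∃ u : ℕ, (u : ℝ) ≤ C * m ∧ ∃ a : ℝ, ∀ i < m, (dg b ξ (u + i + 1) : ℝ) = a

/-- two windows of digits, one of which is an affine image of the other one -/
def Dep1 (b : ℕ) (ξ : ℝ) (C : ℝ) (m : ℕ) : Prop :=
  ∃ u d : ℕ, 1 ≤ d ∧ d ≤ u ∧ (u : ℝ) ≤ C * m ∧ ∃ a c : ℝ, ∀ i < m,
    (dg b ξ (u + i + 1) : ℝ) = a + c * (dg b ξ (u - d + i + 1) : ℝ)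

/-- at most `D` windows of digits which are linearly dependent over the real numbers -/
def DepR (b : ℕ) (ξ : ℝ) (D : ℕ) (C : ℝ) (m : ℕ) : Prop :=
  ∃ D', D' ≤ D ∧ ∃ t : Fin D' → ℕ, Function.Injective t ∧ (∀ j, (t j : ℝ) ≤ C * m) ∧
    ¬ LinearIndependent ℝ (fun (j : Fin D') (i : Fin m) => (dg b ξ (t j + i + 1) : ℝ))

/-- a block of equal letters -/
def Cp0 (v : ℕ → ℝ) (s e : ℕ) : Prop := ∃ a : ℝ, ∀ t, s ≤ t → t < e → v t = a

/-- a block which is an affine copy of one earlier window -/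
def Cp1 (v : ℕ → ℝ) (s e : ℕ) : Prop :=
  ∃ (d : ℕ) (a c : ℝ), 1 ≤ d ∧ d ≤ s ∧ ∀ t, s ≤ t → t < e → v t = a + c * v (t - d)

/-- a long copy at the scale `2 ^ j` makes more than `E` errors, unless some windows depend -/
def Loc (b : ℕ) (ξ : ℝ) (k : ℕ) (Dp : ℝ → ℕ → Prop) (Cp : (ℕ → ℝ) → ℕ → ℕ → Prop) : Prop :=
  ∀ E ρ j : ℕ, ρ + 1 ≤ j → k * E + 1 ≤ 2 ^ (j - ρ - 1) →
    ¬ Dp ((2 ^ (ρ + 3) * (k * E + 1) : ℕ) : ℝ) (2 ^ (j - ρ - 1) / (k * E + 1)) →
    ∀ s, 1 ≤ s → s + 2 ^ (j - ρ) ≤ 2 ^ (j + 1) → ∀ v : ℕ → ℝ, Cp v s (s + 2 ^ (j - ρ)) →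
      E < #{t ∈ Finset.Ico (2 ^ (j - ρ - 1)) (2 ^ (j + 1)) | v t ≠ (dg b ξ (t + 1) : ℝ)}

/-- off the breakpoints the word is copied -/
def Brk (Cp : (ℕ → ℝ) → ℕ → ℕ → Prop) (v : ℕ → ℝ) (N z : ℕ) : Prop :=
  ∃ B : Finset ℕ, #B ≤ 2 * z ∧ ∀ s e, 1 ≤ s → s + 2 ≤ e → e ≤ N →
    (∀ x ∈ B, ¬ (s < x ∧ x < e)) → Cp v s e

end Pool.Agent.H723.QP
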