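import Pool.Agent.H723.QP.Base

set_option autoImplicit false

open Finset

namespace Pool.Agent.H723.QP

namespace W3

theorem main_count {b : ℕ} {ξ : ℝ} {Cp : (ℕ → ℝ) → ℕ → ℕ → Prop} (E ρ N : ℕ) (hN0 : N ≠ 0)
    (X : Finset ℕ) (v : ℕ → ℝ)
    (hX : ∀ j ∈ Finset.Ico (Nat.log 2 N / 2) (Nat.log 2 N), j ∉ X →
      ρ + 1 ≤ j ∧ ∀ s, 1 ≤ s → s + 2 ^ (j - ρ) ≤ 2 ^ (j + 1) →
        Cp v s (s + 2 ^ (j - ρ)) →
        E < ((Finset.Ico (2 ^ (j - ρ - 1)) (2 ^ (j + 1))).filter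
          (fun t => v t ≠ (dg b ξ (t + 1) : ℝ))).card)
    (z : ℕ) (hP : Brk Cp v N z) :
    (Nat.log 2 N - Nat.log 2 N / 2) * ((E + 1) * 2 ^ ρ) ≤
      X.card * ((E + 1) * 2 ^ ρ) + (E + 1) * (2 * z) + 2 ^ ρ * ((ρ + 2) * ((Finset.range N).filter
      (fun t => v t ≠ (dg b ξ (t + 1) : ℝ))).card) := by
  classical
  set J := Nat.log 2 N with hJ
  have hJN : 2 ^ J ≤ N := Nat.pow_log_le_self 2 hN0
  obtain ⟨B, hB, hbr⟩ := hP
  set Er := (Finset.range N).filter (fun t => v t ≠ (dg b ξ (t + 1) : ℝ)) with hEr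
  -- the two kinds of bad scales
  have key : ∀ j ∈ Finset.Ico (J / 2) J \ X, (E + 1) * 2 ^ ρ ≤
      (E + 1) * (B.filter (fun x => 2 ^ j ≤ x ∧ x < 2 ^ (j + 1))).card +
        2 ^ ρ * (Er.filter (fun x => 2 ^ (j - ρ - 1) ≤ x ∧ x < 2 ^ (j + 1))).card := by
    intro j hjX
    obtain ⟨hjI, hjX⟩ := Finset.mem_sdiff.mp hjX
    obtain ⟨hjj, hloc⟩ := hX j hjI hjX
    have hj := Finset.mem_Ico.mp hjI
    have hj1 : 2 ^ (j + 1) ≤ N := by
      refine le_trans ?_ hJN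
      exact Nat.pow_le_pow_right (by norm_num) (by omega)
    have hpow : 2 ^ j = 2 ^ ρ * 2 ^ (j - ρ) := by
      rw [← pow_add]
      congr 1
      omega
    have hpow1 : 2 ^ (j + 1) = 2 ^ j + 2 ^ ρ * 2 ^ (j - ρ) := by
      rw [pow_succ, ← hpow]; ring
    set ℓ := 2 ^ (j - ρ) with hℓ
    have hℓ2 : 2 ≤ ℓ := by
      rw [hℓ]
      calc 2 = 2 ^ 1 := rfl
        _ ≤ 2 ^ (j - ρ) := Nat.pow_le_pow_right (by norm_num) (by omega)
    by_cases hall : ∀ i : Fin (2 ^ ρ), ∃ x ∈ B, 2 ^ j + i.1 * ℓ < x ∧ x < 2 ^ j + i.1 * ℓ + ℓ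
    · -- every piece has a breakpoint
      choose f hf1 hf2 hf3 using hall
      have h1 : 2 ^ ρ ≤ (B.filter (fun x => 2 ^ j ≤ x ∧ x < 2 ^ (j + 1))).card := by
        have hmem : ∀ i : Fin (2 ^ ρ), f i ∈ B.filter (fun x => 2 ^ j ≤ x ∧ x < 2 ^ (j + 1)) := by
          intro i
          have h2 := hf2 i
          have h3 := hf3 i
          have h4 : (i.1 + 1) * ℓ ≤ 2 ^ ρ * ℓ := Nat.mul_le_mul_right _ i.2
          rw [Nat.add_mul, one_mul] at h4
          exact Finset.mem_filter.2 ⟨hf1 i, by omega, by omega⟩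
        have hinj : Function.Injective (fun i : Fin (2 ^ ρ) =>
            (⟨f i, hmem i⟩ : {x // x ∈ B.filter (fun x => 2 ^ j ≤ x ∧ x < 2 ^ (j + 1))})) := by
          intro i i' h
          have h0 : f i = f i' := congrArg Subtype.val h
          have h2 := hf2 i
          have h3 := hf3 i
          have h2' := hf2 i'
          have h3' := hf3 i'
          rw [← h0] at h2' h3'
          apply Fin.ext
          by_contra hne
          rcases Nat.lt_or_gt_of_ne hne with hlt | hlt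
          · have h4 : (i.1 + 1) * ℓ ≤ i'.1 * ℓ := Nat.mul_le_mul_right _ hlt
            rw [Nat.add_mul, one_mul] at h4
            omega
          · have h4 : (i'.1 + 1) * ℓ ≤ i.1 * ℓ := Nat.mul_le_mul_right _ hlt
            rw [Nat.add_mul, one_mul] at h4
            omega
        have h5 := Fintype.card_le_of_injective _ hinj
        rwa [Fintype.card_fin, Fintype.card_coe] at h5
      calc (E + 1) * 2 ^ ρ ≤ (E + 1) * (B.filter (fun x => 2 ^ j ≤ x ∧ x < 2 ^ (j + 1))).card :=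
            Nat.mul_le_mul_left _ h1
        _ ≤ _ := Nat.le_add_right _ _
    · -- a piece without breakpoint
      push Not at hall
      obtain ⟨i, hi⟩ := hall
      have h4 : (i.1 + 1) * ℓ ≤ 2 ^ ρ * ℓ := Nat.mul_le_mul_right _ i.2
      rw [Nat.add_mul, one_mul] at h4
      have hpj : 1 ≤ 2 ^ j := Nat.one_le_two_pow
      have hc := hbr (2 ^ j + i.1 * ℓ) (2 ^ j + i.1 * ℓ + ℓ) (by omega) (by omega) (by omega) (by
        intro x hx hcon
        have := hi x hx hcon.1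
        omega)
      have h5 := hloc (2 ^ j + i.1 * ℓ) (by omega) (by omega) hc
      have h6 : (Finset.Ico (2 ^ (j - ρ - 1)) (2 ^ (j + 1))).filter
          (fun t => v t ≠ (dg b ξ (t + 1) : ℝ)) ⊆
          Er.filter (fun x => 2 ^ (j - ρ - 1) ≤ x ∧ x < 2 ^ (j + 1)) := by
        intro x hx
        obtain ⟨hx1, hx2⟩ := Finset.mem_filter.1 hx
        rw [Finset.mem_Ico] at hx1
        exact Finset.mem_filter.2 ⟨Finset.mem_filter.2 ⟨Finset.mem_range.2 (by omega), hx2⟩, hx1⟩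
      have h7 := Finset.card_le_card h6
      calc (E + 1) * 2 ^ ρ = 2 ^ ρ * (E + 1) := Nat.mul_comm _ _
        _ ≤ 2 ^ ρ * (Er.filter (fun x => 2 ^ (j - ρ - 1) ≤ x ∧ x < 2 ^ (j + 1))).card :=
            Nat.mul_le_mul_left _ (by omega)
        _ ≤ _ := Nat.le_add_left _ _
  -- counting
  have hlog : ∀ x j : ℕ, 2 ^ j ≤ x → x < 2 ^ (j + 1) → Nat.log 2 x = j := by
    intro x j h1 h2
    exact (Nat.log_eq_iff (Or.inr ⟨by norm_num, by
      have : 0 < 2 ^ j := by positivity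
      omega⟩)).2 ⟨h1, h2⟩
  have sumB : ∑ j ∈ Finset.Ico (J / 2) J \ X,
      (B.filter (fun x => 2 ^ j ≤ x ∧ x < 2 ^ (j + 1))).card ≤ 2 * z := by
    have h1 : ∑ j ∈ Finset.Ico (J / 2) J \ X,
        (B.filter (fun x => 2 ^ j ≤ x ∧ x < 2 ^ (j + 1))).card =
        ((Finset.Ico (J / 2) J \ X).biUnion
          (fun j => B.filter (fun x => 2 ^ j ≤ x ∧ x < 2 ^ (j + 1)))).card := by
      rw [Finset.card_biUnion]
      intro j _ j' _ hne
      rw [Function.onFun, Finset.disjoint_left]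
      intro x hx hx'
      obtain ⟨-, h1, h2⟩ := Finset.mem_filter.1 hx
      obtain ⟨-, h3, h4⟩ := Finset.mem_filter.1 hx'
      exact hne ((hlog x j h1 h2).symm.trans (hlog x j' h3 h4))
    rw [h1]
    refine le_trans (Finset.card_le_card ?_) hB
    intro x hx
    obtain ⟨j, -, hx⟩ := Finset.mem_biUnion.1 hx
    exact (Finset.mem_filter.1 hx).1
  have sumE : ∑ j ∈ Finset.Ico (J / 2) J \ X,
      (Er.filter (fun x => 2 ^ (j - ρ - 1) ≤ x ∧ x < 2 ^ (j + 1))).card ≤ (ρ + 2) * Er.card := by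
    have h1 := Finset.sum_card_bipartiteAbove_eq_sum_card_bipartiteBelow
      (s := Finset.Ico (J / 2) J \ X) (t := Er)
      (fun j x => 2 ^ (j - ρ - 1) ≤ x ∧ x < 2 ^ (j + 1))
    simp only [Finset.bipartiteAbove, Finset.bipartiteBelow] at h1
    rw [h1]
    calc _ ≤ ∑ _x ∈ Er, (ρ + 2) := by
          apply Finset.sum_le_sum
          intro x _
          have hsub : (Finset.Ico (J / 2) J \ X).filter
              (fun j => 2 ^ (j - ρ - 1) ≤ x ∧ x < 2 ^ (j + 1)) ⊆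
              Finset.Icc (Nat.log 2 x) (Nat.log 2 x + (ρ + 1)) := by
            intro j hj
            obtain ⟨hj, h2, h3⟩ := Finset.mem_filter.1 hj
            have hx0 : x ≠ 0 := by
              have : 0 < 2 ^ (j - ρ - 1) := by positivity
              omega
            have h4 : j - ρ - 1 ≤ Nat.log 2 x := Nat.le_log_of_pow_le (by norm_num) h2
            have h5 : Nat.log 2 x < j + 1 := Nat.log_lt_of_lt_pow hx0 h3
            rw [Finset.mem_Icc]
            omega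
          refine (Finset.card_le_card hsub).trans ?_
          rw [Nat.card_Icc]
          omega
      _ = (ρ + 2) * Er.card := by rw [Finset.sum_const, smul_eq_mul, Nat.mul_comm]
  have total := Finset.sum_le_sum key
  rw [Finset.sum_const, smul_eq_mul, Finset.sum_add_distrib, ← Finset.mul_sum,
    ← Finset.mul_sum] at total
  have hcX : J - J / 2 ≤ X.card + (Finset.Ico (J / 2) J \ X).card := by
    have h1 := Finset.le_card_sdiff X (Finset.Ico (J / 2) J)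
    rw [Nat.card_Ico] at h1
    omega
  calc (J - J / 2) * ((E + 1) * 2 ^ ρ) ≤
        (X.card + (Finset.Ico (J / 2) J \ X).card) * ((E + 1) * 2 ^ ρ) :=
        Nat.mul_le_mul_right _ hcX
    _ = X.card * ((E + 1) * 2 ^ ρ) + (Finset.Ico (J / 2) J \ X).card * ((E + 1) * 2 ^ ρ) :=
        Nat.add_mul _ _ _
    _ ≤ X.card * ((E + 1) * 2 ^ ρ) + ((E + 1) * (2 * z) + 2 ^ ρ * ((ρ + 2) * Er.card)) := by
        apply Nat.add_le_add_left
        exact total.trans (Nat.add_le_add (Nat.mul_le_mul_left _ sumB) (Nat.mul_le_mul_left _ sumE))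
    _ = _ := by ring


theorem exc_card {P : ℕ → Prop} {B : ℝ} (h : Thin P B) (r : ℕ) (X : Finset ℕ)
    (hX : ∀ j ∈ X, r ≤ j ∧ P (2 ^ (j - r))) : (X.card : ℝ) ≤ B := by
  classical
  have hinj : Set.InjOn (fun j => 2 ^ (j - r)) (X : Set ℕ) := by
    intro j hj j' hj' heq
    have h1 := (hX j hj).1
    have h2 := (hX j' hj').1
    have h3 : j - r = j' - r := Nat.pow_right_injective (le_refl 2) heq
    omega
  have h1 := h (X.image (fun j => 2 ^ (j - r))) ?_ ?_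
  · rwa [Finset.card_image_of_injOn hinj] at h1
  · constructor
    · intro L hL
      obtain ⟨j, _, rfl⟩ := Finset.mem_image.mp hL
      exact Nat.one_le_two_pow
    · intro L hL L' hL' hlt
      obtain ⟨j, hj, rfl⟩ := Finset.mem_image.mp hL
      obtain ⟨j', hj', rfl⟩ := Finset.mem_image.mp hL'
      have h3 : j - r < j' - r := (Nat.pow_lt_pow_iff_right (by norm_num)).mp hlt
      calc 2 * 2 ^ (j - r) = 2 ^ (j - r + 1) := by rw [pow_succ]; ring
        _ ≤ 2 ^ (j' - r) := Nat.pow_le_pow_right (by norm_num) h3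
  · intro L hL
    obtain ⟨j, hj, rfl⟩ := Finset.mem_image.mp hL
    exact (hX j hj).2

end W3

open W3 in
/-- **The main inequality**, in general form: breakpoints, errors and exceptional scales. -/
theorem exc_gen {b : ℕ} {ξ : ℝ} {k : ℕ} {Dp : ℝ → ℕ → Prop} {Cp : (ℕ → ℝ) → ℕ → ℕ → Prop}
    (hloc : Loc b ξ k Dp Cp) (E ρ N z : ℕ) (v : ℕ → ℝ) (hB : Brk Cp v N z) (F : ℝ)
    (hthin : Thin (Dp ((2 ^ (ρ + 3) * (k * E + 1) : ℕ) : ℝ)) F)
    (h1 : 2 * (ρ + 1 + (k * E + 1)) ≤ Nat.log 2 N)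
    (h2 : 4 * (F + (k * E + 1 : ℕ)) ≤ Nat.log 2 N) :
    Nat.log 2 N * ((E + 1) * 2 ^ ρ) ≤ 8 * ((E + 1) * z) + 4 * (2 ^ ρ * ((ρ + 2) *
      #{t ∈ Finset.range N | v t ≠ (dg b ξ (t + 1) : ℝ)})) := by
  classical
  obtain ⟨Q, hQ⟩ : ∃ Q, Q = k * E + 1 := ⟨_, rfl⟩
  rw [← hQ] at hthin h1 h2
  have hQ1 : 1 ≤ Q := by omega
  obtain ⟨C, hC⟩ : ∃ C : ℝ, C = ((2 ^ (ρ + 3) * Q : ℕ) : ℝ) := ⟨_, rfl⟩
  rw [← hC] at hthin
  obtain ⟨J, hJ⟩ : ∃ J, J = Nat.log 2 N := ⟨_, rfl⟩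
  have hN0 : N ≠ 0 := by
    rintro rfl
    simp at h1
  have hJ1 : 2 * (ρ + 1 + Q) ≤ J := by rw [hJ]; exact h1
  have hJ2 : 4 * (F + (Q : ℕ)) ≤ (J : ℝ) := by rw [hJ]; exact h2
  obtain ⟨X, hX⟩ : ∃ X : Finset ℕ, X = (Finset.Ico (J / 2) J).filter
    (fun j => Dp C (2 ^ (j - (ρ + 1)) / Q)) := ⟨_, rfl⟩
  have hthin' := hthin.div (P' := fun M' => Dp C (M' / Q)) Q 0 hQ1 (fun m _ _ h => h)
  have hXc : (X.card : ℝ) ≤ F + (0 + Q : ℕ) := by
    apply exc_card hthin' (ρ + 1)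
    intro j hj
    rw [hX] at hj
    obtain ⟨h1, h2⟩ := Finset.mem_filter.mp hj
    rw [Finset.mem_Ico] at h1
    exact ⟨by omega, h2⟩
  have hX4 : 4 * X.card ≤ J := by
    have h1 : ((4 * X.card : ℕ) : ℝ) ≤ J := by
      push_cast at hXc ⊢
      linarith
    exact_mod_cast h1
  have hmain := main_count (b := b) (ξ := ξ) (Cp := Cp) E ρ N hN0 X v (by
    intro j hj hjX
    rw [← hJ] at hj
    have hj' := Finset.mem_Ico.mp hj
    refine ⟨by omega, ?_⟩
    intro s hs1 hs hcopy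
    have hQj : Q ≤ 2 ^ (j - ρ - 1) := by
      have h1 : Q ≤ j - ρ - 1 := by omega
      exact h1.trans (Nat.lt_two_pow_self).le
    refine hloc E ρ j (by omega) (by rw [← hQ]; exact hQj) ?_ s hs1 hs v hcopy
    intro hcon
    apply hjX
    rw [hX, Finset.mem_filter]
    refine ⟨hj, ?_⟩
    rw [← hQ, ← hC] at hcon
    have e1 : j - (ρ + 1) = j - ρ - 1 := by omega
    rw [e1]
    exact hcon) z hB
  rw [← hJ] at hmain ⊢
  obtain ⟨k', hk⟩ : ∃ k', k' = ((Finset.range N).filter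
    (fun t => v t ≠ (dg b ξ (t + 1) : ℝ))).card := ⟨_, rfl⟩
  rw [← hk] at hmain ⊢
  have h1 : J ≤ 4 * (J - J / 2 - X.card) := by omega
  have h2 : (J - J / 2 - X.card) * ((E + 1) * 2 ^ ρ) ≤
      (E + 1) * (2 * z) + 2 ^ ρ * ((ρ + 2) * k') := by
    rw [Nat.sub_mul]
    omega
  calc J * ((E + 1) * 2 ^ ρ) ≤ (4 * (J - J / 2 - X.card)) * ((E + 1) * 2 ^ ρ) :=
        Nat.mul_le_mul_right _ h1
    _ = 4 * ((J - J / 2 - X.card) * ((E + 1) * 2 ^ ρ)) := by ring
    _ ≤ 4 * ((E + 1) * (2 * z) + 2 ^ ρ * ((ρ + 2) * k')) := Nat.mul_le_mul_left _ h2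
    _ = _ := by ring

end Pool.Agent.H723.QP
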