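import Mathlib

set_option autoImplicit false

open Finset

namespace Pool.Agent.H723.QP

/-- An affine relation with real coefficients between two windows of integers in `[0, b)` gives
one with integer coefficients. -/
theorem aff_int (b : ℕ) (hb : 2 ≤ b) (m : ℕ) (hm : 1 ≤ m) (x y : ℕ → ℤ)
    (hx : ∀ i, 0 ≤ x i ∧ x i < b) (hy : ∀ i, 0 ≤ y i ∧ y i < b) (a c : ℝ)
    (h : ∀ i < m, (y i : ℝ) = a + c * (x i : ℝ)) :
    ∃ p q a' : ℤ, 0 < q ∧ q < b ∧ |p| < b ∧ ∀ i < m, q * y i = a' + p * x i := by
  by_cases hcon : ∀ i < m, x i = x 0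
  · -- `x` is constant, so `y` is constant
    refine ⟨0, 1, y 0, one_pos, by omega, by simp; omega, fun i hi => ?_⟩
    have h1 := h i hi
    have h0 := h 0 (by omega)
    rw [hcon i hi, ← h0] at h1
    have h2 : y i = y 0 := by exact_mod_cast h1
    rw [h2]
    ring
  · push Not at hcon
    obtain ⟨j, hj, hne⟩ := hcon
    have hj' := h j hj
    have h0' := h 0 (by omega)
    -- the key identity
    have key : ∀ i < m, (x j - x 0) * (y i - y 0) = (y j - y 0) * (x i - x 0) := by
      intro i hi
      have hi' := h i hi
      have h3 : ((x j : ℝ) - x 0) * ((y i : ℝ) - y 0) = ((y j : ℝ) - y 0) * ((x i : ℝ) - x 0) := by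
        rw [hi', hj', h0']
        ring
      exact_mod_cast h3
    have b1 := hx j
    have b2 := hx 0
    have b3 := hy j
    have b4 := hy 0
    rcases lt_or_gt_of_ne hne with hlt | hgt
    · refine ⟨-(y j - y 0), -(x j - x 0), -(x j - x 0) * y 0 - -(y j - y 0) * x 0, by omega,
        by omega, ?_, fun i hi => ?_⟩
      · rw [abs_lt]
        constructor <;> omega
      · have := key i hi
        linear_combination -this
    · refine ⟨y j - y 0, x j - x 0, (x j - x 0) * y 0 - (y j - y 0) * x 0, by omega,
        by omega, ?_, fun i hi => ?_⟩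
      · rw [abs_lt]
        constructor <;> omega
      · have := key i hi
        linear_combination this

end Pool.Agent.H723.QP
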