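import Pool.Agent.H723.QP.Base
import Pool.Agent.H723.QP.U3

set_option autoImplicit false

open Finset

namespace Pool.Agent.H723.QP

theorem W1_core (b : ℕ) (hb : 2 ≤ b) (ξ : ℝ) (u v m L : ℕ) (hL : 2 * L ≤ m) (hm : 1 ≤ m)
    (p q a' : ℤ) (hq : |q| ≤ b) (hp : |p| ≤ b)
    (h : ∀ i < m, q * dg b ξ (u + i + 1) - p * dg b ξ (v + i + 1) = a') :
    |((b : ℝ) - 1) * (q * (ξ * (b : ℝ) ^ (u + L)) - p * (ξ * (b : ℝ) ^ (v + L))) -
      ((((b : ℤ) - 1) * (q * ⌊ξ * (b : ℝ) ^ (u + L)⌋ - p * ⌊ξ * (b : ℝ) ^ (v + L)⌋) + a' : ℤ) : ℝ)|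
      ≤ 6 * (b : ℝ) ^ 2 / (b : ℝ) ^ L := by
  have hbR : (2 : ℝ) ≤ b := by exact_mod_cast hb
  have hb0 : (0 : ℝ) < b := by linarith
  have hb1 : (0 : ℝ) < (b : ℝ) - 1 := by linarith
  obtain ⟨r, hr⟩ : ∃ r : ℕ → ℝ, ∀ n, r n = Int.fract (ξ * (b : ℝ) ^ n) := ⟨_, fun _ => rfl⟩
  have hr0 : ∀ n, 0 ≤ r n := fun n => by rw [hr]; exact Int.fract_nonneg _
  have hr1 : ∀ n, r n ≤ 1 := fun n => by rw [hr]; exact (Int.fract_lt_one _).le
  have hrec : ∀ n, (b : ℝ) * r n = dg b ξ (n + 1) + r (n + 1) := by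
    intro n; rw [hr, hr]; exact dg_rec hb ξ n
  obtain ⟨s, hs⟩ : ∃ s : ℕ → ℝ, ∀ i, s i = q * r (u + i) - p * r (v + i) - a' / ((b : ℝ) - 1) :=
    ⟨_, fun _ => rfl⟩
  have hstep : ∀ i < m, s (i + 1) = b * s i := by
    intro i hi
    have h1 := hrec (u + i)
    have h2 := hrec (v + i)
    have h3 : (q : ℝ) * dg b ξ (u + i + 1) - p * dg b ξ (v + i + 1) = a' := by
      exact_mod_cast h i hi
    have h4 : (a' : ℝ) + a' / ((b : ℝ) - 1) = b * (a' / ((b : ℝ) - 1)) := by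
      field_simp
      ring
    have e1 : r (u + (i + 1)) = b * r (u + i) - dg b ξ (u + i + 1) := by
      rw [← add_assoc]; linarith
    have e2 : r (v + (i + 1)) = b * r (v + i) - dg b ξ (v + i + 1) := by
      rw [← add_assoc]; linarith
    rw [hs, hs, e1, e2]
    linear_combination -h3 - h4
  have hup : ∀ j, L + j ≤ m → (b : ℝ) ^ j * s L = s (L + j) := by
    intro j
    induction j with
    | zero => intro _; simp
    | succ j ih =>
      intro hj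
      have h1 := ih (by omega)
      have h2 := hstep (L + j) (by omega)
      rw [← add_assoc, h2, ← h1, pow_succ]
      ring
  have hqR : |(q : ℝ)| ≤ b := by exact_mod_cast hq
  have hpR : |(p : ℝ)| ≤ b := by exact_mod_cast hp
  have ha' : |(a' : ℝ)| ≤ 2 * (b : ℝ) ^ 2 := by
    have h3 : (q : ℝ) * dg b ξ (u + 0 + 1) - p * dg b ξ (v + 0 + 1) = a' := by
      exact_mod_cast h 0 (by omega)
    have h4 : |((dg b ξ (u + 0 + 1) : ℤ) : ℝ)| ≤ b := by exact_mod_cast dg_abs hb ξ _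
    have h5 : |((dg b ξ (v + 0 + 1) : ℤ) : ℝ)| ≤ b := by exact_mod_cast dg_abs hb ξ _
    rw [← h3]
    refine (abs_sub _ _).trans ?_
    rw [abs_mul, abs_mul]
    have h6 := mul_le_mul hqR h4 (abs_nonneg _) hb0.le
    have h7 := mul_le_mul hpR h5 (abs_nonneg _) hb0.le
    have h8 : (b : ℝ) ^ 2 = b * b := by ring
    rw [h8]
    linarith
  have hdiv : |(a' : ℝ) / ((b : ℝ) - 1)| ≤ 4 * b := by
    rw [abs_div, abs_of_pos hb1, div_le_iff₀ hb1]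
    have h8 : 2 * (b : ℝ) ^ 2 ≤ 4 * b * ((b : ℝ) - 1) := by nlinarith
    linarith
  have hsm : ∀ i, |s i| ≤ 6 * b := by
    intro i
    rw [hs]
    have h1 : |(q : ℝ) * r (u + i)| ≤ b := by
      rw [abs_mul, abs_of_nonneg (hr0 _)]
      calc |(q : ℝ)| * r (u + i) ≤ b * 1 := mul_le_mul hqR (hr1 _) (hr0 _) hb0.le
        _ = b := mul_one _
    have h2 : |(p : ℝ) * r (v + i)| ≤ b := by
      rw [abs_mul, abs_of_nonneg (hr0 _)]
      calc |(p : ℝ)| * r (v + i) ≤ b * 1 := mul_le_mul hpR (hr1 _) (hr0 _) hb0.le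
        _ = b := mul_one _
    have h3 := abs_sub ((q : ℝ) * r (u + i) - p * r (v + i)) (a' / ((b : ℝ) - 1))
    have h4 := abs_sub ((q : ℝ) * r (u + i)) (p * r (v + i))
    linarith
  have hsL : |s L| * (b : ℝ) ^ L ≤ 6 * b := by
    have h1 := hup (m - L) (by omega)
    have h2 := hsm (L + (m - L))
    rw [← h1, abs_mul, abs_of_pos (by positivity : (0 : ℝ) < (b : ℝ) ^ (m - L))] at h2
    have h3 : (b : ℝ) ^ L ≤ (b : ℝ) ^ (m - L) :=
      pow_le_pow_right₀ (by linarith) (by omega)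
    have h4 := mul_le_mul_of_nonneg_right h3 (abs_nonneg (s L))
    linarith
  have hfin : ((b : ℝ) - 1) * (q * (ξ * (b : ℝ) ^ (u + L)) - p * (ξ * (b : ℝ) ^ (v + L))) -
      ((((b : ℤ) - 1) * (q * ⌊ξ * (b : ℝ) ^ (u + L)⌋ - p * ⌊ξ * (b : ℝ) ^ (v + L)⌋) + a' : ℤ) : ℝ)
      = ((b : ℝ) - 1) * s L := by
    rw [hs, hr, hr]
    unfold Int.fract
    push_cast
    have h4 : ((b : ℝ) - 1) * (a' / ((b : ℝ) - 1)) = a' := by field_simp
    linear_combination h4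
  rw [hfin, abs_mul, abs_of_pos hb1, le_div_iff₀ (by positivity)]
  have h5 : ((b : ℝ) - 1) * |s L| * (b : ℝ) ^ L = ((b : ℝ) - 1) * (|s L| * (b : ℝ) ^ L) := by ring
  rw [h5]
  have h6 := mul_le_mul_of_nonneg_left hsL hb1.le
  nlinarith

theorem W1_exp (b : ℕ) (hb : 2 ≤ b) (L : ℕ) (hL : 10 ≤ L) :
    6 * (b : ℝ) ^ 2 / (b : ℝ) ^ L ≤ Real.exp (-(1 / 2 * (L * Real.log b))) := by
  have hbR : (2 : ℝ) ≤ b := by exact_mod_cast hb
  have hb0 : (0 : ℝ) < b := by linarith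
  have hlog : 0 < Real.log b := Real.log_pos (by linarith)
  have h1 : 6 * (b : ℝ) ^ 2 ≤ (b : ℝ) ^ 5 := by
    have h3 : (8 : ℝ) ≤ (b : ℝ) ^ 3 := by
      calc (8 : ℝ) = 2 ^ 3 := by norm_num
        _ ≤ (b : ℝ) ^ 3 := pow_le_pow_left₀ (by norm_num) hbR 3
    have h4 : (b : ℝ) ^ 5 = (b : ℝ) ^ 3 * (b : ℝ) ^ 2 := by ring
    rw [h4]
    have h5 : (0 : ℝ) ≤ (b : ℝ) ^ 2 := by positivity
    nlinarith
  have e : ∀ k : ℕ, (b : ℝ) ^ k = Real.exp (k * Real.log b) := by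
    intro k
    rw [← Real.log_pow, Real.exp_log (by positivity)]
  calc 6 * (b : ℝ) ^ 2 / (b : ℝ) ^ L ≤ (b : ℝ) ^ 5 / (b : ℝ) ^ L := by gcongr
    _ = Real.exp ((5 - L) * Real.log b) := by
        rw [e 5, e L, ← Real.exp_sub]
        congr 1
        push_cast
        ring
    _ ≤ _ := by
        apply Real.exp_le_exp.mpr
        have hL' : (10 : ℝ) ≤ L := by exact_mod_cast hL
        nlinarith

theorem W1_small (b : ℕ) (hb : 2 ≤ b) (ε : ℝ) (hε : 0 < ε) (L : ℕ) (hL : 2 / ε ≤ L) :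
    (b : ℝ) ^ 2 ≤ Real.exp (ε * (L * Real.log b)) := by
  have hbR : (2 : ℝ) ≤ b := by exact_mod_cast hb
  have hlog : 0 < Real.log b := Real.log_pos (by linarith)
  have h1 : (b : ℝ) ^ 2 = Real.exp (2 * Real.log b) := by
    have h2 : (2 : ℝ) * Real.log b = Real.log ((b : ℝ) ^ 2) := by rw [Real.log_pow]; push_cast; ring
    rw [h2, Real.exp_log (by positivity)]
  rw [h1]
  apply Real.exp_le_exp.mpr
  rw [div_le_iff₀ hε] at hL
  nlinarith

/-- A constant window of digits gives an approximation with one power. -/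
theorem ex_of_dep0 (ε : ℝ) (hε : 0 < ε) : ∃ M0 : ℕ, ∀ b : ℕ, 2 ≤ b → ∀ ξ C : ℝ, 1 ≤ C →
    ∀ m : ℕ, M0 ≤ m → Dep0 b ξ C m → Ex b ξ 1 (1 / 2) ε (4 * C) (m / 2) := by
  obtain ⟨N, hN⟩ := exists_nat_ge (2 / ε)
  refine ⟨2 * (10 + N), fun b hb ξ C hC m hm h => ?_⟩
  obtain ⟨u, hu, a, ha⟩ := h
  have hbR : (2 : ℝ) ≤ b := by exact_mod_cast hb
  have hb0 : (0 : ℝ) < b := by linarith
  set L : ℕ := m / 2 with hL
  have hL10 : 10 + N ≤ L := by omega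
  have hL2 : 2 * L ≤ m := by omega
  have hLm : m ≤ 2 * L + 1 := by omega
  have hLR : (1 : ℝ) ≤ L := by exact_mod_cast (by omega : 1 ≤ L)
  have hmR : (m : ℝ) ≤ 2 * L + 1 := by exact_mod_cast hLm
  have hLN : 2 / ε ≤ (L : ℝ) := hN.trans (by exact_mod_cast (by omega : N ≤ L))
  have hint : ∀ i < m, (1 : ℤ) * dg b ξ (u + i + 1) - 0 * dg b ξ (u + i + 1) = dg b ξ (u + 0 + 1) := by
    intro i hi
    have h1 : (dg b ξ (u + i + 1) : ℝ) = dg b ξ (u + 0 + 1) := by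
      rw [ha i hi, ha 0 (by omega)]
    have h2 : dg b ξ (u + i + 1) = dg b ξ (u + 0 + 1) := by exact_mod_cast h1
    rw [h2]; ring
  have hcore := W1_core b hb ξ u u m L hL2 (by omega) 0 1 _ (by rw [abs_one]; omega) (by rw [abs_zero]; omega) hint
  refine ⟨fun _ => u + L, fun _ => Nat.le_add_left _ _, fun _ => ?_, fun _ => (b : ℤ) - 1,
    fun _ => ?_, ?_, ((b : ℤ) - 1) * (1 * ⌊ξ * (b : ℝ) ^ (u + L)⌋ - 0 * ⌊ξ * (b : ℝ) ^ (u + L)⌋) +
      dg b ξ (u + 0 + 1),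
    le_trans (le_of_eq ?_) (hcore.trans (W1_exp b hb L (by omega)))⟩
  · push_cast
    nlinarith
  · refine le_trans ?_ (W1_small b hb ε hε L hLN)
    push_cast
    rw [abs_of_nonneg (by linarith)]
    nlinarith
  · rw [Fin.sum_univ_one]
    have h1 : (b : ℤ) - 1 ≠ 0 := by omega
    have h2 : (b : ℤ) ≠ 0 := by omega
    exact mul_ne_zero h1 (pow_ne_zero _ h2)
  · rw [Fin.sum_univ_one]
    congr 1
    push_cast
    ring

/-- Two affinely dependent windows of digits give an approximation with two powers. -/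
theorem ex_of_dep1 (ε : ℝ) (hε : 0 < ε) : ∃ M0 : ℕ, ∀ b : ℕ, 2 ≤ b → ∀ ξ C : ℝ, 1 ≤ C →
    ∀ m : ℕ, M0 ≤ m → Dep1 b ξ C m → Ex b ξ 2 (1 / 2) ε (4 * C) (m / 2) := by
  obtain ⟨N, hN⟩ := exists_nat_ge (2 / ε)
  refine ⟨2 * (10 + N), fun b hb ξ C hC m hm h => ?_⟩
  obtain ⟨u, d, hd1, hdu, hu, a, c, ha⟩ := h
  have hbR : (2 : ℝ) ≤ b := by exact_mod_cast hb
  have hb0 : (0 : ℝ) < b := by linarith
  set L : ℕ := m / 2 with hL
  have hL10 : 10 + N ≤ L := by omega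
  have hL2 : 2 * L ≤ m := by omega
  have hLm : m ≤ 2 * L + 1 := by omega
  have hLR : (1 : ℝ) ≤ L := by exact_mod_cast (by omega : 1 ≤ L)
  have hmR : (m : ℝ) ≤ 2 * L + 1 := by exact_mod_cast hLm
  have hLN : 2 / ε ≤ (L : ℝ) := hN.trans (by exact_mod_cast (by omega : N ≤ L))
  obtain ⟨p, q, a', hq0, hqb, hpb, hrel⟩ := aff_int b hb m (by omega)
    (fun i => dg b ξ (u - d + i + 1)) (fun i => dg b ξ (u + i + 1))
    (fun i => ⟨dg_nonneg hb ξ _, dg_lt hb ξ _⟩) (fun i => ⟨dg_nonneg hb ξ _, dg_lt hb ξ _⟩) a c ha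
  have hint : ∀ i < m, q * dg b ξ (u + i + 1) - p * dg b ξ (u - d + i + 1) = a' := by
    intro i hi
    have h1 : q * dg b ξ (u + i + 1) = a' + p * dg b ξ (u - d + i + 1) := hrel i hi
    linarith
  have hqa : |q| ≤ b := by rw [abs_of_pos hq0]; exact hqb.le
  have hcore := W1_core b hb ξ u (u - d) m L hL2 (by omega) p q a' hqa hpb.le hint
  have hqR : |(q : ℝ)| ≤ b := by exact_mod_cast hqa
  have hpR : |(p : ℝ)| ≤ b := by exact_mod_cast hpb.le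
  have hb1 : (0 : ℝ) ≤ (b : ℝ) - 1 := by linarith
  refine ⟨![u + L, u - d + L], ?_, ?_, ![((b : ℤ) - 1) * q, -(((b : ℤ) - 1) * p)], ?_, ?_,
    ((b : ℤ) - 1) * (q * ⌊ξ * (b : ℝ) ^ (u + L)⌋ - p * ⌊ξ * (b : ℝ) ^ (u - d + L)⌋) + a',
    le_trans (le_of_eq ?_) (hcore.trans (W1_exp b hb L (by omega)))⟩
  · intro i
    fin_cases i
    · show L ≤ u + L
      omega
    · show L ≤ u - d + L
      omega
  · intro i
    fin_cases i
    · show ((u + L : ℕ) : ℝ) ≤ 4 * C * L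
      push_cast
      nlinarith
    · show ((u - d + L : ℕ) : ℝ) ≤ 4 * C * L
      have h1 : ((u - d + L : ℕ) : ℝ) ≤ ((u + L : ℕ) : ℝ) := by
        exact_mod_cast (by omega : u - d + L ≤ u + L)
      refine h1.trans ?_
      push_cast
      nlinarith
  · intro j
    refine le_trans ?_ (W1_small b hb ε hε L hLN)
    fin_cases j
    · show |((((b : ℤ) - 1) * q : ℤ) : ℝ)| ≤ (b : ℝ) ^ 2
      push_cast
      rw [abs_mul, abs_of_nonneg hb1]
      have h1 := mul_le_mul_of_nonneg_left hqR hb1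
      nlinarith
    · show |((-(((b : ℤ) - 1) * p) : ℤ) : ℝ)| ≤ (b : ℝ) ^ 2
      push_cast
      rw [abs_neg, abs_mul, abs_of_nonneg hb1]
      have h1 := mul_le_mul_of_nonneg_left hpR hb1
      nlinarith
  · rw [Fin.sum_univ_two]
    show ((b : ℤ) - 1) * q * (b : ℤ) ^ (u + L) + -(((b : ℤ) - 1) * p) * (b : ℤ) ^ (u - d + L) ≠ 0
    have e1 : u + L = d + (u - d + L) := by omega
    have h1 : ((b : ℤ) - 1) * q * (b : ℤ) ^ (u + L) + -(((b : ℤ) - 1) * p) * (b : ℤ) ^ (u - d + L) =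
        ((b : ℤ) - 1) * (b : ℤ) ^ (u - d + L) * (q * (b : ℤ) ^ d - p) := by
      rw [e1, pow_add]; ring
    rw [h1]
    have h2 : (b : ℤ) - 1 ≠ 0 := by omega
    have h3 : (b : ℤ) ≠ 0 := by omega
    have h4 : (b : ℤ) ≤ (b : ℤ) ^ d := by
      calc (b : ℤ) = (b : ℤ) ^ 1 := (pow_one _).symm
        _ ≤ (b : ℤ) ^ d := pow_le_pow_right₀ (by omega) hd1
    have h5 : q * (b : ℤ) ^ d - p ≠ 0 := by
      have h6 : (b : ℤ) ≤ q * (b : ℤ) ^ d := by nlinarith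
      have h7 := le_abs_self p
      omega
    exact mul_ne_zero (mul_ne_zero h2 (pow_ne_zero _ h3)) h5
  · rw [Fin.sum_univ_two]
    congr 1
    show ξ * (((((b : ℤ) - 1) * q : ℤ) : ℝ) * (b : ℝ) ^ (u + L) +
      ((-(((b : ℤ) - 1) * p) : ℤ) : ℝ) * (b : ℝ) ^ (u - d + L)) - _ = _
    push_cast
    ring

end Pool.Agent.H723.QP
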