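import Pool.Graph.R_seed8.H648R2.S.Elim

set_option autoImplicit false

open Finset Polynomial

namespace Pool.Agent.H723.QP

open Pool.Agent.H648R2.S

/-- the support of the quotient, uniformly in the base -/
theorem uquot_supp {b : ℕ} (hb : 2 ≤ b) {P Q : ℤ[X]} (h : P = (X - C (b : ℤ)) * Q) (k : ℕ)
    (hH : ∀ i, |P.coeff i| ≤ ((b ^ k : ℕ) : ℤ)) : Q.support.card ≤ P.support.card * (k + 1) := by
  have hQ := quot_bound hb h (b ^ k) hH
  have hbZ : (2 : ℤ) ≤ b := by exact_mod_cast hb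
  have hsub : Q.support ⊆ Finset.image₂ (· + ·) P.support (range (k + 1)) := by
    intro j hj
    rw [mem_support_iff] at hj
    by_contra hcon
    have hz : ∀ i, i ≤ j → j < i + (k + 1) → P.coeff i = 0 := by
      intro i hi1 hi2
      by_contra hne
      apply hcon
      rw [Finset.mem_image₂]
      exact ⟨i, mem_support_iff.2 hne, j - i, Finset.mem_range.2 (by omega), by omega⟩
    by_cases hjH : k + 1 ≤ j
    · have h1 := quot_down h j (k + 1) hjH (fun i hi1 hi2 => hz i hi2 (by omega))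
      have h2 := hQ (j - (k + 1))
      rw [h1, abs_mul, abs_pow, abs_of_nonneg (by omega : (0 : ℤ) ≤ b)] at h2
      have h3 : 1 ≤ |Q.coeff j| := Int.one_le_abs hj
      have h4 : (((b ^ k : ℕ) : ℕ) : ℤ) < (b : ℤ) ^ (k + 1) := by
        have h5 : b ^ k < b ^ (k + 1) := Nat.pow_lt_pow_right (by omega) (by omega)
        exact_mod_cast h5
      nlinarith
    · have h1 := quot_down h j j le_rfl (fun i hi1 hi2 => hz i hi2 (by omega))
      rw [Nat.sub_self] at h1
      have h2 := coeff_quot_zero h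
      rw [hz 0 (Nat.zero_le _) (by omega), neg_zero, h1] at h2
      have h3 : (b : ℤ) ≠ 0 := by omega
      exact mul_ne_zero h3 (mul_ne_zero (pow_ne_zero _ h3) hj) h2
  refine (Finset.card_le_card hsub).trans ?_
  refine (Finset.card_image₂_le _ _ _).trans ?_
  rw [Finset.card_range]

/-- one division step: the quotient kills a shorter window, uniformly in the base -/
theorem uwindow_div {b : ℕ} (hb : 2 ≤ b) {P Q : ℤ[X]} (h : P = (X - C (b : ℤ)) * Q) (D k : ℕ)
    (hD : Q.support.card ≤ D) (hH : ∀ i, |Q.coeff i| ≤ ((b ^ k : ℕ) : ℤ)) (c : ℕ → ℤ)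
    (hB : ∀ n, |c n| ≤ b) (m : ℕ) (hP : ∀ n, 1 ≤ n → n ≤ m → act P c n = 0) :
    ∀ n, 1 ≤ n → n ≤ m - (D + k) → act Q c n = 0 := by
  intro n hn1 hn2
  have hbZ : (2 : ℤ) ≤ b := by exact_mod_cast hb
  have hrec : ∀ k, 1 ≤ k → k ≤ m → act Q c (k + 1) = b * act Q c k := by
    intro k hk1 hk2
    have h1 := hP k hk1 hk2
    rw [h, act_mul, act_X_sub_C, smul_eq_mul] at h1
    linarith
  have hup : ∀ j, n + j ≤ m + 1 → act Q c (n + j) = b ^ j * act Q c n := by
    intro j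
    induction j with
    | zero => intro _; simp
    | succ j ih =>
      intro hj
      have h1 := hrec (n + j) (by omega) (by omega)
      rw [← add_assoc, h1, ih (by omega), pow_succ]; ring
  by_contra hne
  have h1 : 1 ≤ |act Q c n| := Int.one_le_abs hne
  have h2 := hup (m + 1 - n) (by omega)
  have h3 : |act Q c (n + (m + 1 - n))| ≤ (D * b ^ k * b : ℕ) := by
    have h4 := abs_act_le Q (fun k => (c k : ℝ)) D (b ^ k) b hD hH
      (fun k => by exact_mod_cast hB k) (n + (m + 1 - n))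
    rw [act_cast] at h4
    exact_mod_cast h4
  rw [h2, abs_mul, abs_pow, abs_of_nonneg (by omega : (0 : ℤ) ≤ b)] at h3
  have h5 : D * b ^ k * b < b ^ (m + 1 - n) := by
    have h7 : D * b ^ k * b < b ^ (D + (k + 1)) := by
      rw [pow_add, mul_assoc, ← pow_succ]
      exact Nat.mul_lt_mul_of_pos_right (Nat.lt_pow_self (by omega : 1 < b))
        (Nat.pow_pos (by omega))
    refine lt_of_lt_of_le h7 ?_
    exact Nat.pow_le_pow_right (by omega) (by omega)
  have h6 : ((D * b ^ k * b : ℕ) : ℤ) < (b : ℤ) ^ (m + 1 - n) := by exact_mod_cast h5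
  nlinarith

/-- removing all factors `X - b`, uniformly in the base -/
theorem uelim_aux (k : ℕ) : ∀ r D : ℕ, ∃ D' K : ℕ, ∀ b : ℕ, 2 ≤ b → ∀ (c : ℕ → ℤ),
    (∀ n, |c n| ≤ b) → ∀ (m : ℕ) (P : ℤ[X]), P.support.card ≤ D →
    (∀ i, |P.coeff i| ≤ ((b ^ k : ℕ) : ℤ)) →
    (∃ a, P.coeff a ≠ 0 ∧ (∀ i, i < a → P.coeff i = 0) ∧ |P.coeff a| < (b : ℤ) ^ r) →
    (∀ n, 1 ≤ n → n ≤ m → act P c n = 0) →
    ∃ Q : ℤ[X], Q.support.card ≤ D' ∧ (∀ i, |Q.coeff i| ≤ ((b ^ k : ℕ) : ℤ)) ∧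
      Q.natDegree ≤ P.natDegree ∧
      Q.eval (b : ℤ) ≠ 0 ∧ ∀ n, 1 ≤ n → n ≤ m - K → act Q c n = 0 := by
  intro r
  induction r with
  | zero =>
    intro D
    refine ⟨0, 0, ?_⟩
    intro b _ c _ m P _ _ ⟨a, ha, _, ha2⟩ _
    exfalso
    rw [pow_zero] at ha2
    have := Int.one_le_abs ha
    omega
  | succ r ih =>
    intro D
    obtain ⟨D1, K1, h1⟩ := ih (D * (k + 1))
    refine ⟨max D D1, (D * (k + 1) + k) + K1, ?_⟩
    intro b hb c hc m P hD hH ⟨a, ha, haz, ha2⟩ hP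
    have hbZ : (2 : ℤ) ≤ b := by exact_mod_cast hb
    by_cases hev : P.eval (b : ℤ) = 0
    · obtain ⟨Q, hQ⟩ := dvd_iff_isRoot.2 (show IsRoot P (b : ℤ) from hev)
      have hQH := quot_bound hb hQ (b ^ k) hH
      have hQD : Q.support.card ≤ D * (k + 1) :=
        (uquot_supp hb hQ k hH).trans (Nat.mul_le_mul_right _ hD)
      obtain ⟨hl1, hl2⟩ := quot_low hb hQ a haz
      have hwin := uwindow_div hb hQ (D * (k + 1)) k hQD hQH c hc m hP
      obtain ⟨Q', hq1, hq2, hq3, hq4, hq5⟩ := h1 b hb c hc (m - (D * (k + 1) + k)) Q hQD hQH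
        ⟨a, by
          intro h0
          rw [h0, mul_zero] at hl2
          exact ha (by linarith), hl1, by
          have h3 : |(b : ℤ) * Q.coeff a| < (b : ℤ) ^ (r + 1) := by rw [hl2, abs_neg]; exact ha2
          rw [abs_mul, abs_of_nonneg (by omega : (0 : ℤ) ≤ b), pow_succ'] at h3
          exact lt_of_mul_lt_mul_left h3 (by omega)⟩ hwin
      refine ⟨Q', hq1.trans (le_max_right _ _), hq2, hq3.trans ?_, hq4, ?_⟩
      · have hQ0 : Q ≠ 0 := by
          rintro rfl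
          apply ha
          rw [hQ]; simp
        rw [hQ, natDegree_mul (X_sub_C_ne_zero _) hQ0]
        omega
      · intro n hn1 hn2
        exact hq5 n hn1 (by omega)
    · exact ⟨P, hD.trans (le_max_left _ _), hH, le_rfl, hev,
        fun n hn1 hn2 => hP n hn1 (by omega)⟩

/-- **Uniform elimination**: a short polynomial with small coefficients in the shift which kills a
long window of a sequence bounded by `b` can be replaced by one which does not vanish at `b`; the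
number of its terms does not depend on `b`. -/
theorem uelim (D h : ℕ) : ∃ D' K : ℕ, ∀ b : ℕ, 2 ≤ b → ∀ c : ℕ → ℤ, (∀ n, |c n| ≤ b) →
    ∀ (m : ℕ) (P : ℤ[X]), P ≠ 0 → P.support.card ≤ D → (∀ i, |P.coeff i| ≤ ((b ^ h : ℕ) : ℤ)) →
    (∀ n, 1 ≤ n → n ≤ m → act P c n = 0) →
    ∃ Q : ℤ[X], Q.support.card ≤ D' ∧ (∀ i, |Q.coeff i| ≤ ((b ^ h : ℕ) : ℤ)) ∧
      Q.natDegree ≤ P.natDegree ∧ Q.eval (b : ℤ) ≠ 0 ∧
      ∀ n, 1 ≤ n → n ≤ m - K → act Q c n = 0 := by
  obtain ⟨D', K, haux⟩ := uelim_aux h (h + 1) D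
  refine ⟨D', K, ?_⟩
  intro b hb c hc m P hP0 hD hH hP
  refine haux b hb c hc m P hD hH ⟨P.natTrailingDegree, ?_, ?_, ?_⟩ hP
  · exact trailingCoeff_nonzero_iff_nonzero.2 hP0
  · intro i hi
    exact coeff_eq_zero_of_lt_natTrailingDegree hi
  · refine lt_of_le_of_lt (hH _) ?_
    have : b ^ h < b ^ (h + 1) := Nat.pow_lt_pow_right (by omega) (by omega)
    exact_mod_cast this

end Pool.Agent.H723.QP
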