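import Mathlib

set_option autoImplicit false

open Finset

namespace Pool.Agent.H723.QP

/-- Integer relations between few integer vectors: explicit bound (Cramer's rule). -/
theorem urel (D B : ℕ) (hB : 1 ≤ B) (m : ℕ) (v : Fin D → Fin m → ℤ) (hv : ∀ j i, |v j i| ≤ B)
    (h : ∃ g : Fin D → ℤ, g ≠ 0 ∧ ∀ i, ∑ j, g j * v j i = 0) :
    ∃ g : Fin D → ℤ, g ≠ 0 ∧ (∀ j, |g j| ≤ ((D.factorial * B ^ D : ℕ) : ℤ)) ∧
      ∀ i, ∑ j, g j * v j i = 0 := by
  classical
  obtain ⟨g, hg0, hg⟩ := h
  obtain ⟨P, hP⟩ : ∃ P : ℕ → Prop, P = fun r => ∃ (J : Fin r → Fin D) (I : Fin r → Fin m),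
    (Matrix.of fun a b => v (J a) (I b)).det ≠ 0 := ⟨_, rfl⟩
  have P0 : P 0 := by
    rw [hP]
    exact ⟨Fin.elim0, Fin.elim0, by rw [Matrix.det_isEmpty]; exact one_ne_zero⟩
  have inj : ∀ (r : ℕ) (J : Fin r → Fin D) (I : Fin r → Fin m),
      (Matrix.of fun a b => v (J a) (I b)).det ≠ 0 → Function.Injective J := by
    intro r J I hd a a' haa
    by_contra hne
    apply hd
    exact Matrix.det_zero_of_row_eq hne (by funext b; rw [Matrix.of_apply, Matrix.of_apply, haa])
  have PD : ¬ P D := by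
    rw [hP]
    rintro ⟨J, I, hd⟩
    have hJ := inj D J I hd
    have hJs : Function.Surjective J := Finite.injective_iff_surjective.1 hJ
    apply hg0
    have h1 : Matrix.vecMul (fun a => g (J a)) (Matrix.of fun a b => v (J a) (I b)) = 0 := by
      funext b
      change ∑ a, g (J a) * v (J a) (I b) = 0
      rw [← hg (I b)]
      exact Function.Bijective.sum_comp ⟨hJ, hJs⟩ (fun j => g j * v j (I b))
    have h2 := Matrix.eq_zero_of_vecMul_eq_zero hd h1
    funext j
    obtain ⟨a, rfl⟩ := hJs j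
    exact congrFun h2 a
  obtain ⟨r, hrD, hPr, hPr1⟩ : ∃ r, r < D ∧ P r ∧ ¬ P (r + 1) := by
    by_contra hcon
    push Not at hcon
    have h1 : ∀ r, r ≤ D → P r := by
      intro r
      induction r with
      | zero => intro _; exact P0
      | succ r ih => intro hr; exact hcon r (by omega) (ih (by omega))
    exact PD (h1 D le_rfl)
  rw [hP] at hPr hPr1
  obtain ⟨J, I, hd⟩ := hPr
  have hJ := inj r J I hd
  obtain ⟨j0, hj0⟩ : ∃ j0, ∀ a, J a ≠ j0 := by
    by_contra hcon
    push Not at hcon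
    have h1 : Fintype.card (Fin D) ≤ Fintype.card (Fin r) := Fintype.card_le_of_surjective J hcon
    rw [Fintype.card_fin, Fintype.card_fin] at h1
    omega
  obtain ⟨J', hJ'⟩ : ∃ J' : Fin (r + 1) → Fin D, J' = Fin.cons j0 J := ⟨_, rfl⟩
  have hJ'0 : J' 0 = j0 := by rw [hJ']; rfl
  have hJ's : ∀ a : Fin r, J' a.succ = J a := by intro a; rw [hJ']; rfl
  have hJ'inj : Function.Injective J' := by
    rw [hJ']
    rw [Fin.cons_injective_iff]
    exact ⟨fun ⟨a, ha⟩ => hj0 a ha, hJ⟩
  obtain ⟨c, hc⟩ : ∃ c : Fin (r + 1) → ℤ, c = fun a : Fin (r + 1) => (-1) ^ (a : ℕ) *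
    (Matrix.of fun (x : Fin r) (y : Fin r) => v (J' (a.succAbove x)) (I y)).det := ⟨_, rfl⟩
  have hc0 : c 0 ≠ 0 := by
    rw [hc]
    change (-1) ^ ((0 : Fin (r + 1)) : ℕ) *
      (Matrix.of fun (x : Fin r) (y : Fin r) => v (J' ((0 : Fin (r + 1)).succAbove x)) (I y)).det ≠ 0
    rw [Fin.val_zero, pow_zero, one_mul]
    simp only [Fin.succAbove_zero, hJ's]
    exact hd
  have hcb : ∀ a, |c a| ≤ ((D.factorial * B ^ D : ℕ) : ℤ) := by
    intro a
    have h1 := Matrix.det_le (A := Matrix.of fun (x : Fin r) (y : Fin r) => v (J' (a.succAbove x)) (I y))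
      (abv := AbsoluteValue.abs) (x := (B : ℤ)) (fun x y => hv _ _)
    rw [Fintype.card_fin, nsmul_eq_mul] at h1
    have h2 : |c a| = |(Matrix.of fun (x : Fin r) (y : Fin r) => v (J' (a.succAbove x)) (I y)).det| := by
      rw [hc]
      change |(-1) ^ (a : ℕ) * _| = _
      rw [abs_mul, abs_pow, abs_neg, abs_one, one_pow, one_mul]
    rw [h2]
    refine le_trans h1 ?_
    have h3 : r.factorial * B ^ r ≤ D.factorial * B ^ D :=
      Nat.mul_le_mul (Nat.factorial_le hrD.le) (Nat.pow_le_pow_right hB hrD.le)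
    exact_mod_cast h3
  have hrel : ∀ i, ∑ a, c a * v (J' a) i = 0 := by
    intro i
    have h1 : (Matrix.of fun (a b : Fin (r + 1)) => v (J' a) ((Fin.cons i I : Fin (r + 1) → Fin m) b)).det = 0 := by
      by_contra hcon
      exact hPr1 ⟨J', Fin.cons i I, hcon⟩
    rw [Matrix.det_succ_column_zero] at h1
    rw [← h1]
    refine sum_congr rfl fun a _ => ?_
    rw [hc]
    change (-1) ^ (a : ℕ) * (Matrix.of fun (x : Fin r) (y : Fin r) => v (J' (a.succAbove x)) (I y)).det *
      v (J' a) i = (-1) ^ (a : ℕ) * v (J' a) i *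
        (Matrix.of fun (x : Fin r) (y : Fin r) => v (J' (a.succAbove x)) (I y)).det
    ring
  refine ⟨fun j => ∑ a, if J' a = j then c a else 0, ?_, ?_, ?_⟩
  · intro h0
    have h1 := congrFun h0 j0
    change (∑ a, if J' a = j0 then c a else 0) = 0 at h1
    rw [Finset.sum_eq_single 0] at h1
    · rw [if_pos hJ'0] at h1
      exact hc0 h1
    · intro a _ ha
      rw [if_neg]
      intro h2
      exact ha (hJ'inj (h2.trans hJ'0.symm))
    · intro h2
      exact absurd (mem_univ _) h2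
  · intro j
    change |∑ a, if J' a = j then c a else 0| ≤ _
    by_cases hj : ∃ a, J' a = j
    · obtain ⟨a0, rfl⟩ := hj
      rw [Finset.sum_eq_single a0]
      · rw [if_pos rfl]
        exact hcb a0
      · intro a _ ha
        rw [if_neg]
        intro h2
        exact ha (hJ'inj h2)
      · intro h2
        exact absurd (mem_univ _) h2
    · push Not at hj
      rw [Finset.sum_eq_zero fun a _ => if_neg (hj a), abs_zero]
      positivity
  · intro i
    change ∑ j, (∑ a, if J' a = j then c a else 0) * v j i = 0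
    simp_rw [Finset.sum_mul, ite_mul, zero_mul]
    refine Finset.sum_comm.trans (Eq.trans ?_ (hrel i))
    refine sum_congr rfl fun a _ => ?_
    rw [Finset.sum_ite_eq, if_pos (mem_univ _)]

end Pool.Agent.H723.QP
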