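import Pool.Agent.H723.QP.Base
import Pool.Agent.H723.QP.U1
import Pool.Agent.H723.QP.U2

/-! Dependent windows of digits give a good approximation with few powers, uniformly in the
base. -/

set_option autoImplicit false

open Finset Polynomial

namespace Pool.Agent.H723.QP

open Pool.Agent.H648R2.S

/-! ### The sparse polynomial with given exponents and coefficients -/

namespace W2

noncomputable def sp {D : ℕ} (t : Fin D → ℕ) (lam : Fin D → ℤ) : ℤ[X] :=
  ∑ j, C (lam j) * X ^ (t j)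

theorem sp_coeff {D : ℕ} (t : Fin D → ℕ) (lam : Fin D → ℤ) (i : ℕ) :
    (sp t lam).coeff i = ∑ j, if i = t j then lam j else 0 := by
  unfold sp
  rw [finsetSum_coeff]
  apply Finset.sum_congr rfl
  intro j _
  rw [coeff_C_mul_X_pow]

theorem sp_coeff_self {D : ℕ} (t : Fin D → ℕ) (ht : Function.Injective t) (lam : Fin D → ℤ)
    (j : Fin D) : (sp t lam).coeff (t j) = lam j := by
  rw [sp_coeff, Finset.sum_eq_single j]
  · simp
  · intro k _ hk
    rw [if_neg (fun h => hk (ht h).symm)]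
  · intro h; exact absurd (Finset.mem_univ _) h

theorem sp_supp {D : ℕ} (t : Fin D → ℕ) (lam : Fin D → ℤ) :
    (sp t lam).support ⊆ Finset.univ.image t := by
  intro i hi
  rw [mem_support_iff, sp_coeff] at hi
  by_contra hcon
  apply hi
  apply Finset.sum_eq_zero
  intro j _
  rw [if_neg]
  rintro rfl
  exact hcon (Finset.mem_image_of_mem _ (Finset.mem_univ _))

theorem sp_supp_card {D : ℕ} (t : Fin D → ℕ) (lam : Fin D → ℤ) :
    (sp t lam).support.card ≤ D := by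
  refine (Finset.card_le_card (sp_supp t lam)).trans ?_
  refine Finset.card_image_le.trans ?_
  simp

theorem sp_natDegree {D : ℕ} (t : Fin D → ℕ) (lam : Fin D → ℤ) (N : ℕ) (hN : ∀ j, t j ≤ N) :
    (sp t lam).natDegree ≤ N := by
  by_cases h0 : sp t lam = 0
  · rw [h0]; simp
  · have h1 := sp_supp t lam (natDegree_mem_support_of_nonzero h0)
    obtain ⟨j, _, hj⟩ := Finset.mem_image.1 h1
    rw [← hj]; exact hN j

theorem sp_act {D : ℕ} (t : Fin D → ℕ) (lam : Fin D → ℤ) (c : ℕ → ℤ) (n : ℕ) :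
    act (sp t lam) c n = ∑ j, lam j * c (n + t j) := by
  unfold act sp
  rw [map_sum, LinearMap.sum_apply, Finset.sum_apply]
  apply Finset.sum_congr rfl
  intro j _
  rw [map_mul, aeval_C, map_pow, aeval_X, Module.End.mul_apply]
  simp [E_pow]

/-- a dependence over the real numbers between integer vectors gives one over the integers -/
theorem int_dep {D m : ℕ} (v : Fin D → Fin m → ℤ)
    (h : ¬ LinearIndependent ℝ (fun (j : Fin D) (i : Fin m) => (v j i : ℝ))) :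
    ∃ g : Fin D → ℤ, g ≠ 0 ∧ ∀ i, ∑ j, g j * v j i = 0 := by
  have hdep : ¬ LinearIndependent ℚ (fun (j : Fin D) (i : Fin m) => (v j i : ℚ)) := by
    intro h1
    apply h
    rw [Fintype.linearIndependent_iff] at h1 ⊢
    intro g hg j
    rw [← Module.forall_dual_apply_eq_zero_iff ℚ (g j)]
    intro φ
    refine h1 (fun j => φ (g j)) ?_ j
    funext i
    have h2 := congrFun hg i
    rw [Finset.sum_apply] at h2
    rw [Finset.sum_apply]
    have h3 : φ (∑ j, (g j • fun (i : Fin m) => (v j i : ℝ)) i) = 0 := by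
      rw [h2]; simp
    rw [map_sum] at h3
    rw [Pi.zero_apply, ← h3]
    apply Finset.sum_congr rfl
    intro k _
    simp only [Pi.smul_apply, smul_eq_mul]
    have h4 : g k * (v k i : ℝ) = v k i • g k := by
      rw [zsmul_eq_mul]; ring
    rw [h4, map_zsmul, zsmul_eq_mul]
    ring
  rw [← LinearIndependent.iff_fractionRing (R := ℤ), Fintype.not_linearIndependent_iff] at hdep
  obtain ⟨g, hg, j0, hj0⟩ := hdep
  refine ⟨g, fun h => hj0 (by rw [h]; rfl), ?_⟩
  intro i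
  have h1 := congrFun hg i
  rw [Finset.sum_apply] at h1
  have h2 : ∑ j, (g j : ℚ) * (v j i : ℚ) = 0 := by
    rw [← h1.trans (Pi.zero_apply i)]
    apply Finset.sum_congr rfl
    intro j _
    rw [Pi.smul_apply, zsmul_eq_mul]
  exact_mod_cast h2

/-- from dependent windows to a polynomial in the shift -/
theorem poly_of_depR {b : ℕ} (hb : 2 ≤ b) (ξ : ℝ) (D : ℕ) (C : ℝ) (hC : 0 ≤ C) (m : ℕ)
    (h : DepR b ξ D C m) :
    ∃ P : ℤ[X], P ≠ 0 ∧ P.support.card ≤ D ∧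
      (∀ i, |P.coeff i| ≤ ((b ^ (D.factorial + D) : ℕ) : ℤ)) ∧ (P.natDegree : ℝ) ≤ C * m ∧
      ∀ n, 1 ≤ n → n ≤ m → act P (dg b ξ) n = 0 := by
  obtain ⟨D1, hD1, t, ht, htC, hdep⟩ := h
  have hex := int_dep (fun (j : Fin D1) (i : Fin m) => dg b ξ (t j + i + 1)) hdep
  obtain ⟨g', hg'0, hg'H, hg'⟩ := urel D1 b (by omega) m
    (fun j i => dg b ξ (t j + i + 1)) (fun j i => dg_abs hb ξ _) hex
  have hbnd : D1.factorial * b ^ D1 ≤ b ^ (D.factorial + D) := by
    rw [pow_add]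
    refine Nat.mul_le_mul ?_ (Nat.pow_le_pow_right (by omega) hD1)
    exact (Nat.factorial_le hD1).trans (Nat.lt_pow_self (by omega : 1 < b)).le
  have hbndZ : (((D1.factorial * b ^ D1 : ℕ) : ℕ) : ℤ) ≤ ((b ^ (D.factorial + D) : ℕ) : ℤ) := by
    exact_mod_cast hbnd
  refine ⟨sp t g', ?_, (sp_supp_card t g').trans hD1, ?_, ?_, ?_⟩
  · intro h0
    apply hg'0
    funext j
    rw [← sp_coeff_self t ht g' j, h0]; simp
  · intro i
    by_cases hi : i ∈ (sp t g').support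
    · obtain ⟨j, _, rfl⟩ := Finset.mem_image.1 (sp_supp t g' hi)
      rw [sp_coeff_self t ht]; exact (hg'H j).trans hbndZ
    · rw [notMem_support_iff.1 hi, abs_zero]; positivity
  · have h1 : (sp t g').natDegree ≤ ⌊C * m⌋₊ :=
      sp_natDegree t g' _ (fun j => Nat.le_floor (htC j))
    have h2 : (⌊C * m⌋₊ : ℝ) ≤ C * m := Nat.floor_le (by positivity)
    have h3 : ((sp t g').natDegree : ℝ) ≤ ⌊C * m⌋₊ := by exact_mod_cast h1
    linarith
  intro n hn1 hn2
  rw [sp_act]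
  have h1 := hg' ⟨n - 1, by omega⟩
  rw [← h1]
  apply Finset.sum_congr rfl
  intro j _
  congr 2
  simp only
  omega

/-- the tail of the expansion at the position `L`, multiplied by the polynomial, is small -/
theorem tail_small {b : ℕ} (hb : 2 ≤ b) (ξ : ℝ) (D' h : ℕ) (Q : ℤ[X])
    (hQD : Q.support.card ≤ D') (hQH : ∀ i, |Q.coeff i| ≤ ((b ^ h : ℕ) : ℤ)) (L N : ℕ)
    (hLN : L ≤ N) (hQ : ∀ n, 1 ≤ n → n ≤ N → act Q (dg b ξ) n = 0) :
    |act Q (fun n => Int.fract (ξ * (b : ℝ) ^ n)) L| * (b : ℝ) ^ (N - L) ≤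
      (b : ℝ) ^ (D' + h) := by
  have hbR : (2 : ℝ) ≤ b := by exact_mod_cast hb
  have hb0 : (0 : ℝ) < b := by linarith
  obtain ⟨x, hxdef⟩ : ∃ x : ℕ → ℝ, x = fun n => Int.fract (ξ * (b : ℝ) ^ n) := ⟨_, rfl⟩
  have hrec : ∀ n, (b : ℝ) * x n = dg b ξ (n + 1) + x (n + 1) := by
    intro n; rw [hxdef]; exact dg_rec hb ξ n
  have hx : ∀ n, |x n| ≤ ((1 : ℕ) : ℝ) := by
    intro n
    rw [hxdef, Nat.cast_one]
    change |Int.fract (ξ * (b : ℝ) ^ n)| ≤ 1
    rw [abs_of_nonneg (Int.fract_nonneg _)]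
    exact (Int.fract_lt_one _).le
  rw [← hxdef]
  have hrec' : ∀ n, (b : ℝ) * act Q x n =
      ((act Q (dg b ξ) (n + 1) : ℤ) : ℝ) + act Q x (n + 1) := by
    intro n
    have h1 : (b : ℤ) • x = (fun k => ((dg b ξ (k + 1) : ℤ) : ℝ)) + fun k => x (k + 1) := by
      funext k
      simp only [Pi.smul_apply, Pi.add_apply, zsmul_eq_mul]
      push_cast
      exact hrec k
    have h2 := congrFun (congrArg (act Q) h1) n
    rw [act_zsmul, act_add, Pi.smul_apply, Pi.add_apply, zsmul_eq_mul,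
      act_E Q (fun k => ((dg b ξ k : ℤ) : ℝ)) n, act_E, act_cast] at h2
    push_cast at h2
    exact h2
  have hup : ∀ j, L + j ≤ N → (b : ℝ) ^ j * act Q x L = act Q x (L + j) := by
    intro j
    induction j with
    | zero => intro _; simp
    | succ j ih =>
      intro hj
      have h1 := ih (by omega)
      have h2 := hrec' (L + j)
      rw [hQ (L + j + 1) (by omega) (by omega)] at h2
      rw [pow_succ', mul_assoc, h1, h2]
      simp [add_assoc]
  have h1 := hup (N - L) (by omega)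
  have h2 := abs_act_le Q x D' (b ^ h) 1 hQD hQH hx (L + (N - L))
  rw [← h1, abs_mul, abs_of_pos (by positivity : (0 : ℝ) < (b : ℝ) ^ (N - L))] at h2
  rw [mul_comm]
  refine h2.trans ?_
  have h3 : D' * b ^ h * 1 ≤ b ^ (D' + h) := by
    rw [mul_one, pow_add]
    exact Nat.mul_le_mul_right _ (Nat.lt_pow_self (by omega : 1 < b)).le
  exact_mod_cast h3

/-- the value of the polynomial at the base gives the approximation -/
theorem value_approx {b : ℕ} (ξ : ℝ) (Q : ℤ[X]) (L : ℕ) :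
    ∃ P : ℤ, ξ * ((b : ℝ) ^ L * ((Q.eval (b : ℤ) : ℤ) : ℝ)) - P =
      act Q (fun n => Int.fract (ξ * (b : ℝ) ^ n)) L := by
  refine ⟨act Q (fun n => ⌊ξ * (b : ℝ) ^ n⌋) L, ?_⟩
  have h1 : (fun n => ξ * (b : ℝ) ^ n) = (fun n => Int.fract (ξ * (b : ℝ) ^ n)) +
      fun n => ((⌊ξ * (b : ℝ) ^ n⌋ : ℤ) : ℝ) := by
    funext n
    simp only [Pi.add_apply]
    exact (Int.fract_add_floor _).symm
  have h2 := congrFun (congrArg (act Q) h1) L
  rw [act_add, Pi.add_apply, act_cast Q (fun n => ⌊ξ * (b : ℝ) ^ n⌋) L] at h2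
  have h2' : act Q (fun n => ξ * (b : ℝ) ^ n) L =
      ξ * ((b : ℝ) ^ L * ((Q.eval (b : ℤ) : ℤ) : ℝ)) := by
    rw [act_eq, eval_eq_sum, Polynomial.sum_def]
    push_cast
    rw [Finset.mul_sum, Finset.mul_sum]
    apply Finset.sum_congr rfl
    intro i _
    rw [zsmul_eq_mul, pow_add]; ring
  rw [h2'] at h2
  linarith

end W2

open W2 in
/-- Dependent windows of digits give an approximation with few powers, uniformly in the base. -/
theorem ex_of_depR (D : ℕ) : ∃ D' : ℕ, ∀ ε : ℝ, 0 < ε → ∃ M0 : ℕ, ∀ b : ℕ, 2 ≤ b →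
    ∀ ξ C : ℝ, 1 ≤ C → ∀ m : ℕ, M0 ≤ m → DepR b ξ D C m →
      ∃ s, s ≤ D' ∧ Ex b ξ s (1 / 2) ε (4 * C) (m / 2) := by
  obtain ⟨h, hh⟩ : ∃ h : ℕ, h = D.factorial + D := ⟨_, rfl⟩
  obtain ⟨D', K, helim⟩ := uelim D h
  refine ⟨D', ?_⟩
  intro ε hε
  obtain ⟨M1, hM1⟩ : ∃ M1 : ℕ, (h : ℝ) / ε ≤ M1 := exists_nat_ge _
  refine ⟨2 * (2 * (D' + h + K) + 2 + M1), ?_⟩
  intro b hb ξ C hC m hm hdep
  have hbR : (2 : ℝ) ≤ b := by exact_mod_cast hb
  have hb0 : (0 : ℝ) < b := by linarith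
  have hb0Z : (b : ℤ) ≠ 0 := by omega
  have hlogb : 0 < Real.log b := Real.log_pos (by linarith)
  have hpow : ∀ n : ℕ, (b : ℝ) ^ n = Real.exp ((n : ℝ) * Real.log b) := by
    intro n
    rw [← Real.rpow_natCast, Real.rpow_def_of_pos hb0, mul_comm]
  obtain ⟨P, hP0, hPD, hPH, hPdeg, hP⟩ := poly_of_depR hb ξ D C (by linarith) m hdep
  rw [← hh] at hPH
  obtain ⟨Q, hQD, hQH, hQdeg, hev, hQ⟩ := helim b hb (dg b ξ) (fun n => dg_abs hb ξ n) m P
    hP0 hPD hPH hP
  obtain ⟨L, hL⟩ : ∃ L : ℕ, L = m / 2 := ⟨_, rfl⟩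
  rw [← hL]
  have hLm : 2 * L ≤ m := by omega
  have hLm' : m ≤ 2 * L + 1 := by omega
  have hL1 : 1 ≤ L := by omega
  have hL1R : (1 : ℝ) ≤ L := by exact_mod_cast hL1
  have hLK : L ≤ m - K := by omega
  have hsmall := tail_small hb ξ D' h Q hQD hQH L (m - K) hLK hQ
  obtain ⟨R, hR⟩ := value_approx (b := b) ξ Q L
  -- the indexing of the terms
  obtain ⟨s, hs⟩ : ∃ s : ℕ, Q.support.card = s := ⟨_, rfl⟩
  let f : Fin s ≃ Q.support := (Q.support.equivFinOfCardEq hs).symm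
  have hsum : ∀ g : ℕ → ℤ, ∑ j : Fin s, g (f j : ℕ) = ∑ i ∈ Q.support, g i := by
    intro g
    rw [← Finset.sum_coe_sort Q.support g]
    exact Equiv.sum_comp f (fun i : Q.support => g (i : ℕ))
  have hfdeg : ∀ j, (f j : ℕ) ≤ Q.natDegree := by
    intro j
    exact le_natDegree_of_mem_supp _ (f j).2
  have hval : ∑ j : Fin s, Q.coeff (f j) * (b : ℤ) ^ (L + (f j : ℕ)) =
      (b : ℤ) ^ L * Q.eval (b : ℤ) := by
    rw [hsum (fun i => Q.coeff i * (b : ℤ) ^ (L + i)), eval_eq_sum, Polynomial.sum_def,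
      Finset.mul_sum]
    apply Finset.sum_congr rfl
    intro i _
    rw [pow_add]; ring
  have hvalR : ∑ j : Fin s, (Q.coeff (f j) : ℝ) * (b : ℝ) ^ (L + (f j : ℕ)) =
      (b : ℝ) ^ L * ((Q.eval (b : ℤ) : ℤ) : ℝ) := by
    exact_mod_cast congrArg (Int.cast (R := ℝ)) hval
  refine ⟨s, hs ▸ hQD, fun j => L + (f j : ℕ), fun j => Nat.le_add_right _ _, ?_,
    fun j => Q.coeff (f j), ?_, ?_, R, ?_⟩
  · intro j
    push_cast
    have h1 : ((f j : ℕ) : ℝ) ≤ Q.natDegree := by exact_mod_cast hfdeg j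
    have h2 : (Q.natDegree : ℝ) ≤ P.natDegree := by exact_mod_cast hQdeg
    have h3 : (m : ℝ) ≤ 2 * L + 1 := by exact_mod_cast hLm'
    have h4 : C * (m : ℝ) ≤ C * (3 * L) :=
      mul_le_mul_of_nonneg_left (by linarith) (by linarith)
    have h5 : (L : ℝ) ≤ C * L := le_mul_of_one_le_left (by linarith) hC
    linarith
  · intro j
    have h1 : |(Q.coeff (f j) : ℝ)| ≤ (b : ℝ) ^ h := by exact_mod_cast hQH (f j)
    refine h1.trans ?_
    rw [hpow]
    apply Real.exp_le_exp.mpr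
    have h2 : (M1 : ℝ) ≤ L := by
      have : M1 ≤ L := by omega
      exact_mod_cast this
    have h3 : (h : ℝ) ≤ L * ε := by
      rw [div_le_iff₀ hε] at hM1
      exact hM1.trans (mul_le_mul_of_nonneg_right h2 hε.le)
    have h4 := mul_le_mul_of_nonneg_right h3 hlogb.le
    linarith
  · rw [hval]
    exact mul_ne_zero (pow_ne_zero _ hb0Z) hev
  · rw [hvalR, hR]
    have h6 : |act Q (fun n => Int.fract (ξ * (b : ℝ) ^ n)) L| ≤
        Real.exp (((D' + h : ℕ) : ℝ) * Real.log b) *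
        Real.exp (-(((m - K - L : ℕ) : ℝ) * Real.log b)) := by
      rw [Real.exp_neg, ← hpow, ← hpow, ← div_eq_mul_inv, le_div_iff₀ (by positivity)]
      exact hsmall
    refine h6.trans ?_
    rw [← Real.exp_add]
    apply Real.exp_le_exp.mpr
    have h9 : 2 * (D' + h) + L ≤ 2 * (m - K - L) := by omega
    have h10 : (2 : ℝ) * ((D' + h : ℕ) : ℝ) + L ≤ 2 * ((m - K - L : ℕ) : ℝ) := by
      exact_mod_cast h9
    have h11 := mul_le_mul_of_nonneg_right h10 hlogb.le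
    linarith

end Pool.Agent.H723.QP
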