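import Pool.Agent.H723.QP.Base
import Pool.Agent.H723.LZ.Parse

set_option autoImplicit false

open Finset

namespace Pool.Agent.H723.QP

open Pool.Agent.H723.LZ

/-- among `Q` consecutive pieces of length `m` one is free of a set of less than `Q` places -/
theorem free_piece (Q m s₀ : ℕ) (B : Finset ℕ) (hB : #B < Q) :
    ∃ a < Q, ∀ i < m, s₀ + a * m + i ∉ B := by
  classical
  by_contra hno
  push Not at hno
  have hno' : ∀ a : Fin Q, ∃ i < m, s₀ + a.1 * m + i ∈ B := fun a => hno a.1 a.2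
  choose f hf1 hf2 using hno'
  have hinj : Function.Injective (fun a : Fin Q => (⟨s₀ + a.1 * m + f a, hf2 a⟩ : B)) := by
    intro a a' h
    have h1 : s₀ + a.1 * m + f a = s₀ + a'.1 * m + f a' := congrArg Subtype.val h
    apply Fin.ext
    have hm : 0 < m := lt_of_le_of_lt (Nat.zero_le _) (hf1 a)
    have h2 : (a.1 * m + f a) / m = (a'.1 * m + f a') / m := by
      congr 1
      omega
    rw [Nat.mul_comm, Nat.mul_add_div (by omega), Nat.div_eq_of_lt (hf1 a), Nat.mul_comm a'.1,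
      Nat.mul_add_div (by omega), Nat.div_eq_of_lt (hf1 a')] at h2
    omega
  have h3 := Fintype.card_le_of_injective _ hinj
  rw [Fintype.card_fin, Fintype.card_coe] at h3
  omega

/-- the common part: a place `t₀` where all windows with shifts in `T` are free of errors -/
theorem loc_common (b : ℕ) (ξ : ℝ) (k E ρ j : ℕ) (hj : ρ + 1 ≤ j)
    (hQj : k * E + 1 ≤ 2 ^ (j - ρ - 1)) (s : ℕ) (hs : s + 2 ^ (j - ρ) ≤ 2 ^ (j + 1)) (v : ℕ → ℝ)
    (T : Finset ℕ) (hT : #T ≤ k) (hTs : ∀ d ∈ T, d ≤ s)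
    (hE : #{t ∈ Finset.Ico (2 ^ (j - ρ - 1)) (2 ^ (j + 1)) | v t ≠ (dg b ξ (t + 1) : ℝ)} ≤ E) :
    ∃ t₀ : ℕ, s + 2 ^ (j - ρ - 1) ≤ t₀ ∧
      t₀ + 2 ^ (j - ρ - 1) / (k * E + 1) ≤ s + 2 ^ (j - ρ) ∧
      t₀ ≤ 2 ^ (ρ + 3) * (k * E + 1) * (2 ^ (j - ρ - 1) / (k * E + 1)) ∧
      ∀ i < 2 ^ (j - ρ - 1) / (k * E + 1), ∀ d ∈ T,
        v (t₀ + i - d) = (dg b ξ (t₀ + i - d + 1) : ℝ) := by
  classical
  set Q := k * E + 1 with hQ
  obtain ⟨l, rfl⟩ : ∃ l, j = ρ + 1 + l := ⟨j - (ρ + 1), by omega⟩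
  have e1 : ρ + 1 + l - ρ = l + 1 := by omega
  have e2 : ρ + 1 + l - ρ - 1 = l := by omega
  rw [e1] at hs
  rw [e2] at hE hQj
  rw [e2, e1]
  set L := 2 ^ l with hL
  have hL2 : 2 ^ (l + 1) = 2 * L := by rw [hL, pow_succ]; ring
  have hLj : 2 ^ (ρ + 1 + l + 1) = 2 ^ (ρ + 2) * L := by rw [hL, ← pow_add]; congr 1; omega
  rw [hL2] at hs ⊢
  rw [hLj] at hs hE
  have hQ0 : 0 < Q := by omega
  set m := L / Q with hm
  have hm1 : 1 ≤ m := by
    rw [hm, Nat.le_div_iff_mul_le hQ0, one_mul]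
    exact hQj
  have hQm : Q * m ≤ L := Nat.mul_div_le L Q
  have hLm : L < Q * (m + 1) := Nat.lt_mul_div_succ L hQ0
  set Er := (Finset.Ico L (2 ^ (ρ + 2) * L)).filter (fun t => v t ≠ (dg b ξ (t + 1) : ℝ)) with hEr
  set Bd : Finset ℕ := Er.biUnion (fun x => T.image fun d => x + d) with hBd
  have hBdc : Bd.card < Q := by
    have h1 : Bd.card ≤ ∑ x ∈ Er, (T.image fun d => x + d).card := Finset.card_biUnion_le
    have h2 : ∀ x ∈ Er, (T.image fun d => x + d).card ≤ k := by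
      intro x _
      exact (Finset.card_image_le (s := T) (f := fun d => x + d)).trans hT
    have h3 := Finset.sum_le_sum h2
    rw [Finset.sum_const, smul_eq_mul] at h3
    have h4 : Er.card * k ≤ k * E := by
      rw [Nat.mul_comm]
      exact Nat.mul_le_mul_left _ hE
    omega
  obtain ⟨a, haQ, ha⟩ := free_piece Q m (s + L) Bd hBdc
  have ham : a * m + m ≤ L := by
    have : (a + 1) * m ≤ Q * m := Nat.mul_le_mul_right _ haQ
    rw [Nat.add_mul, one_mul] at this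
    omega
  refine ⟨s + L + a * m, by omega, by omega, ?_, ?_⟩
  · have h2 : s + L + a * m ≤ 2 ^ (ρ + 2) * L := by omega
    have h3 : L ≤ 2 * (Q * m) := by
      have h4 : Q * (m + 1) ≤ Q * (2 * m) := Nat.mul_le_mul_left _ (by omega)
      calc L ≤ Q * (m + 1) := hLm.le
        _ ≤ Q * (2 * m) := h4
        _ = 2 * (Q * m) := by ring
    calc s + L + a * m ≤ 2 ^ (ρ + 2) * L := h2
      _ ≤ 2 ^ (ρ + 2) * (2 * (Q * m)) := Nat.mul_le_mul_left _ h3
      _ = 2 ^ (ρ + 3) * Q * m := by rw [pow_succ 2 (ρ + 2)]; ring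
  · intro i hi d hd
    by_contra h
    apply ha i hi
    have h2 := hTs d hd
    rw [hBd, Finset.mem_biUnion]
    exact ⟨s + L + a * m + i - d, Finset.mem_filter.2 ⟨Finset.mem_Ico.2 ⟨by omega, by omega⟩, h⟩,
      Finset.mem_image.2 ⟨d, hd, by omega⟩⟩

theorem loc0 (b : ℕ) (ξ : ℝ) : Loc b ξ 1 (Dep0 b ξ) Cp0 := by
  intro E ρ j hj hQj hM s hs1 hs v hcopy
  by_contra hcon
  push Not at hcon
  obtain ⟨a, ha⟩ := hcopy
  obtain ⟨t₀, h1, h2, h3, h4⟩ := loc_common b ξ 1 E ρ j hj hQj s hs v {0} (by simp)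
    (by simp) hcon
  apply hM
  refine ⟨t₀, by exact_mod_cast h3, a, ?_⟩
  intro i hi
  have h5 := h4 i hi 0 (Finset.mem_singleton_self 0)
  rw [Nat.sub_zero] at h5
  rw [← h5]
  exact ha _ (by omega) (by omega)

theorem loc1 (b : ℕ) (ξ : ℝ) : Loc b ξ 2 (Dep1 b ξ) Cp1 := by
  classical
  intro E ρ j hj hQj hM s hs1 hs v hcopy
  by_contra hcon
  push Not at hcon
  obtain ⟨d, a, c, hd1, hds, hv⟩ := hcopy
  obtain ⟨t₀, h1, h2, h3, h4⟩ := loc_common b ξ 2 E ρ j hj hQj s hs v {0, d}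
    Finset.card_le_two (by
      intro x hx
      rcases Finset.mem_insert.1 hx with rfl | hx
      · omega
      · rw [Finset.mem_singleton] at hx
        omega) hcon
  apply hM
  refine ⟨t₀, d, hd1, by omega, by exact_mod_cast h3, a, c, ?_⟩
  intro i hi
  have h5 := h4 i hi 0 (Finset.mem_insert_self _ _)
  have h6 := h4 i hi d (Finset.mem_insert_of_mem (Finset.mem_singleton_self d))
  rw [Nat.sub_zero] at h5
  rw [← h5, hv _ (by omega) (by omega), h6, show t₀ + i - d = t₀ - d + i by omega]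

theorem locR (b : ℕ) (ξ : ℝ) (D : ℕ) : Loc b ξ (D + 1) (DepR b ξ (D + 1)) (LinCopy D) := by
  classical
  intro E ρ j hj hQj hM s hs1 hs v hcopy
  by_contra hcon
  push Not at hcon
  obtain ⟨S, c, hSD, hd, hv⟩ := hcopy
  obtain ⟨t₀, h1, h2, h3, h4⟩ := loc_common b ξ (D + 1) E ρ j hj hQj s hs v (insert 0 S)
    ((Finset.card_insert_le _ _).trans (by omega)) (by
      intro x hx
      rcases Finset.mem_insert.1 hx with rfl | hx
      · omega
      · exact (hd x hx).2) hcon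
  set m := 2 ^ (j - ρ - 1) / ((D + 1) * E + 1) with hm
  set Q := (D + 1) * E + 1 with hQ
  -- the dependence
  set T : Finset ℕ := insert t₀ (S.image fun d => t₀ - d) with hT
  have hTc : T.card ≤ D + 1 := by
    refine (Finset.card_insert_le _ _).trans ?_
    have := Finset.card_image_le (s := S) (f := fun d => t₀ - d)
    omega
  have hTle : ∀ x ∈ T, x ≤ t₀ := by
    intro x hx
    rcases Finset.mem_insert.1 hx with rfl | hx
    · exact le_refl _
    · obtain ⟨i, -, rfl⟩ := Finset.mem_image.1 hx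
      omega
  have hpos : ∀ x ∈ T, x ≤ 2 ^ (ρ + 3) * Q * m := fun x hx => (hTle x hx).trans h3
  have hind : LinearIndependent ℝ (fun (j : Fin T.card) (i : Fin m) =>
      (dg b ξ (T.orderEmbOfFin rfl j + i + 1) : ℝ)) := by
    by_contra hdep
    apply hM
    refine ⟨T.card, hTc, fun j => T.orderEmbOfFin rfl j, (T.orderEmbOfFin rfl).injective, ?_, hdep⟩
    intro j
    exact_mod_cast hpos _ (T.orderEmbOfFin_mem rfl j)
  rw [linearIndependent_iff_notMem_span] at hind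
  have hidx : ∀ x ∈ T, ∃ j, T.orderEmbOfFin rfl j = x := by
    intro x hx
    have : x ∈ Set.range (T.orderEmbOfFin rfl) := by
      rw [Finset.range_orderEmbOfFin]
      exact hx
    exact this
  obtain ⟨j₀, hj₀⟩ := hidx t₀ (Finset.mem_insert_self _ _)
  apply hind j₀
  simp only [hj₀]
  have hwin : (fun i : Fin m => (dg b ξ (t₀ + i + 1) : ℝ)) =
      ∑ l ∈ S, c l • (fun i : Fin m => (dg b ξ (t₀ - l + i + 1) : ℝ)) := by
    funext i
    rw [Finset.sum_apply]
    have h5 := h4 i i.2 0 (Finset.mem_insert_self _ _)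
    have hi := i.2
    rw [Nat.sub_zero] at h5
    rw [← h5, hv _ (by omega) (by omega)]
    apply Finset.sum_congr rfl
    intro l hl
    simp only [Pi.smul_apply, smul_eq_mul]
    have h6 := h4 i i.2 l (Finset.mem_insert_of_mem hl)
    have h7 := (hd l hl).2
    rw [h6, show t₀ + (i : ℕ) - l = t₀ - l + i by omega]
  rw [hwin]
  apply Submodule.sum_mem
  intro l hl
  apply Submodule.smul_mem
  apply Submodule.subset_span
  obtain ⟨j, hj⟩ := hidx (t₀ - l)
    (Finset.mem_insert_of_mem (Finset.mem_image.2 ⟨l, hl, rfl⟩))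
  refine ⟨j, ⟨Set.mem_univ _, ?_⟩, ?_⟩
  · intro h
    rw [Set.mem_singleton_iff] at h
    rw [h, hj₀] at hj
    have h1 := (hd l hl).1
    have h2 := (hd l hl).2
    omega
  · simp only [hj]

end Pool.Agent.H723.QP
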