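import Pool.Agent.H723.QP.Base
import Pool.Agent.H723.LZ.Parse

set_option autoImplicit false

open Finset

namespace Pool.Agent.H723.QP

open Pool.Agent.H723.LZ

/-- the breakpoints of a parsing, for a predicate that is implied by the copies -/
theorem brk_of {D : ℕ} {Cp : (ℕ → ℝ) → ℕ → ℕ → Prop} {v : ℕ → ℝ}
    (hCp : ∀ N M, IsCopy D v N M → ∀ s e, 1 ≤ s → N ≤ s → e ≤ M → Cp v s e)
    {N z : ℕ} (h : Produces D v N z) : Brk Cp v N z := by
  classical
  induction h with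
  | nil =>
    exact ⟨∅, by simp, fun s e h1 h2 h3 _ => by omega⟩
  | @letter N z _ ih =>
    obtain ⟨B, hB, h⟩ := ih
    refine ⟨insert N B, (Finset.card_insert_le _ _).trans (by omega), ?_⟩
    intro s e h0 h1 h2 h3
    rcases Nat.lt_or_ge N e with h4 | h4
    · have := h3 N (Finset.mem_insert_self _ _)
      omega
    · exact h s e h0 h1 h4 (fun x hx => h3 x (Finset.mem_insert_of_mem hx))
  | @copy N M z _ hNM hc ih =>
    obtain ⟨B, hB, h⟩ := ih
    refine ⟨insert N B, (Finset.card_insert_le _ _).trans (by omega), ?_⟩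
    intro s e h0 h1 h2 h3
    rcases Nat.lt_or_ge N e with h4 | h4
    · have h5 := h3 N (Finset.mem_insert_self _ _)
      exact hCp N M hc s e h0 (by omega) h2
    · exact h s e h0 h1 h4 (fun x hx => h3 x (Finset.mem_insert_of_mem hx))

theorem brk0 {v : ℕ → ℝ} {N z : ℕ} (h : Produces 0 v N z) : Brk Cp0 v N z := by
  refine brk_of ?_ h
  rintro N M ⟨S, a, c, hS, -, hv⟩ s e - h1 h2
  have hS0 : S = ∅ := Finset.card_eq_zero.1 (Nat.le_zero.1 hS)
  subst hS0
  refine ⟨a, fun t ht1 ht2 => ?_⟩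
  rw [hv t (by omega) (by omega), Finset.sum_empty, add_zero]

theorem brk1 {v : ℕ → ℝ} {N z : ℕ} (h : Produces 1 v N z) : Brk Cp1 v N z := by
  refine brk_of ?_ h
  rintro N M ⟨S, a, c, hS, hd, hv⟩ s e h0 h1 h2
  rcases S.eq_empty_or_nonempty with hS0 | hS0
  · subst hS0
    refine ⟨1, a, 0, le_refl 1, h0, fun t ht1 ht2 => ?_⟩
    rw [hv t (by omega) (by omega), Finset.sum_empty, zero_mul]
  · obtain ⟨d, hd'⟩ := Finset.card_eq_one.1 (le_antisymm hS (Finset.card_pos.2 hS0))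
    subst hd'
    have h3 := hd d (Finset.mem_singleton_self d)
    refine ⟨d, a, c d, h3.1, h3.2.trans h1, fun t ht1 ht2 => ?_⟩
    rw [hv t (by omega) (by omega), Finset.sum_singleton]

theorem brkR {D : ℕ} {v : ℕ → ℝ} {N z : ℕ} (h : Produces D v N z) :
    Brk (LinCopy (2 * D + 1)) v N z := by
  obtain ⟨B, hB, h⟩ := h.breaks
  exact ⟨B, hB, fun s e _ h1 h2 h3 => h s e h1 h2 h3⟩

end Pool.Agent.H723.QP
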