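import Mathlib
import Pool.Agent.H723.QS.QAux
import Pool.Agent.H723.PT.Main

/-! Roth's lemma (coefficient form) with the new parameter. -/

set_option autoImplicit false

open Finset

namespace Pool.Agent.H723.QP

open Pool.Agent.H393R2 Pool.Agent.H393R2.RothNS Pool.Agent.H393R2.AuxNS Pool.Agent.H723.QS
open Pool.Agent.H723.PT

/-- Roth's lemma (coefficient form), explicit. -/
theorem roth_coef2 (m : ℕ) (σ : ℝ) (hσ : 0 < σ) (hσ1 : σ ≤ 1)
      (r : Fin m → ℕ) (R : ℝ) (hm : 0 < m) (hr : ∀ h, 0 < r h)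
      (hri : ∀ i j : Fin m, i < j → (r j : ℝ) ≤ om2 m σ * r i) (hrR : ∀ h, (r h : ℝ) ≤ om2 m σ * R)
      (p q : Fin m → ℤ) (hpq : ∀ h, IsCoprime (p h) (q h)) (hq : ∀ h, q h ≠ 0)
      (hlog : ∀ h, R ≤ r h * Real.log (max |(p h : ℝ)| |(q h : ℝ)|))
      (c : (Fin m → ℕ) → ℤ)
      (hc : ∃ a ∈ Fintype.piFinset (fun h => Finset.range (r h + 1)), c a ≠ 0)
      (hcb : ∀ a ∈ Fintype.piFinset (fun h => Finset.range (r h + 1)),
              |(c a : ℝ)| ≤ Real.exp (om2 m σ * R)) :
            ∃ k : Fin m → ℕ, (∑ h, (k h : ℝ) / (r h : ℝ) < σ) ∧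
              ∑ a ∈ Fintype.piFinset (fun h => Finset.range (r h + 1)),
                (c a : ℝ) * ∏ h, (((a h).choose (k h) : ℝ) *
                  ((p h : ℝ) / (q h : ℝ)) ^ (a h - k h)) ≠ 0 := by
  classical
  have hω : 0 < om2 m σ := om2_pos m σ hσ
  have H := rothE_pt m hm σ hσ hσ1
  have hR : 0 < R := by
    have h1 := hrR ⟨0, hm⟩
    have h2 : (0 : ℝ) < r ⟨0, hm⟩ := by exact_mod_cast hr _
    exact pos_of_mul_pos_right (h2.trans_le h1) hω.le
  set S := Fintype.piFinset (fun h => Finset.range (r h + 1)) with hS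
  let e : (Fin m → ℕ) → (Fin m →₀ ℕ) := fun a => Finsupp.equivFunOnFinite.symm (fun h => a h.rev)
  have he : ∀ a h, e a h = a h.rev := fun a h => by simp [e]
  have heinj : Function.Injective e := by
    intro a b hab
    funext h
    have := DFunLike.congr_fun hab h.rev
    rwa [he, he, Fin.rev_rev] at this
  let P : MvPolynomial (Fin m) ℤ := ∑ a ∈ S, MvPolynomial.monomial (e a) (c a)
  have hPc : ∀ a ∈ S, MvPolynomial.coeff (e a) P = c a := by
    intro a ha
    simp only [P]
    rw [MvPolynomial.coeff_sum]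
    rw [Finset.sum_eq_single a]
    · simp
    · intro b _ hb
      rw [MvPolynomial.coeff_monomial, if_neg]
      intro h; exact hb (heinj h)
    · intro h; exact absurd ha h
  have hPc0 : ∀ b, MvPolynomial.coeff b P ≠ 0 → ∃ a ∈ S, b = e a := by
    intro b hb
    simp only [P] at hb
    rw [MvPolynomial.coeff_sum] at hb
    obtain ⟨a, ha, hne⟩ := Finset.exists_ne_zero_of_sum_ne_zero hb
    rw [MvPolynomial.coeff_monomial] at hne
    by_cases h : e a = b
    · exact ⟨a, ha, h.symm⟩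
    · rw [if_neg h] at hne; exact absurd rfl hne
  have hP0 : P ≠ 0 := by
    obtain ⟨a, ha, hca⟩ := hc
    intro h
    apply hca
    rw [← hPc a ha, h, MvPolynomial.coeff_zero]
  obtain ⟨κ, hκwt, hκ⟩ := H (fun h => r h.rev) R hR (fun h => hr _)
    (fun i j hij => hri _ _ (Fin.rev_lt_rev.mpr hij)) (fun h => hrR _) (fun h => p h.rev)
    (fun h => q h.rev) (fun h => hpq _) (fun h => hq _) (fun h => hlog _) P hP0
    (by
      intro b hb h
      obtain ⟨a, ha, rfl⟩ := hPc0 b (MvPolynomial.mem_support_iff.mp hb)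
      rw [he]
      rw [hS, Fintype.mem_piFinset] at ha
      have := ha h.rev
      rw [Finset.mem_range] at this
      exact Nat.lt_succ_iff.mp this)
    (by
      intro b
      by_cases hb : MvPolynomial.coeff b P = 0
      · rw [hb]; simpa using (Real.exp_pos _).le
      · obtain ⟨a, ha, rfl⟩ := hPc0 b hb
        rw [hPc a ha]
        exact hcb a ha)
  refine ⟨fun h => κ h.rev, ?_, ?_⟩
  · have h1 : ∑ h : Fin m, ((κ h.rev : ℕ) : ℝ) / (r h : ℝ) = wt (fun h => r h.rev) κ := by
      rw [wt]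
      rw [← Equiv.sum_comp Fin.revPerm (fun h : Fin m => ((κ h : ℕ) : ℝ) / ((r h.rev : ℕ) : ℝ))]
      simp
    rw [h1]; exact hκwt
  · intro h0
    apply hκ
    have h1 : ((MvPolynomial.eval (fun h => (p (Fin.rev h) : ℚ) / q (Fin.rev h))
        (DD κ (MvPolynomial.map (Int.castRingHom ℚ) P)) : ℚ) : ℝ) = 0 := by
      rw [← h0]
      simp only [P]
      rw [map_sum, map_sum, map_sum]
      push_cast
      refine Finset.sum_congr rfl (fun a _ => ?_)
      rw [MvPolynomial.map_monomial, DD_monomial, MvPolynomial.eval_monomial]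
      rw [Finsupp.prod_fintype _ _ (fun _ => pow_zero _)]
      simp only [eq_intCast]
      push_cast
      have h2 : (ch (e a) κ : ℝ) = ∏ h : Fin m, (((a h).choose (κ h.rev) : ℕ) : ℝ) := by
        rw [ch]; push_cast
        rw [← Equiv.prod_comp Fin.revPerm (fun h : Fin m => (((a h).choose (κ h.rev) : ℕ) : ℝ))]
        refine Finset.prod_congr rfl (fun h _ => ?_)
        simp [he]
      have h3 : ∏ h : Fin m, (((p h.rev : ℤ) : ℝ) / ((q h.rev : ℤ) : ℝ)) ^ ((⇑(e a) - ⇑κ : Fin m → ℕ) h) =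
          ∏ h : Fin m, ((p h : ℝ) / (q h : ℝ)) ^ (a h - κ h.rev) := by
        rw [← Equiv.prod_comp Fin.revPerm (fun h : Fin m => ((p h : ℝ) / (q h : ℝ)) ^ (a h - κ h.rev))]
        refine Finset.prod_congr rfl (fun h _ => ?_)
        simp [he]
      rw [h3, h2, Finset.prod_mul_distrib]
      ring
    exact_mod_cast h1

end Pool.Agent.H723.QP
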