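import Pool.Graph.R_seed8.H393R2.Est

/-! The main estimate: the closeness parameter is separated from the index parameter. -/

set_option autoImplicit false

open Finset

namespace Pool.Agent.H723.QP

open Pool.Agent.H393R2

theorem est2 {m n : ℕ} (hm : 0 < m) (hn : 1 ≤ n) (r : Fin m → ℕ) (hr : ∀ h, 0 < r h)
    (Y j1 : Fin n) (ξ X : ℝ) (hX1 : 1 ≤ X) (hXξ : |ξ| ≤ X) (k : Fin m → ℕ)
    (c : (Fin m → Fin n → ℕ) → ℤ) (C : ℝ) (hC : 1 ≤ C)
    (hcC : ∀ a ∈ Dset m n r, |(c a : ℝ)| ≤ C ^ (∑ h, r h))
    (τ : ℝ) (hτ0 : 0 < τ) (hτ1 : τ ≤ 1) (δ : ℝ) (hδ0 : 0 < δ) (hδ1 : δ ≤ 1)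
    (hsupp : ∀ a ∈ Dset m n r, c a ≠ 0 → ∀ l : Fin n,
          ∑ h, (a h l : ℝ) / (r h : ℝ) ≤ (1 / (n : ℝ) + τ) * m)
    (hbad : ∀ J ∈ Dset m n r,
          (∃ l : Fin n, ∑ h, (J h l : ℝ) / (r h : ℝ) < (1 / (n : ℝ) - τ) * m) →
          dJ r Y ξ c J = 0)
    (hk : ∑ h, (k h : ℝ) / (r h : ℝ) < τ)
    (b : ℕ) (hb : 2 ≤ b) (e : Fin m → Fin n → ℕ) (A : Fin m → Fin n → ℝ)
    (hA : ∀ h l, 0 < A h l) (N : Fin m → ℝ) (Nm : ℝ) (hNm : 0 < Nm) (hN : ∀ h, Nm ≤ N h)
    (R0 : ℝ) (hR0 : 0 < R0)
    (hrN1 : ∀ h, (1 - τ) * R0 ≤ r h * N h) (hrN2 : ∀ h, r h * N h ≤ R0)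
    (α ε : Fin n → ℝ) (cc γ : ℝ) (hcc : 1 ≤ cc) (hα : ∀ l, |α l| ≤ cc)
    (hε0 : ∀ l, 0 ≤ ε l) (hε1 : ∀ l, ε l ≤ cc) (hγ : γ ≤ ∑ l, α l) (hγ0 : 0 < γ)
    (hAα : ∀ h l, |-Real.log (A h l) - α l * N h| ≤ δ * N h)
    (heε : ∀ h l, |(e h l : ℝ) * Real.log b - ε l * N h| ≤ δ * N h)
    (hτγ : (τ * (n * (2 * cc * (n + 2))) + 2 * n * δ) + (τ * (n * cc + n) + δ) ≤ γ / (4 * n))
    (hNγ : Real.log (2 ^ (2 * n) * C * (2 * X) * 2 * n) / Nm ≤ γ / (4 * n)) :
    ∃ E : ℕ, (∀ a ∈ Dset m n r, c a ≠ 0 → ∑ h, ∑ l, e h l * a h l ≤ E) ∧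
      ∑ J ∈ Dset m n r, |dJ r Y ξ c J| * ∏ h, (((J h j1).choose (k h) : ℝ) *
        ∏ l, (n * A h l / (b : ℝ) ^ (e h l)) ^ (J h l - if l = j1 then k h else 0))
        < ((b : ℝ) ^ E)⁻¹ := by
  classical
  have hnR : (0 : ℝ) < n := by exact_mod_cast hn
  have hmR : (0 : ℝ) < m := by exact_mod_cast hm
  have hm1 : (1 : ℝ) ≤ m := by exact_mod_cast hm
  have hn1 : (1 : ℝ) ≤ n := by exact_mod_cast hn
  have hrR : ∀ h, (0 : ℝ) < r h := fun h => by exact_mod_cast hr h
  have hNpos : ∀ h, 0 < N h := fun h => lt_of_lt_of_le hNm (hN h)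
  have hb1 : (1 : ℝ) < b := by exact_mod_cast (by omega : 1 < b)
  have hlogb : 0 < Real.log b := Real.log_pos hb1
  have hbpos : (0 : ℝ) < b := by linarith
  set sE := ∑ l, ε l with hsE
  set sA := ∑ l, α l with hsA
  have hsE0 : 0 ≤ sE := Finset.sum_nonneg (fun l _ => hε0 l)
  have hsE1 : sE ≤ n * cc := by
    calc sE ≤ ∑ l : Fin n, cc := Finset.sum_le_sum (fun l _ => hε1 l)
      _ = n * cc := by simp
  set K2 : ℝ := τ * (n * cc + n) + δ with hK2
  set K1 : ℝ := τ * (n * (2 * cc * (n + 2))) + 2 * n * δ with hK1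
  set Er : ℝ := R0 * m / n * sE + R0 * m * K2 with hEr
  have hEr0 : 0 ≤ Er := by
    have : 0 ≤ K2 := by positivity
    positivity
  refine ⟨⌊Er / Real.log b⌋₊, ?_, ?_⟩
  · -- exponent bound
    intro a ha hca
    apply Nat.le_floor
    rw [le_div_iff₀ hlogb]
    push_cast
    rw [Finset.sum_comm, Finset.sum_mul]
    have h1 : ∀ l, (∑ h, (e h l : ℝ) * (a h l : ℝ)) * Real.log b ≤
        (ε l + δ) * (R0 * ((1 / n + τ) * m)) := by
      intro l
      have h2 : ∀ h, (e h l : ℝ) * (a h l : ℝ) * Real.log b ≤ (ε l + δ) * (R0 *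
          ((a h l : ℝ) / r h)) := by
        intro h
        have h3 := (abs_le.1 (heε h l)).2
        have h4 : (e h l : ℝ) * Real.log b ≤ (ε l + δ) * N h := by linarith
        have h5 : (a h l : ℝ) * N h ≤ R0 * ((a h l : ℝ) / r h) := by
          have h6 := hrN2 h
          have h7 : (a h l : ℝ) * N h = ((r h : ℝ) * N h) * ((a h l : ℝ) / r h) := by
            have := (hrR h).ne'
            field_simp
          rw [h7]
          apply mul_le_mul_of_nonneg_right h6
          have := hrR h
          positivity
        have h8 : (0 : ℝ) ≤ a h l := by positivity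
        have h9 : 0 ≤ ε l + δ := by linarith [hε0 l]
        calc (e h l : ℝ) * (a h l : ℝ) * Real.log b = ((e h l : ℝ) * Real.log b) * (a h l : ℝ) := by
              ring
          _ ≤ ((ε l + δ) * N h) * (a h l : ℝ) := mul_le_mul_of_nonneg_right h4 h8
          _ = (ε l + δ) * ((a h l : ℝ) * N h) := by ring
          _ ≤ _ := mul_le_mul_of_nonneg_left h5 h9
      rw [Finset.sum_mul]
      refine (Finset.sum_le_sum (fun h _ => h2 h)).trans ?_
      rw [← Finset.mul_sum, ← Finset.mul_sum]
      have h9 : 0 ≤ ε l + δ := by linarith [hε0 l]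
      apply mul_le_mul_of_nonneg_left _ h9
      apply mul_le_mul_of_nonneg_left _ hR0.le
      exact hsupp a ha hca l
    refine (Finset.sum_le_sum (fun l _ => h1 l)).trans ?_
    rw [← Finset.sum_mul, Finset.sum_add_distrib]
    simp only [Finset.sum_const, Finset.card_univ, Fintype.card_fin, nsmul_eq_mul]
    rw [← hsE, hEr, hK2]
    have h10 : (sE + n * δ) * (R0 * ((1 / n + τ) * m)) =
        R0 * m / n * sE + R0 * m * (τ * (sE + n * δ) + δ) := by
      field_simp
      ring
    rw [h10]
    have h11 : τ * (sE + n * δ) ≤ τ * (n * cc + n) := by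
      apply mul_le_mul_of_nonneg_left _ hτ0.le
      have : (n : ℝ) * δ ≤ n * 1 := mul_le_mul_of_nonneg_left hδ1 hnR.le
      linarith
    have h12 : R0 * m * (τ * (sE + n * δ) + δ) ≤ R0 * m * (τ * (n * cc + n) + δ) :=
      mul_le_mul_of_nonneg_left (by linarith) (by positivity)
    linarith
  · -- the smallness
    have hsr : ((∑ h, r h : ℕ) : ℝ) ≤ m * R0 / Nm := by
      push_cast
      calc ∑ h, (r h : ℝ) ≤ ∑ h : Fin m, R0 / Nm := by
            apply Finset.sum_le_sum
            intro h _
            rw [le_div_iff₀ hNm]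
            exact (mul_le_mul_of_nonneg_left (hN h) (hrR h).le).trans (hrN2 h)
        _ = m * R0 / Nm := by simp; ring
    set P : ℕ := ∑ h, r h with hP
    -- bound for each J
    have hterm : ∀ J ∈ Dset m n r, |dJ r Y ξ c J| * ∏ h, (((J h j1).choose (k h) : ℝ) *
        ∏ l, (n * A h l / (b : ℝ) ^ (e h l)) ^ (J h l - if l = j1 then k h else 0)) ≤
        ((2 : ℝ) ^ (n * P) * (C ^ P * (2 * X) ^ P)) * ((2 : ℝ) ^ P * (n : ℝ) ^ P) *
          Real.exp (-(R0 * m / n * (sA + sE)) + R0 * m * K1) := by
      intro J hJ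
      have hJ' := mem_Dset.1 hJ
      by_cases hzero : dJ r Y ξ c J = 0
      · rw [hzero, abs_zero, zero_mul]; positivity
      have hgood : ∀ l : Fin n, (1 / (n : ℝ) - τ) * m ≤ ∑ h, (J h l : ℝ) / (r h : ℝ) := by
        intro l
        by_contra hcon
        push Not at hcon
        exact hzero (hbad J hJ ⟨l, hcon⟩)
      by_cases hkJ : ∀ h, k h ≤ J h j1
      swap
      · push Not at hkJ
        obtain ⟨h, hh⟩ := hkJ
        have : ∏ h, (((J h j1).choose (k h) : ℝ) *
          ∏ l, (n * A h l / (b : ℝ) ^ (e h l)) ^ (J h l - if l = j1 then k h else 0)) = 0 := by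
          apply Finset.prod_eq_zero (Finset.mem_univ h)
          rw [Nat.choose_eq_zero_of_lt hh]; simp
        rw [this, mul_zero]; positivity
      -- first factor
      have hd : |dJ r Y ξ c J| ≤ (2 : ℝ) ^ (n * P) * (C ^ P * (2 * X) ^ P) := by
        refine (dJ_abs_le r Y ξ X hX1 hXξ c (C ^ P) hcC J).trans ?_
        apply mul_le_mul_of_nonneg_right _ (by positivity)
        exact_mod_cast card_Dset_le (n := n) r
      -- Z
      let Z : Fin m → Fin n → ℕ := fun h l => J h l - if l = j1 then k h else 0
      have hZle : ∀ h l, (Z h l : ℝ) ≤ J h l := fun h l => by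
        exact_mod_cast Nat.sub_le _ _
      have hZge : ∀ h l, (J h l : ℝ) - k h ≤ Z h l := fun h l => by
        have : J h l ≤ Z h l + k h := by
          simp only [Z]
          split_ifs
          · omega
          · omega
        have : (J h l : ℝ) ≤ Z h l + k h := by exact_mod_cast this
        linarith
      -- sums S_l
      let S : Fin n → ℝ := fun l => ∑ h, (Z h l : ℝ) * N h
      have hJN : ∀ h l, (J h l : ℝ) * N h = ((r h : ℝ) * N h) * ((J h l : ℝ) / r h) := by
        intro h l
        have := (hrR h).ne'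
        field_simp
      have hJrle : ∀ h l, (J h l : ℝ) / r h ≤ 1 := by
        intro h l
        rw [div_le_one (hrR h)]
        have : J h l ≤ ∑ l, J h l := Finset.single_le_sum (f := fun l => J h l)
          (fun _ _ => Nat.zero_le _) (Finset.mem_univ l)
        rw [hJ' h] at this
        exact_mod_cast this
      have hSup : ∀ l, S l ≤ R0 * m * (1 / n + n * τ) := by
        intro l
        have h1 : S l ≤ R0 * ∑ h, (J h l : ℝ) / r h := by
          simp only [S]
          rw [Finset.mul_sum]
          apply Finset.sum_le_sum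
          intro h _
          calc (Z h l : ℝ) * N h ≤ (J h l : ℝ) * N h :=
                mul_le_mul_of_nonneg_right (hZle h l) (hNpos h).le
            _ = ((r h : ℝ) * N h) * ((J h l : ℝ) / r h) := hJN h l
            _ ≤ R0 * ((J h l : ℝ) / r h) := by
                apply mul_le_mul_of_nonneg_right (hrN2 h)
                have := hrR h
                positivity
        have h2 : ∑ h, (J h l : ℝ) / r h ≤ m * (1 / n + n * τ) := by
          have h3 : ∑ l', ∑ h, (J h l' : ℝ) / r h = m := by
            rw [Finset.sum_comm]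
            have : ∀ h, ∑ l', (J h l' : ℝ) / r h = 1 := by
              intro h
              rw [← Finset.sum_div, div_eq_one_iff_eq (hrR h).ne']
              exact_mod_cast hJ' h
            simp [this]
          rw [← Finset.add_sum_erase _ _ (Finset.mem_univ l)] at h3
          have h4 : ∑ l' ∈ (Finset.univ : Finset (Fin n)).erase l, ((1 / (n : ℝ) - τ) * m) ≤
              ∑ l' ∈ (Finset.univ : Finset (Fin n)).erase l, ∑ h, (J h l' : ℝ) / r h :=
            Finset.sum_le_sum (fun l' _ => hgood l')
          rw [Finset.sum_const, Finset.card_erase_of_mem (Finset.mem_univ l), Finset.card_univ,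
            Fintype.card_fin, nsmul_eq_mul, Nat.cast_sub hn, Nat.cast_one] at h4
          have h5 : ((n : ℝ) - 1) * ((1 / n - τ) * m) = m - m * (1 / n) - m * (n - 1) * τ := by
            field_simp
          rw [h5] at h4
          have h6 : (m : ℝ) * (n - 1) * τ ≤ m * n * τ := by
            apply mul_le_mul_of_nonneg_right _ hτ0.le
            apply mul_le_mul_of_nonneg_left _ hmR.le
            linarith
          have h7 : (m : ℝ) * (1 / n + n * τ) = m * (1 / n) + m * n * τ := by ring
          linarith
        calc S l ≤ R0 * ∑ h, (J h l : ℝ) / r h := h1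
          _ ≤ R0 * (m * (1 / n + n * τ)) := mul_le_mul_of_nonneg_left h2 hR0.le
          _ = _ := by ring
      have hSlo : ∀ l, R0 * m * (1 / n - 3 * τ) ≤ S l := by
        intro l
        have h1 : (1 - τ) * R0 * (∑ h, (J h l : ℝ) / r h) - R0 * ∑ h, (k h : ℝ) / r h ≤ S l := by
          simp only [S]
          rw [Finset.mul_sum, Finset.mul_sum, ← Finset.sum_sub_distrib]
          apply Finset.sum_le_sum
          intro h _
          have h2 : ((J h l : ℝ) - k h) * N h ≤ (Z h l : ℝ) * N h :=
            mul_le_mul_of_nonneg_right (hZge h l) (hNpos h).le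
          have h3 : (1 - τ) * R0 * ((J h l : ℝ) / r h) ≤ (J h l : ℝ) * N h := by
            rw [hJN h l]
            apply mul_le_mul_of_nonneg_right (hrN1 h)
            have := hrR h
            positivity
          have h4 : (k h : ℝ) * N h ≤ R0 * ((k h : ℝ) / r h) := by
            have h5 : (k h : ℝ) * N h = ((r h : ℝ) * N h) * ((k h : ℝ) / r h) := by
              have := (hrR h).ne'
              field_simp
            rw [h5]
            apply mul_le_mul_of_nonneg_right (hrN2 h)
            have := hrR h
            positivity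
          have h6 : ((J h l : ℝ) - k h) * N h = (J h l : ℝ) * N h - (k h : ℝ) * N h := by ring
          linarith
        have h2 : (1 - τ) * R0 * ((1 / n - τ) * m) ≤ (1 - τ) * R0 * ∑ h, (J h l : ℝ) / r h := by
          apply mul_le_mul_of_nonneg_left (hgood l)
          have : 0 ≤ 1 - τ := by linarith
          positivity
        have h3 : R0 * ∑ h, (k h : ℝ) / r h ≤ R0 * m * τ := by
          calc R0 * ∑ h, (k h : ℝ) / r h ≤ R0 * τ := mul_le_mul_of_nonneg_left hk.le hR0.le
            _ ≤ R0 * m * τ := by
                apply mul_le_mul_of_nonneg_right _ hτ0.le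
                exact le_mul_of_one_le_right hR0.le hm1
        have h4 : R0 * m * (1 / n - 3 * τ) ≤ (1 - τ) * R0 * ((1 / n - τ) * m) - R0 * m * τ := by
          have h5 : (1 - τ) * R0 * ((1 / n - τ) * m) - R0 * m * τ =
              R0 * m * (1 / n - τ - τ - τ * (1 / n) + τ * τ) := by ring
          rw [h5]
          apply mul_le_mul_of_nonneg_left _ (by positivity)
          have h6 : τ * (1 / (n : ℝ)) ≤ τ * 1 := by
            apply mul_le_mul_of_nonneg_left _ hτ0.le
            rw [div_le_one hnR]; exact hn1
          have h7 : 0 ≤ τ * τ := by positivity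
          linarith
        linarith
      have hSabs : ∀ l, |S l - R0 * m / n| ≤ R0 * m * ((n + 2) * τ) := by
        intro l
        have hRm : 0 ≤ R0 * m := by positivity
        rw [abs_le]
        constructor
        · have := hSlo l
          have h1 : R0 * m * (1 / n - 3 * τ) = R0 * m / n - R0 * m * (3 * τ) := by ring
          have h2 : R0 * m * (3 * τ) ≤ R0 * m * ((n + 2) * τ) := by
            apply mul_le_mul_of_nonneg_left _ hRm
            apply mul_le_mul_of_nonneg_right _ hτ0.le
            linarith
          linarith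
        · have := hSup l
          have h1 : R0 * m * (1 / n + n * τ) = R0 * m / n + R0 * m * (n * τ) := by ring
          have h2 : R0 * m * (n * τ) ≤ R0 * m * ((n + 2) * τ) := by
            apply mul_le_mul_of_nonneg_left _ hRm
            apply mul_le_mul_of_nonneg_right _ hτ0.le
            linarith
          linarith
      have hSle : ∀ l, S l ≤ R0 * m := by
        intro l
        calc S l ≤ ∑ h : Fin m, R0 := by
              simp only [S]
              apply Finset.sum_le_sum
              intro h _
              calc (Z h l : ℝ) * N h ≤ (J h l : ℝ) * N h :=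
                    mul_le_mul_of_nonneg_right (hZle h l) (hNpos h).le
                _ ≤ (r h : ℝ) * N h := by
                    apply mul_le_mul_of_nonneg_right _ (hNpos h).le
                    have := hJrle h l
                    rw [div_le_one (hrR h)] at this
                    exact this
                _ ≤ R0 := hrN2 h
          _ = R0 * m := by simp; ring
      -- exponent sum
      have hexp : R0 * m / n * (sA + sE) - R0 * m * K1 ≤
          ∑ h, ∑ l, (Z h l : ℝ) * (-Real.log (A h l) + (e h l : ℝ) * Real.log b) := by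
        rw [Finset.sum_comm]
        have h1 : ∀ l, R0 * m / n * (α l + ε l) - R0 * m * (τ * (2 * cc * (n + 2)) + 2 * δ) ≤
            ∑ h, (Z h l : ℝ) * (-Real.log (A h l) + (e h l : ℝ) * Real.log b) := by
          intro l
          have h2 : (α l + ε l - 2 * δ) * S l ≤
              ∑ h, (Z h l : ℝ) * (-Real.log (A h l) + (e h l : ℝ) * Real.log b) := by
            simp only [S]
            rw [Finset.mul_sum]
            apply Finset.sum_le_sum
            intro h _
            have h3 := (abs_le.1 (hAα h l)).1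
            have h4 := (abs_le.1 (heε h l)).1
            have h5 : (α l + ε l - 2 * δ) * N h ≤
                -Real.log (A h l) + (e h l : ℝ) * Real.log b := by linarith
            calc (α l + ε l - 2 * δ) * ((Z h l : ℝ) * N h) =
                  (Z h l : ℝ) * ((α l + ε l - 2 * δ) * N h) := by ring
              _ ≤ _ := mul_le_mul_of_nonneg_left h5 (by positivity)
          refine le_trans ?_ h2
          have h6 : |α l + ε l| ≤ 2 * cc := by
            refine (abs_add_le _ _).trans ?_
            have h7 : |ε l| ≤ cc := by rw [abs_of_nonneg (hε0 l)]; exact hε1 l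
            linarith [hα l]
          have h8 : |(α l + ε l) * (S l - R0 * m / n)| ≤ 2 * cc * (R0 * m * ((n + 2) * τ)) := by
            rw [abs_mul]
            exact mul_le_mul h6 (hSabs l) (abs_nonneg _) (by positivity)
          have h9 := (abs_le.1 h8).1
          have h10 : 2 * δ * S l ≤ 2 * δ * (R0 * m) :=
            mul_le_mul_of_nonneg_left (hSle l) (by positivity)
          have h11 : R0 * m / n * (α l + ε l) - R0 * m * (τ * (2 * cc * (n + 2)) + 2 * δ) =
              (α l + ε l) * (R0 * m / n) - 2 * cc * (R0 * m * ((n + 2) * τ)) -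
                2 * δ * (R0 * m) := by ring
          have h12 : (α l + ε l - 2 * δ) * S l = (α l + ε l) * (S l - R0 * m / n) +
              (α l + ε l) * (R0 * m / n) - 2 * δ * S l := by ring
          rw [h11, h12]
          linarith
        calc R0 * m / n * (sA + sE) - R0 * m * K1 =
            ∑ l : Fin n, (R0 * m / n * (α l + ε l) - R0 * m * (τ * (2 * cc * (n + 2)) + 2 * δ)) := by
              rw [Finset.sum_sub_distrib, ← Finset.mul_sum, Finset.sum_add_distrib]
              simp only [Finset.sum_const, Finset.card_univ, Fintype.card_fin, nsmul_eq_mul]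
              rw [hK1]; ring
          _ ≤ _ := Finset.sum_le_sum (fun l _ => h1 l)
      -- product
      have hprod : ∏ h, (((J h j1).choose (k h) : ℝ) *
          ∏ l, (n * A h l / (b : ℝ) ^ (e h l)) ^ (J h l - if l = j1 then k h else 0)) ≤
          ((2 : ℝ) ^ P * (n : ℝ) ^ P) *
            Real.exp (-(R0 * m / n * (sA + sE)) + R0 * m * K1) := by
        have h1 : ∀ h, ((J h j1).choose (k h) : ℝ) *
            ∏ l, (n * A h l / (b : ℝ) ^ (e h l)) ^ (J h l - if l = j1 then k h else 0) ≤
            ((2 : ℝ) ^ (r h) * (n : ℝ) ^ (r h)) * Real.exp (-∑ l, (Z h l : ℝ) *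
              (-Real.log (A h l) + (e h l : ℝ) * Real.log b)) := by
          intro h
          have h2 : ∀ l, (n * A h l / (b : ℝ) ^ (e h l)) ^ (J h l - if l = j1 then k h else 0) =
              (n : ℝ) ^ (Z h l) * Real.exp (-((Z h l : ℝ) *
              (-Real.log (A h l) + (e h l : ℝ) * Real.log b))) := by
            intro l
            have h3 : n * A h l / (b : ℝ) ^ (e h l) = n * Real.exp (Real.log (A h l) -
                (e h l : ℝ) * Real.log b) := by
              rw [Real.exp_sub, Real.exp_log (hA h l), mul_div_assoc]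
              congr 2
              rw [mul_comm, Real.exp_mul, Real.exp_log hbpos, Real.rpow_natCast]
            rw [h3, mul_pow, ← Real.exp_nat_mul]
            simp only [Z]
            congr 2
            ring
          rw [Finset.prod_congr rfl (fun l _ => h2 l), Finset.prod_mul_distrib,
            ← Real.exp_sum, Finset.sum_neg_distrib, Finset.prod_pow_eq_pow_sum, ← mul_assoc]
          apply mul_le_mul_of_nonneg_right _ (Real.exp_pos _).le
          apply mul_le_mul _ _ (by positivity) (by positivity)
          · have h4 : (J h j1).choose (k h) ≤ 2 ^ (r h) := by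
              refine (Nat.choose_le_two_pow _ _).trans ?_
              apply Nat.pow_le_pow_right (by norm_num)
              have : J h j1 ≤ ∑ l, J h l := Finset.single_le_sum (f := fun l => J h l)
                (fun _ _ => Nat.zero_le _) (Finset.mem_univ j1)
              rw [hJ' h] at this
              exact this
            exact_mod_cast h4
          · apply pow_le_pow_right₀ hn1
            rw [← hJ' h]
            exact Finset.sum_le_sum (fun l _ => Nat.sub_le _ _)
        refine (Finset.prod_le_prod ?_ (fun h _ => h1 h)).trans ?_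
        · intro h _
          apply mul_nonneg (by positivity)
          apply Finset.prod_nonneg
          intro l _
          have := hA h l
          positivity
        · rw [Finset.prod_mul_distrib, Finset.prod_mul_distrib, ← Real.exp_sum,
            Finset.sum_neg_distrib, Finset.prod_pow_eq_pow_sum, Finset.prod_pow_eq_pow_sum]
          apply mul_le_mul_of_nonneg_left _ (by positivity)
          apply Real.exp_le_exp.2
          linarith
      calc |dJ r Y ξ c J| * ∏ h, (((J h j1).choose (k h) : ℝ) *
          ∏ l, (n * A h l / (b : ℝ) ^ (e h l)) ^ (J h l - if l = j1 then k h else 0)) ≤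
          ((2 : ℝ) ^ (n * P) * (C ^ P * (2 * X) ^ P)) * (((2 : ℝ) ^ P * (n : ℝ) ^ P) *
            Real.exp (-(R0 * m / n * (sA + sE)) + R0 * m * K1)) := by
            apply mul_le_mul hd hprod _ (by positivity)
            apply Finset.prod_nonneg
            intro h _
            apply mul_nonneg (by positivity)
            apply Finset.prod_nonneg
            intro l _
            have := hA h l
            positivity
        _ = _ := by ring
    refine lt_of_le_of_lt (Finset.sum_le_card_nsmul _ _ _ hterm) ?_
    rw [nsmul_eq_mul]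
    -- assemble
    set Q : ℝ := 2 ^ (2 * n) * C * (2 * X) * 2 * n with hQ
    have hQpos : 0 < Q := by positivity
    have hcard : ((Dset m n r).card : ℝ) ≤ (2 : ℝ) ^ (n * P) := by
      exact_mod_cast card_Dset_le (n := n) r
    have h1 : ((Dset m n r).card : ℝ) * (((2 : ℝ) ^ (n * P) * (C ^ P * (2 * X) ^ P)) *
        ((2 : ℝ) ^ P * (n : ℝ) ^ P) *
          Real.exp (-(R0 * m / n * (sA + sE)) + R0 * m * K1)) ≤
        Q ^ P * Real.exp (-(R0 * m / n * (sA + sE)) + R0 * m * K1) := by
      refine (mul_le_mul_of_nonneg_right hcard (by positivity)).trans ?_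
      apply le_of_eq
      rw [hQ]
      simp only [mul_pow, ← pow_mul]
      rw [show 2 * n * P = n * P + n * P by ring, pow_add]
      ring
    refine lt_of_le_of_lt h1 ?_
    have h2 : Q ^ P = Real.exp (P * Real.log Q) := by
      rw [mul_comm, Real.exp_mul, Real.exp_log hQpos, Real.rpow_natCast]
    have h3 : Real.exp (-Er) ≤ ((b : ℝ) ^ ⌊Er / Real.log b⌋₊)⁻¹ := by
      rw [Real.exp_neg]
      apply inv_anti₀ (by positivity)
      have h4 : ((⌊Er / Real.log b⌋₊ : ℕ) : ℝ) ≤ Er / Real.log b := Nat.floor_le (by positivity)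
      rw [le_div_iff₀ hlogb] at h4
      calc (b : ℝ) ^ ⌊Er / Real.log b⌋₊ = Real.exp ((⌊Er / Real.log b⌋₊ : ℕ) * Real.log b) := by
            rw [mul_comm, Real.exp_mul, Real.exp_log hbpos, Real.rpow_natCast]
        _ ≤ Real.exp Er := Real.exp_le_exp.2 h4
    refine lt_of_lt_of_le ?_ h3
    rw [h2, ← Real.exp_add]
    apply Real.exp_lt_exp.2
    -- final inequality
    have hRm : 0 < R0 * m := by positivity
    have h5 : (P : ℝ) * Real.log Q ≤ R0 * m * (γ / (4 * n)) := by
      by_cases hQ0 : 0 ≤ Real.log Q
      · calc (P : ℝ) * Real.log Q ≤ (m * R0 / Nm) * Real.log Q :=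
              mul_le_mul_of_nonneg_right hsr hQ0
          _ = R0 * m * (Real.log Q / Nm) := by ring
          _ ≤ _ := mul_le_mul_of_nonneg_left hNγ hRm.le
      · push Not at hQ0
        have h6 : (P : ℝ) * Real.log Q ≤ 0 := mul_nonpos_of_nonneg_of_nonpos (by positivity) hQ0.le
        have h7 : 0 ≤ R0 * m * (γ / (4 * n)) := by positivity
        linarith
    have h6 : R0 * m * (K1 + K2) ≤ R0 * m * (γ / (4 * n)) :=
      mul_le_mul_of_nonneg_left hτγ hRm.le
    have h7 : R0 * m / n * γ ≤ R0 * m / n * sA := mul_le_mul_of_nonneg_left hγ (by positivity)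
    have h8 : R0 * m / n * γ = 4 * (R0 * m * (γ / (4 * n))) := by
      field_simp
    have h9 : 0 < R0 * m * (γ / (4 * n)) := by positivity
    rw [hEr]
    have h10 : R0 * m / n * (sA + sE) = R0 * m / n * sA + R0 * m / n * sE := by ring
    have h11 : R0 * m * (K1 + K2) = R0 * m * K1 + R0 * m * K2 := by ring
    rw [h10]
    linarith

end Pool.Agent.H723.QP
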