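import Mathlib
import Pool.Agent.H723.QP.Core2

/-! The codimension one subspace theorem: a finite sequence of approximations; everything is
polynomial in the parameters. -/

set_option autoImplicit false

open Finset

namespace Pool.Agent.H723.QP

open Pool.Agent.H393R2 Pool.Agent.H723.QS Pool.Agent.H723.PT

theorem exp_add_le (x y : ℝ) (hx : 0 ≤ x) (hy : 0 ≤ y) :
    Real.exp x + Real.exp y ≤ Real.exp (x + y + 1) := by
  have h1 : Real.exp x ≤ Real.exp (x + y) := Real.exp_le_exp.mpr (by linarith)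
  have h2 : Real.exp y ≤ Real.exp (x + y) := Real.exp_le_exp.mpr (by linarith)
  have h3 : Real.exp (x + y + 1) = Real.exp (x + y) * Real.exp 1 := by rw [← Real.exp_add]
  have h4 : (2 : ℝ) ≤ Real.exp 1 := by
    have := Real.add_one_le_exp (1 : ℝ); linarith
  have h5 := Real.exp_pos (x + y)
  rw [h3]
  nlinarith

theorem le_exp_self (y : ℝ) : y ≤ Real.exp y := by
  have := Real.add_one_le_exp y; linarith

theorem k0_le2 (n c : ℝ) (hn2 : 2 ≤ n) (hc : 1 ≤ c) :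
    n * (2 * (c + 1) * (n + 2)) + (n * (c + 1) + n) ≤ c * (n * (4 * (n + 2)) + 3 * n) := by
  have h1 : 0 ≤ n * (n + 2) * (c - 1) := by
    apply mul_nonneg (mul_nonneg (by linarith) (by linarith)) (by linarith)
  have h2 : 0 ≤ n * (c - 1) := mul_nonneg (by linarith) (by linarith)
  have h3 : c * (n * (4 * (n + 2)) + 3 * n) - (n * (2 * (c + 1) * (n + 2)) + (n * (c + 1) + n)) =
      2 * (n * (n + 2) * (c - 1)) + 2 * (n * (c - 1)) := by ring
  linarith

theorem om2_le_one (m : ℕ) (τ : ℝ) (hτ0 : 0 < τ) (hτ1 : τ ≤ 1) : om2 m τ ≤ 1 := by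
  have h1 : (0 : ℝ) ≤ m := Nat.cast_nonneg _
  have h2 : (1 : ℝ) ≤ ((m : ℝ) + 1) ^ 3 := one_le_pow₀ (by linarith)
  have h3 : (1 : ℝ) ≤ ((m : ℝ) + 2) ^ 3 := one_le_pow₀ (by linarith)
  unfold om2
  rw [div_le_one (by positivity)]
  refine le_trans ?_ h3
  apply pow_le_one₀ (by positivity)
  rw [div_le_one (by positivity)]
  linarith

/-- the size of the parameter -/
theorem inv_om2_le (m : ℕ) (τ : ℝ) (hτ : 0 < τ) (y : ℝ) (hy : 1 / τ ≤ y) (hm : (m : ℝ) + 2 ≤ y ^ 2)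
    (hy1 : 1 ≤ y) : 1 / om2 m τ ≤ Real.exp ((7 * m + 6) * Real.log y) := by
  have hm0 : (0 : ℝ) ≤ m := Nat.cast_nonneg _
  have hy0 : 0 < y := by linarith
  have h1 : 1 / om2 m τ = (((m : ℝ) + 1) ^ 3 * (1 / τ)) ^ m * ((m : ℝ) + 2) ^ 3 := by
    unfold om2
    rw [one_div, inv_div, div_eq_mul_inv, ← inv_pow, inv_div, mul_comm, mul_one_div]
  have h3 : ((m : ℝ) + 1) ^ 3 ≤ y ^ 6 := by
    have : y ^ 6 = (y ^ 2) ^ 3 := by ring
    rw [this]
    exact pow_le_pow_left₀ (by positivity) (by linarith) 3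
  have h4 : ((m : ℝ) + 2) ^ 3 ≤ y ^ 6 := by
    have : y ^ 6 = (y ^ 2) ^ 3 := by ring
    rw [this]
    exact pow_le_pow_left₀ (by positivity) hm 3
  have h6 : ((m : ℝ) + 1) ^ 3 * (1 / τ) ≤ y ^ 7 := by
    have : y ^ 7 = y ^ 6 * y := by ring
    rw [this]
    exact mul_le_mul h3 hy (by positivity) (by positivity)
  have h7 : (((m : ℝ) + 1) ^ 3 * (1 / τ)) ^ m ≤ (y ^ 7) ^ m :=
    pow_le_pow_left₀ (by positivity) h6 m
  rw [h1]
  calc (((m : ℝ) + 1) ^ 3 * (1 / τ)) ^ m * ((m : ℝ) + 2) ^ 3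
      ≤ (y ^ 7) ^ m * y ^ 6 := mul_le_mul h7 h4 (by positivity) (by positivity)
    _ = y ^ (7 * m + 6) := by rw [← pow_mul, ← pow_add]
    _ = Real.exp ((7 * m + 6) * Real.log y) := by
        have h8 : Real.exp ((7 * m + 6) * Real.log y) =
            Real.exp (((7 * m + 6 : ℕ) : ℝ) * Real.log y) := by push_cast; ring_nf
        rw [h8, Real.exp_nat_mul, Real.exp_log hy0]

/-- the choice of the parameters -/
theorem params4 (n' : ℕ) (n : ℝ) (hn2 : 2 ≤ n) (C Ka Q : ℝ)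
    (hC : 1 ≤ C) (hKa : 1 ≤ Ka) (hQ : 0 ≤ Q) (cA γ : ℝ) (hcA : 1 ≤ cA) (hγ : 0 < γ) (hγ1 : γ ≤ 1) :
    ∃ δ : ℝ, 0 < δ ∧ δ ≤ 1 ∧ ∃ K : ℝ, 1 ≤ K ∧ ∀ c : ℝ, 1 ≤ c → ∃ (τ : ℝ) (m : ℕ),
      0 < τ ∧ τ ≤ 1 / 2 ∧
      (τ * (n * (2 * (c + 1) * (n + 2))) + 2 * n * δ) + (τ * (n * (c + 1) + n) + δ) ≤
        γ / (4 * n) ∧
      Ka / τ ^ 2 ≤ m ∧ 0 < m ∧
      Q * (4 * n) / γ ≤ Real.exp (K * (c ^ 2 * (1 + Real.log c))) ∧
      2 * c / om2 m τ ≤ Real.exp (K * (c ^ 2 * (1 + Real.log c))) ∧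
      Real.log C * m * (2 * c) / om2 m τ ≤ Real.exp (K * (c ^ 2 * (1 + Real.log c))) ∧
      2 / om2 m τ ≤ Real.exp (K * (c ^ 2 * (1 + Real.log c))) ∧
      ((⌈2 * cA / δ⌉₊ : ℝ) + 1) ^ (n' + 1) * ((⌈c / δ⌉₊ : ℝ) + 1) ^ n' * m ≤
        K * c ^ (n' + 2) := by
  set k0 : ℝ := n * (4 * (n + 2)) + 3 * n with hk0
  have hk01 : 1 ≤ k0 := by
    have h1 : 0 ≤ n * (4 * (n + 2)) := mul_nonneg (by linarith) (by linarith)
    rw [hk0]; linarith
  obtain ⟨a, ha⟩ : ∃ a, a = 8 * n * k0 / γ := ⟨_, rfl⟩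
  have ha8 : 8 ≤ a := by
    have h1 : 2 * 1 ≤ n * k0 := mul_le_mul hn2 hk01 (by norm_num) (by linarith)
    have h2 : 8 ≤ 8 * n * k0 := by
      have h3 : 8 * n * k0 = 8 * (n * k0) := by ring
      rw [h3]; linarith
    rw [ha, le_div_iff₀ hγ]
    calc 8 * γ ≤ 8 * 1 := mul_le_mul_of_nonneg_left hγ1 (by norm_num)
      _ ≤ _ := by linarith
  obtain ⟨δ, hδ⟩ : ∃ δ, δ = γ / (8 * n * (2 * n + 1)) := ⟨_, rfl⟩
  have hδ0 : 0 < δ := by rw [hδ]; positivity
  have hδ1 : δ ≤ 1 := by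
    rw [hδ, div_le_one (by positivity)]
    have h1 : 1 * 1 ≤ (8 * n) * (2 * n + 1) :=
      mul_le_mul (by linarith) (by linarith) (by norm_num) (by linarith)
    linarith
  have hC0 : 0 < C := by linarith
  obtain ⟨a1, ha1⟩ : ∃ a1, a1 = 2 * Ka * a ^ 2 := ⟨_, rfl⟩
  have ha0 : 0 < a := by linarith
  have ha10 : 0 < a1 := by rw [ha1]; positivity
  obtain ⟨a3, ha3⟩ : ∃ a3, a3 = a1 + 2 + a := ⟨_, rfl⟩
  have ha31 : 1 ≤ a3 := by rw [ha3]; linarith
  have hla3 : 0 ≤ Real.log a3 := Real.log_nonneg ha31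
  obtain ⟨K1, hK1⟩ : ∃ K1, K1 = (7 * a1 + 6) * (1 + Real.log a3) := ⟨_, rfl⟩
  obtain ⟨q4, hq4⟩ : ∃ q4, q4 = Q * (4 * n) / γ := ⟨_, rfl⟩
  have hq40 : 0 ≤ q4 := by rw [hq4]; positivity
  obtain ⟨K2, hK2⟩ : ∃ K2, K2 = C + a1 + 3 + q4 := ⟨_, rfl⟩
  obtain ⟨K3, hK3⟩ : ∃ K3, K3 = (2 * cA / δ + 2) ^ (n' + 1) * (1 / δ + 2) ^ n' * a1 := ⟨_, rfl⟩
  have hK10 : 0 ≤ K1 := by rw [hK1]; positivity
  have hK20 : 0 ≤ K2 := by rw [hK2]; linarith
  have hK30 : 0 ≤ K3 := by rw [hK3]; positivity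
  refine ⟨δ, hδ0, hδ1, K1 + K2 + K3 + 1, by linarith, ?_⟩
  intro c hc
  have hc0 : 0 < c := by linarith
  have hlc : 0 ≤ Real.log c := Real.log_nonneg hc
  obtain ⟨S, hS⟩ : ∃ S, S = c ^ 2 * (1 + Real.log c) := ⟨_, rfl⟩
  have hc2S : c ^ 2 ≤ S := by rw [hS]; exact le_mul_of_one_le_right (by positivity) (by linarith)
  have hcS : c ≤ S := by
    refine le_trans ?_ hc2S
    calc c = c ^ 1 := (pow_one c).symm
      _ ≤ _ := pow_le_pow_right₀ hc (by omega)
  have hS1 : 1 ≤ S := hc.trans hcS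
  rw [← hS]
  obtain ⟨τ, hτ⟩ : ∃ τ, τ = 1 / (a * c) := ⟨_, rfl⟩
  have hac : 8 ≤ a * c := ha8.trans (le_mul_of_one_le_right (by linarith) hc)
  have hτ0 : 0 < τ := by rw [hτ]; positivity
  have hτ12 : τ ≤ 1 / 2 := by
    rw [hτ]
    apply one_div_le_one_div_of_le (by norm_num)
    linarith
  obtain ⟨m, hm⟩ : ∃ m, m = ⌈Ka / τ ^ 2⌉₊ := ⟨_, rfl⟩
  have hKaτ : Ka / τ ^ 2 = Ka * a ^ 2 * c ^ 2 := by
    rw [hτ]; field_simp
  have hKaτ1 : 1 ≤ Ka / τ ^ 2 := by
    rw [hKaτ]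
    exact one_le_mul_of_one_le_of_one_le (one_le_mul_of_one_le_of_one_le hKa
      (one_le_pow₀ (by linarith))) (one_le_pow₀ hc)
  have hm0 : 0 < m := by
    rw [hm, Nat.ceil_pos]; linarith
  have hmle : (m : ℝ) ≤ a1 * c ^ 2 := by
    have h1 : (m : ℝ) < Ka / τ ^ 2 + 1 := by rw [hm]; exact Nat.ceil_lt_add_one (by positivity)
    have h2 : a1 * c ^ 2 = 2 * (Ka / τ ^ 2) := by
      rw [hKaτ, ha1]; ring
    rw [h2]
    linarith
  have hmge : Ka / τ ^ 2 ≤ m := by rw [hm]; exact Nat.le_ceil _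
  have hω := om2_pos m τ hτ0
  have hm00 : (0 : ℝ) ≤ m := Nat.cast_nonneg _
  have hc21 : 1 ≤ c ^ 2 := one_le_pow₀ hc
  have hinv : 1 / om2 m τ ≤ Real.exp (K1 * S) := by
    have hy1 : 1 ≤ a3 * c := one_le_mul_of_one_le_of_one_le ha31 hc
    refine (inv_om2_le m τ hτ0 (a3 * c) ?_ ?_ hy1).trans ?_
    · rw [hτ, one_div_one_div]
      apply mul_le_mul_of_nonneg_right _ hc0.le
      rw [ha3]; linarith
    · have h1 : (m : ℝ) + 2 ≤ (a1 + 2) * c ^ 2 := by rw [add_mul]; linarith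
      have h2 : (a1 + 2) * c ^ 2 ≤ a3 * c ^ 2 := by
        apply mul_le_mul_of_nonneg_right _ (by positivity)
        rw [ha3]; linarith
      have h3 : a3 * c ^ 2 ≤ a3 ^ 2 * c ^ 2 := by
        apply mul_le_mul_of_nonneg_right _ (by positivity)
        calc a3 = a3 * 1 := (mul_one _).symm
          _ ≤ a3 * a3 := mul_le_mul_of_nonneg_left ha31 (by linarith)
          _ = a3 ^ 2 := by ring
      rw [mul_pow]
      linarith
    · apply Real.exp_le_exp.mpr
      have h1 : 7 * (m : ℝ) + 6 ≤ (7 * a1 + 6) * c ^ 2 := by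
        rw [add_mul]
        have : 7 * a1 * c ^ 2 = 7 * (a1 * c ^ 2) := by ring
        linarith
      have h2 : Real.log (a3 * c) ≤ (1 + Real.log a3) * (1 + Real.log c) := by
        rw [Real.log_mul (by linarith) hc0.ne']
        have h3 : (1 + Real.log a3) * (1 + Real.log c) =
            1 + Real.log a3 + Real.log c + Real.log a3 * Real.log c := by ring
        have h4 : 0 ≤ Real.log a3 * Real.log c := mul_nonneg hla3 hlc
        rw [h3]; linarith
      calc (7 * (m : ℝ) + 6) * Real.log (a3 * c) ≤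
            ((7 * a1 + 6) * c ^ 2) * ((1 + Real.log a3) * (1 + Real.log c)) :=
            mul_le_mul h1 h2 (Real.log_nonneg hy1) (by positivity)
        _ = K1 * S := by rw [hK1, hS]; ring
  have hfac : ∀ f : ℝ, 0 ≤ f → f ≤ Real.exp (K2 * S) →
      f / om2 m τ ≤ Real.exp ((K1 + K2 + K3 + 1) * S) := by
    intro f h0 h1
    have h2 : f / om2 m τ = f * (1 / om2 m τ) := by rw [mul_one_div]
    rw [h2]
    calc f * (1 / om2 m τ) ≤ Real.exp (K2 * S) * Real.exp (K1 * S) :=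
          mul_le_mul h1 hinv (by positivity) (Real.exp_pos _).le
      _ = Real.exp ((K1 + K2) * S) := by rw [← Real.exp_add]; congr 1; ring
      _ ≤ _ := by
          apply Real.exp_le_exp.mpr
          apply mul_le_mul_of_nonneg_right _ (by linarith)
          linarith
  have hfac' : ∀ f : ℝ, 0 ≤ f → f ≤ Real.exp (K2 * S) →
      f ≤ Real.exp ((K1 + K2 + K3 + 1) * S) := by
    intro f hf0 hf
    refine hf.trans ?_
    apply Real.exp_le_exp.mpr
    apply mul_le_mul_of_nonneg_right _ (by linarith)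
    linarith
  have hK2S : ∀ y : ℝ, y ≤ K2 → y * S ≤ K2 * S := fun y hy =>
    mul_le_mul_of_nonneg_right hy (by linarith)
  refine ⟨τ, m, hτ0, hτ12, ?_, hmge, hm0, ?_, ?_, ?_, ?_, ?_⟩
  · have h2 : γ / (4 * n) = τ * (c * k0) + (2 * n + 1) * δ := by
      rw [hτ, ha, hδ]
      field_simp
      ring
    rw [h2]
    have h3 := mul_le_mul_of_nonneg_left (k0_le2 n c hn2 hc) hτ0.le
    rw [← hk0] at h3
    have h4 : (τ * (n * (2 * (c + 1) * (n + 2))) + 2 * n * δ) + (τ * (n * (c + 1) + n) + δ) =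
        τ * (n * (2 * (c + 1) * (n + 2)) + (n * (c + 1) + n)) + (2 * n + 1) * δ := by ring
    rw [h4]
    linarith
  · rw [← hq4]
    apply hfac' _ hq40
    refine le_trans ?_ (le_exp_self _)
    refine le_trans ?_ (hK2S q4 (by rw [hK2]; linarith))
    exact le_mul_of_one_le_right hq40 hS1
  · apply hfac
    · positivity
    · refine le_trans ?_ (le_exp_self _)
      refine le_trans ?_ (hK2S 2 (by rw [hK2]; linarith))
      linarith
  · apply hfac
    · have := Real.log_nonneg hC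
      positivity
    · have h1 : Real.log C ≤ Real.exp C := by
        refine le_trans ?_ (le_exp_self C)
        exact (Real.log_le_sub_one_of_pos hC0).trans (by linarith)
      have h2 : (m : ℝ) ≤ Real.exp (a1 * S) :=
        (hmle.trans (mul_le_mul_of_nonneg_left hc2S ha10.le)).trans (le_exp_self _)
      have h3 : 2 * c ≤ Real.exp (2 * S) := by
        refine le_trans ?_ (le_exp_self _)
        linarith
      have h4 : Real.log C * m * (2 * c) ≤ Real.exp C * Real.exp (a1 * S) * Real.exp (2 * S) := by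
        apply mul_le_mul _ h3 (by positivity) (by positivity)
        exact mul_le_mul h1 h2 (Nat.cast_nonneg _) (Real.exp_pos _).le
      refine h4.trans ?_
      rw [← Real.exp_add, ← Real.exp_add]
      apply Real.exp_le_exp.mpr
      have h5 : C ≤ C * S := le_mul_of_one_le_right hC0.le hS1
      refine le_trans ?_ (hK2S (C + a1 + 2) (by rw [hK2]; linarith))
      linarith
  · apply hfac
    · norm_num
    · refine le_trans ?_ (le_exp_self _)
      refine le_trans ?_ (hK2S 2 (by rw [hK2]; linarith))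
      linarith
  · obtain ⟨DA, hDA⟩ : ∃ D, D = ⌈2 * cA / δ⌉₊ := ⟨_, rfl⟩
    obtain ⟨De, hDe⟩ : ∃ D, D = ⌈c / δ⌉₊ := ⟨_, rfl⟩
    rw [← hDA, ← hDe]
    have hDAle : (DA : ℝ) + 1 ≤ 2 * cA / δ + 2 := by
      have h1 : (DA : ℝ) < 2 * cA / δ + 1 := by
        rw [hDA]; exact Nat.ceil_lt_add_one (by positivity)
      linarith
    have hDele : (De : ℝ) + 1 ≤ (1 / δ + 2) * c := by
      have h1 : (De : ℝ) < c / δ + 1 := by
        rw [hDe]; exact Nat.ceil_lt_add_one (by positivity)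
      have h2 : (1 / δ + 2) * c = c / δ + 2 * c := by ring
      rw [h2]
      linarith
    have h5 : ((DA : ℝ) + 1) ^ (n' + 1) * ((De : ℝ) + 1) ^ n' * m ≤ K3 * c ^ (n' + 2) := by
      calc ((DA : ℝ) + 1) ^ (n' + 1) * ((De : ℝ) + 1) ^ n' * m
          ≤ (2 * cA / δ + 2) ^ (n' + 1) * ((1 / δ + 2) * c) ^ n' * (a1 * c ^ 2) := by
            apply mul_le_mul _ hmle hm00 (by positivity)
            apply mul_le_mul _ _ (by positivity) (by positivity)
            · exact pow_le_pow_left₀ (by positivity) hDAle _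
            · exact pow_le_pow_left₀ (by positivity) hDele _
        _ = K3 * c ^ (n' + 2) := by
            rw [hK3, mul_pow, pow_add c n' 2]
            ring
    refine h5.trans ?_
    apply mul_le_mul_of_nonneg_right _ (by positivity)
    linarith

theorem core_fin4 (n' : ℕ) (hn : 1 ≤ n') (Y j1 j2 : Fin (n' + 1)) (hj1 : j1 ≠ Y) (hj12 : j1 ≠ j2)
    (ξ : ℝ) (hξ : IsIntegral ℤ ξ) (cA γ : ℝ) (hcA : 1 ≤ cA) (hγ : 0 < γ) (hγ1 : γ ≤ 1) :
    ∃ K : ℝ, 1 ≤ K ∧ ∀ b : ℕ, 2 ≤ b → ∀ c : ℝ, cA ≤ c →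
      ∀ T : ℕ, K * c ^ (n' + 2) ≤ T → ∀ N : Fin T → ℝ,
      (∀ t, Real.exp (K * (c ^ 2 * (1 + Real.log c))) ≤ N t) →
      (∀ t t', t < t' → Real.exp (K * (c ^ 2 * (1 + Real.log c))) * N t ≤ N t') →
      ∀ e : Fin T → Fin (n' + 1) → ℕ, (∀ t, e t Y = 0) →
      (∀ t l, (e t l : ℝ) * Real.log b ≤ c * N t) →
      ∀ (x : Fin T → Fin (n' + 1) → ℤ) (A : Fin T → Fin (n' + 1) → ℝ), (∀ t l, 0 < A t l) →
      (∀ t l, |-Real.log (A t l)| ≤ cA * N t) → (∀ t, γ * N t ≤ ∑ l, -Real.log (A t l)) →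
      ∀ w : Fin T → Fin n' → Fin (n' + 1) → ℤ, (∀ t, LinearIndependent ℤ (w t)) →
      (∀ t i, ∑ l, x t l * w t i l = 0) →
      (∀ t i l, |(w t i l : ℝ) - (if l = Y then 0 else ξ * (b : ℝ) ^ (e t l) * w t i Y)|
        ≤ A t l) →
      (∀ t, x t j1 ≠ 0) → ∀ p q : Fin T → ℤ, (∀ t, IsCoprime (p t) (q t)) →
      (∀ t, x t j1 * (b : ℤ) ^ (e t j1) * p t = -(x t j2 * (b : ℤ) ^ (e t j2) * q t)) →
      (∀ t, q t ≠ 0) →
      (∀ t, N t / c ≤ Real.log (max |(p t : ℝ)| |(q t : ℝ)|)) → False := by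
  classical
  obtain ⟨C, hC, Ka, hKa, haux⟩ := aux_poly' (n' + 1) (by omega) Y ξ hξ
  set n : ℝ := ((n' + 1 : ℕ) : ℝ) with hn_def
  have hn2 : (2 : ℝ) ≤ n := by
    rw [hn_def]; exact_mod_cast (by omega : 2 ≤ n' + 1)
  set X : ℝ := max 1 |ξ| with hX
  have hX1 : 1 ≤ X := le_max_left _ _
  have hXξ : |ξ| ≤ X := le_max_right _ _
  set Q : ℝ := Real.log (2 ^ (2 * (n' + 1)) * C * (2 * X) * 2 * n) with hQ
  have hQ0 : 0 ≤ Q := by
    rw [hQ]
    apply Real.log_nonneg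
    have h1 : (1 : ℝ) ≤ 2 ^ (2 * (n' + 1)) := one_le_pow₀ (by norm_num)
    have h2 : (1 : ℝ) ≤ 2 ^ (2 * (n' + 1)) * C := by nlinarith
    have h3 : (1 : ℝ) ≤ 2 ^ (2 * (n' + 1)) * C * (2 * X) := by nlinarith
    have h4 : (1 : ℝ) ≤ 2 ^ (2 * (n' + 1)) * C * (2 * X) * 2 := by linarith
    nlinarith
  obtain ⟨δ, hδ0, hδ1, K, hK1, hpar⟩ := params4 n' n hn2 C Ka Q hC hKa hQ0 cA γ hcA hγ hγ1
  refine ⟨K, hK1, ?_⟩
  intro b hb c hc T hT N hN1 hN2 e heY he x A hApos hA hprod w hw horth hbd hx1 p q hpq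
    hrat hq0 hht
  have hc1 : 1 ≤ c := hcA.trans hc
  have hc0 : 0 < c := by linarith
  obtain ⟨τ, m, hτ0, hτ12, hτγ, hmge, hm0, hP1, hP2, hP3, hP4, hP5⟩ := hpar c hc1
  set DA : ℕ := ⌈2 * cA / δ⌉₊ with hDA
  set De : ℕ := ⌈c / δ⌉₊ with hDe
  -- the boxes
  let box : Fin T → Fin (n' + 1) → ℕ × ℕ := fun t l =>
    (⌈(-Real.log (A t l) / N t + cA) / δ⌉₊, ⌊(e t l : ℝ) * Real.log b / N t / δ⌋₊)
  have hNpos : ∀ t, 0 < N t := fun t => lt_of_lt_of_le (Real.exp_pos _) (hN1 t)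
  have hbR : (2 : ℝ) ≤ b := by exact_mod_cast hb
  have hlogb : 0 < Real.log b := Real.log_pos (by linarith)
  have hAN : ∀ t l, -cA ≤ -Real.log (A t l) / N t ∧ -Real.log (A t l) / N t ≤ cA := by
    intro t l
    have h1 := abs_le.mp (hA t l)
    constructor
    · rw [le_div_iff₀ (hNpos t)]; linarith [h1.1]
    · rw [div_le_iff₀ (hNpos t)]; linarith [h1.2]
  have heN : ∀ t l, 0 ≤ (e t l : ℝ) * Real.log b / N t ∧ (e t l : ℝ) * Real.log b / N t ≤ c := by
    intro t l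
    constructor
    · have := hNpos t; positivity
    · rw [div_le_iff₀ (hNpos t)]; exact he t l
  set BB : Finset (Fin (n' + 1) → ℕ × ℕ) :=
    Fintype.piFinset (fun l => Finset.range (DA + 1) ×ˢ Finset.range
      ((if l = Y then 0 else De) + 1)) with hBB
  have hmaps : ∀ t ∈ (Finset.univ : Finset (Fin T)), box t ∈ BB := by
    intro t _
    rw [hBB, Fintype.mem_piFinset]
    intro l
    rw [Finset.mem_product, Finset.mem_range, Finset.mem_range]
    constructor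
    · apply Nat.lt_succ_of_le
      apply Nat.ceil_le_ceil
      apply div_le_div_of_nonneg_right _ hδ0.le
      linarith [(hAN t l).2]
    · apply Nat.lt_succ_of_le
      by_cases hlY : l = Y
      · rw [if_pos hlY]
        simp only [box, hlY, heY t]
        simp
      · rw [if_neg hlY]
        refine (Nat.floor_le_ceil _).trans ?_
        apply Nat.ceil_le_ceil
        apply div_le_div_of_nonneg_right _ hδ0.le
        linarith [(heN t l).2]
  have hBBne : BB.Nonempty := by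
    refine ⟨fun _ => (0, 0), ?_⟩
    rw [hBB, Fintype.mem_piFinset]
    intro l
    simp
  have hcard : BB.card * m ≤ (Finset.univ : Finset (Fin T)).card := by
    rw [Finset.card_univ, Fintype.card_fin]
    have h1 : BB.card = (DA + 1) ^ (n' + 1) * (De + 1) ^ n' := by
      rw [hBB, Fintype.card_piFinset]
      simp only [Finset.card_product, Finset.card_range]
      rw [Finset.prod_mul_distrib, Finset.prod_const, Finset.card_univ, Fintype.card_fin]
      congr 1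
      rw [← Finset.mul_prod_erase _ _ (Finset.mem_univ Y), if_pos rfl]
      have h2 : ∀ l ∈ (Finset.univ : Finset (Fin (n' + 1))).erase Y,
          ((if l = Y then 0 else De) + 1) = De + 1 := by
        intro l hl
        rw [if_neg (Finset.ne_of_mem_erase hl)]
      rw [Finset.prod_congr rfl h2, Finset.prod_const, Finset.card_erase_of_mem (Finset.mem_univ _),
        Finset.card_univ, Fintype.card_fin]
      simp
    have h2 : ((BB.card * m : ℕ) : ℝ) ≤ T := by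
      refine le_trans ?_ hT
      rw [h1]
      push_cast
      exact hP5
    exact_mod_cast h2
  obtain ⟨y, _, hy⟩ := Finset.exists_le_card_fiber_of_mul_le_card_of_maps_to hmaps hBBne hcard
  set S : Finset (Fin T) := Finset.univ.filter (fun t => box t = y) with hS
  obtain ⟨S', hS'S, hS'c⟩ := Finset.exists_subset_card_eq hy
  set tt : Fin m → Fin T := fun h => S'.orderEmbOfFin hS'c h with htt
  have htty : ∀ h, box (tt h) = y := by
    intro h
    have h1 : tt h ∈ S' := Finset.orderEmbOfFin_mem _ _ _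
    exact (Finset.mem_filter.mp (hS'S h1)).2
  have httlt : ∀ i j : Fin m, i < j → tt i < tt j := by
    intro i j hij
    exact (S'.orderEmbOfFin hS'c).strictMono hij
  have hY1 : ∀ h l, ⌈(-Real.log (A (tt h) l) / N (tt h) + cA) / δ⌉₊ = (y l).1 := by
    intro h l
    have := congrFun (htty h) l
    exact congrArg Prod.fst this
  have hY2 : ∀ h l, ⌊(e (tt h) l : ℝ) * Real.log b / N (tt h) / δ⌋₊ = (y l).2 := by
    intro h l
    have := congrFun (htty h) l
    exact congrArg Prod.snd this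
  -- the common values
  set α : Fin (n' + 1) → ℝ := fun l => (y l).1 * δ - cA with hα
  set ε : Fin (n' + 1) → ℝ := fun l => (y l).2 * δ with hε
  have hα1 : ∀ h l, -Real.log (A (tt h) l) / N (tt h) ≤ α l ∧
      α l ≤ -Real.log (A (tt h) l) / N (tt h) + δ := by
    intro h l
    have h0 : 0 ≤ (-Real.log (A (tt h) l) / N (tt h) + cA) / δ := by
      apply div_nonneg _ hδ0.le
      linarith [(hAN (tt h) l).1]
    have h1 := Nat.le_ceil ((-Real.log (A (tt h) l) / N (tt h) + cA) / δ)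
    have h2 := Nat.ceil_lt_add_one h0
    rw [hY1 h l] at h1 h2
    rw [div_le_iff₀ hδ0] at h1
    rw [← sub_lt_iff_lt_add, lt_div_iff₀ hδ0] at h2
    constructor
    · show _ ≤ ((y l).1 : ℝ) * δ - cA
      linarith
    · show ((y l).1 : ℝ) * δ - cA ≤ _
      rw [sub_mul, one_mul] at h2
      linarith
  have hε1 : ∀ h l, ε l ≤ (e (tt h) l : ℝ) * Real.log b / N (tt h) ∧
      (e (tt h) l : ℝ) * Real.log b / N (tt h) ≤ ε l + δ := by
    intro h l
    have h0 : 0 ≤ (e (tt h) l : ℝ) * Real.log b / N (tt h) / δ :=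
      div_nonneg (heN (tt h) l).1 hδ0.le
    have h1 := Nat.floor_le h0
    have h2 := Nat.lt_floor_add_one ((e (tt h) l : ℝ) * Real.log b / N (tt h) / δ)
    rw [hY2 h l] at h1 h2
    rw [le_div_iff₀ hδ0] at h1
    rw [div_lt_iff₀ hδ0] at h2
    constructor
    · exact h1
    · show _ ≤ ((y l).2 : ℝ) * δ + δ
      rw [add_mul, one_mul] at h2
      linarith
  have hτ1 : τ ≤ 1 := by linarith
  have hlc : 0 ≤ Real.log c := Real.log_nonneg hc1
  refine core_m2 n' hn b hb ξ Y j1 j2 hj1 hj12 C hC m hm0 τ hτ0 hτ12 δ hδ0 hδ1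
    (fun r hr => haux τ hτ0 m hmge r hr)
    c (c + 1) γ hc1 (by linarith) hγ X hX1 hXξ hτγ (Real.exp (K * (c ^ 2 * (1 + Real.log c))))
    (Real.one_le_exp (by positivity)) hP1 hP2 hP3
    (fun h => N (tt h)) (fun h => hN1 _) ?_ (fun h => e (tt h)) (fun h => heY _) α ε ?_ ?_ ?_
    (fun h => x (tt h)) (fun h => A (tt h)) (fun h l => hApos _ _) ?_ ?_ (fun h => w (tt h))
    (fun h => hw _) (fun h i => horth _ i) (fun h i l => hbd _ i l) (fun h => hx1 _)
    (fun h => p (tt h)) (fun h => q (tt h)) (fun h => hpq _) (fun h => hrat _) (fun h => hq0 _)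
    (fun h => hht _)
  · -- growth
    intro i j hij
    refine le_trans ?_ (hN2 _ _ (httlt i j hij))
    exact mul_le_mul_of_nonneg_right hP4 (hNpos _).le
  · intro l
    have h1 := hα1 ⟨0, hm0⟩ l
    have h2 := hAN (tt ⟨0, hm0⟩) l
    rw [abs_le]
    constructor <;> linarith
  · intro l
    have h1 := hε1 ⟨0, hm0⟩ l
    have h2 := heN (tt ⟨0, hm0⟩) l
    refine ⟨?_, by linarith⟩
    show 0 ≤ ((y l).2 : ℝ) * δ
    positivity
  · have h1 := hprod (tt ⟨0, hm0⟩)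
    have h2 : ∑ l, -Real.log (A (tt ⟨0, hm0⟩) l) / N (tt ⟨0, hm0⟩) ≤ ∑ l, α l :=
      Finset.sum_le_sum (fun l _ => (hα1 ⟨0, hm0⟩ l).1)
    refine le_trans ?_ h2
    rw [← Finset.sum_div, le_div_iff₀ (hNpos _)]
    exact h1
  · intro h l
    have h1 := hα1 h l
    have h2 := hNpos (tt h)
    have h3 : -Real.log (A (tt h) l) - α l * N (tt h) =
        (-Real.log (A (tt h) l) / N (tt h) - α l) * N (tt h) := by
      field_simp
    show |-Real.log (A (tt h) l) - α l * N (tt h)| ≤ δ * N (tt h)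
    rw [h3, abs_mul, abs_of_pos h2]
    apply mul_le_mul_of_nonneg_right _ h2.le
    rw [abs_le]
    constructor <;> linarith
  · intro h l
    have h1 := hε1 h l
    have h2 := hNpos (tt h)
    have h3 : (e (tt h) l : ℝ) * Real.log b - ε l * N (tt h) =
        ((e (tt h) l : ℝ) * Real.log b / N (tt h) - ε l) * N (tt h) := by
      field_simp
    show |(e (tt h) l : ℝ) * Real.log b - ε l * N (tt h)| ≤ δ * N (tt h)
    rw [h3, abs_mul, abs_of_pos h2]
    apply mul_le_mul_of_nonneg_right _ h2.le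
    rw [abs_le]
    constructor <;> linarith

end Pool.Agent.H723.QP
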