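import Mathlib
import Pool.Agent.H723.QP.Fin2
import Pool.Agent.H723.QP.Gap2

/-! The induction step of the separated subspace theorem: explicit number and growth of scales. -/

set_option autoImplicit false

open Finset

namespace Pool.Agent.H723.QP

open Pool.Agent.H393R2 Pool.Agent.H723.PT

/-- the height lemma -/
theorem heightsQ {ξ : ℝ} (hξ : IsAlgebraic ℚ ξ) (hirr : Irrational ξ) (s : ℕ) (κ : ℝ)
    (hκ : 0 < κ) :
    ∃ (j1 j2 : Fin (s + 2)), j1 ≠ 0 ∧ j1 ≠ j2 ∧ ∃ c : ℝ, 1 ≤ c ∧ ∀ b : ℕ, 2 ≤ b →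
      ∀ η ρ : ℝ, 0 < η → ∀ L : ℕ, 1 ≤ L → c ≤ L * Real.log b →
      ∀ e : Fin (s + 1) → ℕ, AdmQ (s + 1) κ ρ L e →
      ∀ (lam : Fin (s + 1) → ℤ) (P : ℤ), (∀ i, lam i ≠ 0) →
      (∀ i, |(lam i : ℝ)| ≤ Real.exp (κ / 2 * (L * Real.log b))) →
      |ξ * ∑ i, (lam i : ℝ) * (b : ℝ) ^ (e i) - P| ≤ Real.exp (-(η * (L * Real.log b))) →
      ∀ p q : ℤ, q ≠ 0 →
        (Fin.cons (-P) lam : Fin (s + 2) → ℤ) j1 * (b : ℤ) ^
            ((Fin.cons 0 e : Fin (s + 2) → ℕ) j1) * p =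
          -((Fin.cons (-P) lam : Fin (s + 2) → ℤ) j2 * (b : ℤ) ^
            ((Fin.cons 0 e : Fin (s + 2) → ℕ) j2) * q) →
        (L * Real.log b) / c ≤ Real.log (max |(p : ℝ)| |(q : ℝ)|) := by
  rcases Nat.eq_zero_or_pos s with hs | hs
  · subst hs
    obtain ⟨c, hc, h⟩ := heights_oneQ hξ hirr
    refine ⟨1, 0, by simp, by simp, c, hc, ?_⟩
    intro b hb η ρ hη L hL hcL e he lam P hlam _ hf p q hq hpq
    exact h b hb η hη L hcL e he.1 lam P hlam hf p q hq hpq
  · set i1 : Fin (s + 1) := 0 with hi1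
    set i2 : Fin (s + 1) := ⟨1, by omega⟩ with hi2
    have hne : i1 ≠ i2 := by
      intro h
      have := congrArg Fin.val h
      simp [hi1, hi2] at this
    refine ⟨i1.succ, i2.succ, Fin.succ_ne_zero _, ?_, max 1 (2 / κ), le_max_left _ _, ?_⟩
    · intro h
      exact hne (Fin.succ_injective _ h)
    · intro b hb η ρ hη L hL hcL e he lam P hlam hle _ p q hq hpq
      simp only [Fin.cons_succ] at hpq
      exact heights_twoQ hb i1 i2 hne κ hκ L hL e he.2.2 lam hlam hle p q hq hpq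

theorem exp_half (x y : ℝ) (hxy : x + 1 ≤ y) : 2 * Real.exp x ≤ Real.exp y := by
  have h2 : Real.exp (x + 1) = Real.exp x * Real.exp 1 := Real.exp_add _ _
  have h3 : (2 : ℝ) ≤ Real.exp 1 := by
    have := Real.add_one_le_exp (1 : ℝ); linarith
  calc 2 * Real.exp x ≤ Real.exp 1 * Real.exp x :=
        mul_le_mul_of_nonneg_right h3 (Real.exp_pos _).le
    _ = Real.exp (x + 1) := by rw [h2, mul_comm]
    _ ≤ Real.exp y := Real.exp_le_exp.mpr hxy

theorem stepQ (s : ℕ) (ξ : ℝ) (hξ : IsIntegral ℤ ξ) (hirr : Irrational ξ) (κ η ε' : ℝ)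
    (hκ : 0 < κ) (hη : 0 < η) (hη1 : η ≤ 1) (hε' : 0 < ε') :
    ∃ K : ℝ, 1 ≤ K ∧ ∀ b : ℕ, 2 ≤ b → ∀ ρ : ℝ, 1 ≤ ρ → ∀ T : ℕ, K * ρ ^ (s + 3) ≤ T →
      ∀ L : Fin T → ℕ, (∀ t, Real.exp (K * (ρ ^ 2 * (1 + Real.log ρ))) ≤ L t) →
      (∀ t t', t < t' → Real.exp (K * (ρ ^ 2 * (1 + Real.log ρ))) * L t ≤ L t') →
      (∀ t, BadQ b ξ (s + 1) η (min (min (ε' / 4) (η / 8) / 2) (κ / 2)) κ ρ (L t)) →
      (∀ t, ¬ BadQ b ξ s (η / 8) ε' κ ρ (L t)) → False := by
  have hξalg : IsAlgebraic ℚ ξ := by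
    have h1 : IsAlgebraic ℤ ξ := hξ.isAlgebraic
    exact (IsFractionRing.isAlgebraic_iff ℤ ℚ ℝ).mp h1
  obtain ⟨j1, j2, hj1, hj12, ch, hch, hheights⟩ := heightsQ hξalg hirr s κ hκ
  obtain ⟨C, hC, hgeom⟩ := geometry (s + 2) (by omega)
  set ε1 : ℝ := min (ε' / 4) (η / 8) with hε1def
  have hε1 : 0 < ε1 := by rw [hε1def]; apply lt_min <;> positivity
  have hε14 : ε1 / 4 ≤ 1 := by
    have : ε1 ≤ η / 8 := min_le_right _ _
    linarith
  obtain ⟨K0, hK0, hcore⟩ := core_fin4 (s + 1) (by omega) 0 j1 j2 hj1 hj12 ξ hξ 3 (ε1 / 4)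
    (by norm_num) (by positivity) hε14
  have hε1η : ε1 ≤ η / 8 := min_le_right _ _
  have hε1ε' : ε1 ≤ ε' / 4 := min_le_left _ _
  set ε0 : ℝ := min (ε1 / 2) (κ / 2) with hε0def
  have hε0 : 0 < ε0 := by rw [hε0def]; apply lt_min <;> positivity
  have hε01 : ε0 ≤ ε1 / 2 := min_le_left _ _
  have hε0κ : ε0 ≤ κ / 2 := min_le_right _ _
  have hlogC : 0 ≤ Real.log C := Real.log_nonneg hC
  obtain ⟨a, ha⟩ : ∃ a, a = (ch + 4) ^ (s + 3) := ⟨_, rfl⟩
  have ha0 : 0 ≤ a := by rw [ha]; positivity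
  have hlch : 0 ≤ Real.log (ch + 4) := Real.log_nonneg (by linarith)
  obtain ⟨a3, ha3⟩ : ∃ a3, a3 = (ch + 4) ^ 2 * (1 + Real.log (ch + 4)) := ⟨_, rfl⟩
  have ha30 : 0 ≤ a3 := by rw [ha3]; positivity
  have hx1 : 0 ≤ 2 / ε' := by positivity
  have hx2 : 0 ≤ 8 / η := by positivity
  have hx3 : 0 ≤ (4 * Real.log C + 1) / ε1 := by positivity
  obtain ⟨K, hK⟩ : ∃ K, K = K0 * a + K0 * a3 + 1 + 2 / ε' + 8 / η + 2 * ch +
    2 * ((4 * Real.log C + 1) / ε1) + 2 * (Real.log C + 1) := ⟨_, rfl⟩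
  have hK0a : 0 ≤ K0 * a := by positivity
  have hK0a3 : 0 ≤ K0 * a3 := by positivity
  refine ⟨K, by rw [hK]; linarith, ?_⟩
  intro b hb ρ hρ T hT L hL1 hL2 hbad hnb
  have hbR : (2 : ℝ) ≤ b := by exact_mod_cast hb
  have hb0 : (0 : ℝ) < b := by linarith
  have hlogb : 0 < Real.log b := Real.log_pos (by linarith)
  have hlog2 : 1 / 2 ≤ Real.log b := by
    have h1 : Real.log 2 ≤ Real.log b := Real.log_le_log (by norm_num) hbR
    have h2 := Real.log_two_gt_d9
    linarith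
  have hlρ : 0 ≤ Real.log ρ := Real.log_nonneg hρ
  obtain ⟨G, hG⟩ : ∃ G, G = ρ ^ 2 * (1 + Real.log ρ) := ⟨_, rfl⟩
  rw [← hG] at hL1 hL2
  have hρ2 : 1 ≤ G := by
    rw [hG]
    exact one_le_mul_of_one_le_of_one_le (one_le_pow₀ hρ) (by linarith)
  have hLK : ∀ t, K ≤ L t := by
    intro t
    refine le_trans ?_ (hL1 t)
    refine le_trans ?_ (le_exp_self _)
    exact le_mul_of_one_le_right (by rw [hK]; linarith) hρ2
  have hLN : ∀ t, (L t : ℝ) / 2 ≤ L t * Real.log b := by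
    intro t
    have : (0 : ℝ) ≤ L t := Nat.cast_nonneg _
    calc (L t : ℝ) / 2 = L t * (1 / 2) := by ring
      _ ≤ L t * Real.log b := mul_le_mul_of_nonneg_left hlog2 this
  have hL1' : ∀ t, 1 ≤ L t := by
    intro t
    have h1 := hLK t
    have h2 : (1 : ℝ) ≤ L t := by rw [hK] at h1; linarith
    exact_mod_cast h2
  have hLpos : ∀ t, (0 : ℝ) < L t := fun t => by exact_mod_cast hL1' t
  have hNpos : ∀ t, 0 < (L t : ℝ) * Real.log b := fun t => mul_pos (hLpos t) hlogb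
  choose ex hex lam hlam hle P hf using hbad
  have hlamne : ∀ t i, lam t i ≠ 0 := by
    intro t i h0
    apply hnb t
    refine ⟨fun k => ex t (i.succAbove k), (hex t).comp _ Fin.succAbove_right_injective,
      fun k => lam t (i.succAbove k), ?_, ?_, P t, ?_⟩
    · intro hz
      apply hlam t
      funext l
      rcases Fin.eq_self_or_eq_succAbove i l with h1 | ⟨k, h1⟩
      · rw [h1]; exact h0
      · rw [h1]; exact congrFun hz k
    · intro k
      refine le_trans (hle t _) ?_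
      apply Real.exp_le_exp.mpr
      apply mul_le_mul_of_nonneg_right _ (hNpos t).le
      linarith
    · have h2 : ∑ j, (lam t j : ℝ) * (b : ℝ) ^ (ex t j) =
          ∑ k, (lam t (i.succAbove k) : ℝ) * (b : ℝ) ^ (ex t (i.succAbove k)) := by
        rw [Fin.sum_univ_succAbove _ i, h0]
        simp
      rw [← h2]
      refine (hf t).trans ?_
      apply Real.exp_le_exp.mpr
      have := hNpos t
      have h9 : η / 8 * (L t * Real.log b) ≤ η * (L t * Real.log b) :=
        mul_le_mul_of_nonneg_right (by linarith) this.le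
      linarith
  set θ : Fin T → Fin (s + 1) → ℝ := fun t j => ξ * (b : ℝ) ^ (ex t j) with hθ
  have hform : ∀ t (lam : Fin (s + 1) → ℤ), ∑ i, θ t i * (lam i : ℝ) =
      ξ * ∑ j, (lam j : ℝ) * (b : ℝ) ^ (ex t j) := by
    intro t lam
    rw [Finset.mul_sum]
    apply Finset.sum_congr rfl
    intro i _
    rw [hθ]; ring
  have hga : ∀ t, ∃ (A : Fin (s + 2) → ℝ) (w : Fin (s + 1) → Fin (s + 2) → ℤ), (∀ l, 0 < A l) ∧
      (∀ l, |-Real.log (A l)| ≤ (2 * η + 1) * (L t * Real.log b)) ∧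
      (ε1 / 4 * (L t * Real.log b) ≤ ∑ l, -Real.log (A l)) ∧ LinearIndependent ℤ w ∧
      (∀ i, ∑ l, (Fin.cons (-(P t)) (lam t) : Fin (s + 2) → ℤ) l * w i l = 0) ∧
      (∀ i, |(w i 0 : ℝ)| ≤ A 0) ∧ (∀ i (j : Fin (s + 1)),
        |(w i j.succ : ℝ) - θ t j * w i 0| ≤ A j.succ) := by
    intro t
    have hLKt := hLK t
    rw [hK] at hLKt
    have hLNt := hLN t
    apply geom_apply C hC hgeom η ε1 ε0 hη hε1 hε0 hε01 (by linarith) (L t * Real.log b)
      (by linarith) (by linarith) (θ t) (lam t) (hlam t) (P t) (hle t)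
    · rw [hform]; exact hf t
    · intro lam' P' h1 h2 h3
      rw [hform] at h2
      have e8 : η / 2 / 4 = η / 8 := by ring
      refine gapQ hb κ ρ (η / 2) ε' (by positivity) hε' (L t) (by linarith) ?_ ?_ (ex t) (hex t)
        (lam t) lam' (P t) P' (hlam t) ?_ ?_ ?_ h2 h3
      · have e9 : 4 / (η / 2) = 8 / η := by field_simp; ring
        rw [e9]; linarith
      · rw [e8]; exact hnb t
      · rw [e8]
        intro i
        refine le_trans (hle t i) (Real.exp_le_exp.mpr ?_)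
        apply mul_le_mul_of_nonneg_right _ (hNpos t).le
        show ε0 ≤ ε1
        linarith
      · rw [e8]
        exact h1
      · refine le_trans (hf t) (Real.exp_le_exp.mpr ?_)
        have := hNpos t
        have h9 : η / 2 * (L t * Real.log b) ≤ η * (L t * Real.log b) :=
          mul_le_mul_of_nonneg_right (by linarith) this.le
        linarith
  choose A w hApos hAlog hAsum hwind hworth hw0 hwj using hga
  choose p q hpq hrat hq0 using fun t => exists_pq
    ((Fin.cons (-(P t)) (lam t) : Fin (s + 2) → ℤ) j1 * (b : ℤ) ^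
            ((Fin.cons 0 (ex t) : Fin (s + 2) → ℕ) j1))
    (-((Fin.cons (-(P t)) (lam t) : Fin (s + 2) → ℤ) j2 * (b : ℤ) ^
            ((Fin.cons 0 (ex t) : Fin (s + 2) → ℕ) j2)))
    (by
      obtain ⟨j, hj⟩ := Fin.exists_succ_eq.mpr hj1
      rw [← hj]
      simp only [Fin.cons_succ]
      have : (b : ℤ) ≠ 0 := by
        have : b ≠ 0 := by omega
        exact_mod_cast this
      exact mul_ne_zero (hlamne t j) (pow_ne_zero _ this))
  obtain ⟨c, hc⟩ : ∃ c, c = (ch + 4) * ρ := ⟨_, rfl⟩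
  have hchρ : ch ≤ ch * ρ := le_mul_of_one_le_right (by linarith) hρ
  have hcdef : c = ch * ρ + 4 * ρ := by rw [hc]; ring
  have hchρ0 : 0 ≤ ch * ρ := by positivity
  have hc1 : 1 ≤ c := by rw [hcdef]; linarith
  have hcA : 3 ≤ c := by rw [hcdef]; linarith
  have hcρ : ρ ≤ c := by rw [hcdef]; linarith
  have hcch : ch ≤ c := by rw [hcdef]; linarith
  have hcT : K0 * c ^ (s + 1 + 2) = K0 * a * ρ ^ (s + 3) := by
    rw [hc, mul_pow, ha]; ring
  have hcγ : K0 * (c ^ 2 * (1 + Real.log c)) ≤ K0 * a3 * G := by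
    have h1 : Real.log c = Real.log (ch + 4) + Real.log ρ := by
      rw [hc, Real.log_mul (by linarith) (by linarith)]
    have h2 : 1 + Real.log c ≤ (1 + Real.log (ch + 4)) * (1 + Real.log ρ) := by
      have h3 : (1 + Real.log (ch + 4)) * (1 + Real.log ρ) =
          1 + Real.log (ch + 4) + Real.log ρ + Real.log (ch + 4) * Real.log ρ := by ring
      have h4 := mul_nonneg hlch hlρ
      rw [h1, h3]; linarith
    have h5 : c ^ 2 * (1 + Real.log c) ≤ a3 * G := by
      calc c ^ 2 * (1 + Real.log c) ≤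
            c ^ 2 * ((1 + Real.log (ch + 4)) * (1 + Real.log ρ)) :=
            mul_le_mul_of_nonneg_left h2 (by positivity)
        _ = a3 * G := by rw [ha3, hG, hc]; ring
    calc K0 * (c ^ 2 * (1 + Real.log c)) ≤ K0 * (a3 * G) :=
          mul_le_mul_of_nonneg_left h5 (by linarith)
      _ = K0 * a3 * G := by ring
  have hKρ : K0 * a3 * G + 1 ≤ K * G := by
    have h1 : (K0 * a3 + 1) * G ≤ K * G := by
      apply mul_le_mul_of_nonneg_right _ (by linarith)
      rw [hK]; linarith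
    rw [add_mul, one_mul] at h1
    linarith
  have hEE := exp_half (K0 * a3 * G) (K * G) hKρ
  have hEc := Real.exp_le_exp.mpr hcγ
  refine hcore b hb c hcA T ?_ (fun t => L t * Real.log b)
    ?_ ?_ (fun t => (Fin.cons 0 (ex t) : Fin (s + 2) → ℕ)) (fun t => rfl) ?_
    (fun t => (Fin.cons (-(P t)) (lam t) : Fin (s + 2) → ℤ)) A hApos ?_ hAsum w hwind hworth ?_ ?_
    p q hpq ?_ hq0 ?_
  · rw [hcT]
    refine le_trans ?_ hT
    apply mul_le_mul_of_nonneg_right _ (by positivity)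
    rw [hK]; linarith
  · intro t
    have h1 := hL1 t
    have h2 := hLN t
    linarith
  · intro t t' htt
    have h1 := hL2 t t' htt
    have h2 : Real.exp (K0 * (c ^ 2 * (1 + Real.log c))) * L t ≤ L t' := by
      refine le_trans (mul_le_mul_of_nonneg_right ?_ (hLpos t).le) h1
      have := Real.exp_pos (K0 * a3 * G)
      linarith
    have h3 := mul_le_mul_of_nonneg_right h2 hlogb.le
    linarith
  · intro t l
    refine Fin.cases ?_ (fun j => ?_) l
    · simp only [Fin.cons_zero]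
      have := hNpos t
      simp only [Nat.cast_zero, zero_mul]
      positivity
    · simp only [Fin.cons_succ]
      rw [← mul_assoc]
      apply mul_le_mul_of_nonneg_right _ hlogb.le
      refine le_trans ((hex t).2.1 j) ?_
      exact mul_le_mul_of_nonneg_right hcρ (hLpos t).le
  · intro t l
    refine le_trans (hAlog t l) ?_
    exact mul_le_mul_of_nonneg_right (by linarith) (hNpos t).le
  · intro t i l
    refine Fin.cases ?_ (fun j => ?_) l
    · simp only [if_true, sub_zero]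
      exact hw0 t i
    · rw [if_neg (Fin.succ_ne_zero j)]
      simp only [Fin.cons_succ]
      exact hwj t i j
  · intro t
    obtain ⟨j, hj⟩ := Fin.exists_succ_eq.mpr hj1
    rw [← hj]
    simp only [Fin.cons_succ]
    exact hlamne t j
  · intro t
    have := hrat t
    rw [this]; ring
  · intro t
    have hLKt := hLK t
    rw [hK] at hLKt
    have hLNt := hLN t
    have h1 := hheights b hb η ρ hη (L t) (hL1' t) (by linarith) (ex t) (hex t) (lam t) (P t)
      (hlamne t)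
      (by
        intro i
        refine le_trans (hle t i) (Real.exp_le_exp.mpr ?_)
        exact mul_le_mul_of_nonneg_right hε0κ (hNpos t).le) (hf t) (p t) (q t) (hq0 t)
      (by rw [hrat t]; ring)
    refine le_trans ?_ h1
    exact div_le_div_of_nonneg_left (hNpos t).le (by linarith) hcch

end Pool.Agent.H723.QP
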