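import Mathlib
import Pool.Agent.H723.QP.Step2
import Pool.Agent.H723.QP.Base

/-! Counting the exceptional dyadic scales. -/

set_option autoImplicit false

open Finset

namespace Pool.Agent.H723.QP

theorem sep2_emb {S : Finset ℕ} (hS : Sep2 S) {k : ℕ} (hk : S.card = k) (i : ℕ) :
    ∀ g : ℕ, ∀ (h1 : i < k) (h2 : i + g < k),
      2 ^ g * S.orderEmbOfFin hk ⟨i, h1⟩ ≤ S.orderEmbOfFin hk ⟨i + g, h2⟩ := by
  intro g
  induction g with
  | zero => intro h1 h2; simp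
  | succ g ih =>
    intro h1 h2
    have h3 := ih h1 (by omega)
    have h4 := hS.2 (S.orderEmbOfFin hk ⟨i + g, by omega⟩) (Finset.orderEmbOfFin_mem _ _ _)
      (S.orderEmbOfFin hk ⟨i + (g + 1), h2⟩) (Finset.orderEmbOfFin_mem _ _ _)
      ((S.orderEmbOfFin hk).strictMono (by
        rw [Fin.mk_lt_mk]; omega))
    rw [pow_succ]
    calc 2 ^ g * 2 * S.orderEmbOfFin hk ⟨i, h1⟩ = 2 * (2 ^ g * S.orderEmbOfFin hk ⟨i, h1⟩) := by ring
      _ ≤ 2 * S.orderEmbOfFin hk ⟨i + g, by omega⟩ := Nat.mul_le_mul_left _ h3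
      _ ≤ _ := h4

/-- no long fast sequence implies few scales -/
theorem thin_of_no_seq (P : ℕ → Prop) (F E : ℝ) (hF : 1 ≤ F) (hE : 1 ≤ E)
    (hno : ∀ T : ℕ, F ≤ T → ∀ L : Fin T → ℕ, (∀ t, Real.exp E ≤ L t) →
      (∀ t t', t < t' → Real.exp E * L t ≤ L t') → (∀ t, P (L t)) → False) :
    Thin P (12 * (F * E)) := by
  classical
  intro S hS hSP
  by_contra hcon
  push Not at hcon
  obtain ⟨g, hg⟩ : ∃ g : ℕ, g = ⌈2 * E⌉₊ := ⟨_, rfl⟩
  obtain ⟨T, hT⟩ : ∃ T : ℕ, T = ⌈F⌉₊ := ⟨_, rfl⟩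
  have hgle : (g : ℝ) ≤ 3 * E := by
    have : (g : ℝ) < 2 * E + 1 := by rw [hg]; exact Nat.ceil_lt_add_one (by linarith)
    linarith
  have hgge : 2 * E ≤ g := by rw [hg]; exact Nat.le_ceil _
  have hTle : (T : ℝ) ≤ 2 * F := by
    have : (T : ℝ) < F + 1 := by rw [hT]; exact Nat.ceil_lt_add_one (by linarith)
    linarith
  have hTge : F ≤ T := by rw [hT]; exact Nat.le_ceil _
  have h2g : Real.exp E ≤ 2 ^ g := by
    have h1 : (2 : ℝ) ^ g = Real.exp (g * Real.log 2) := by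
      rw [Real.exp_nat_mul, Real.exp_log (by norm_num)]
    rw [h1]
    apply Real.exp_le_exp.mpr
    have h2 := Real.log_two_gt_d9
    nlinarith
  have hcard : g * (T + 1) < S.card := by
    have h1 : (g : ℝ) * (T + 1) ≤ 12 * (F * E) := by
      have h2 : (T : ℝ) + 1 ≤ 3 * F := by linarith
      have h3 : (g : ℝ) * (T + 1) ≤ 3 * E * (3 * F) :=
        mul_le_mul hgle h2 (by positivity) (by linarith)
      have h4 : 0 ≤ F * E := by positivity
      linarith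
    have h2 : ((g * (T + 1) : ℕ) : ℝ) < S.card := by
      push_cast; linarith
    exact_mod_cast h2
  have hidx : ∀ t : Fin T, g * (t + 1) < S.card := by
    intro t
    refine lt_of_le_of_lt ?_ hcard
    apply Nat.mul_le_mul_left
    omega
  refine hno T hTge (fun t => S.orderEmbOfFin rfl ⟨g * (t + 1), hidx t⟩) ?_ ?_ ?_
  · intro t
    have h0 : 0 < S.card := by have := hidx t; omega
    have h1 := sep2_emb hS rfl 0 (g * (t + 1)) h0 (by have := hidx t; omega)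
    have h2 : 1 ≤ S.orderEmbOfFin rfl ⟨0, h0⟩ := hS.1 _ (Finset.orderEmbOfFin_mem _ _ _)
    have h3 : 2 ^ (g * (t + 1)) ≤ S.orderEmbOfFin rfl ⟨g * (t + 1), hidx t⟩ := by
      have h4 : (⟨0 + g * (t + 1), by have := hidx t; omega⟩ : Fin S.card) =
          ⟨g * (t + 1), hidx t⟩ := by
        apply Fin.ext; simp
      rw [h4] at h1
      exact (Nat.le_mul_of_pos_right _ h2).trans h1
    have h5 : 2 ^ g ≤ 2 ^ (g * ((t : ℕ) + 1)) :=
      Nat.pow_le_pow_right (by norm_num) (Nat.le_mul_of_pos_right _ (by omega))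
    refine h2g.trans ?_
    exact_mod_cast h5.trans h3
  · intro t t' htt
    have hlt : (t : ℕ) < t' := htt
    have h0 : g * ((t : ℕ) + 1) + g * (t' - t) = g * (t' + 1) := by
      rw [← Nat.mul_add]; congr 1; omega
    have h1 := sep2_emb hS rfl (g * (t + 1)) (g * (t' - t)) (hidx t) (by
      rw [h0]; exact hidx t')
    have h4 : (⟨g * ((t : ℕ) + 1) + g * (t' - t), by rw [h0]; exact hidx t'⟩ : Fin S.card) =
        ⟨g * (t' + 1), hidx t'⟩ := Fin.ext h0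
    rw [h4] at h1
    have h5 : 2 ^ g ≤ 2 ^ (g * ((t' : ℕ) - t)) :=
      Nat.pow_le_pow_right (by norm_num) (Nat.le_mul_of_pos_right _ (by omega))
    have h6 : 2 ^ g * S.orderEmbOfFin rfl ⟨g * (t + 1), hidx t⟩ ≤
        S.orderEmbOfFin rfl ⟨g * (t' + 1), hidx t'⟩ :=
      (Nat.mul_le_mul_right _ h5).trans h1
    have h7 : (2 : ℝ) ^ g * (S.orderEmbOfFin rfl ⟨g * (t + 1), hidx t⟩ : ℕ) ≤
        (S.orderEmbOfFin rfl ⟨g * (t' + 1), hidx t'⟩ : ℕ) := by exact_mod_cast h6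
    refine le_trans ?_ h7
    exact mul_le_mul_of_nonneg_right h2g (Nat.cast_nonneg _)
  · intro t
    exact hSP _ (Finset.orderEmbOfFin_mem _ _ _)

/-- enlarging the exponent -/
theorem pow_up (A ρ : ℝ) (hA : 0 ≤ A) (hρ : 1 ≤ ρ) (p q : ℕ) (hpq : p ≤ q) :
    A * ρ ^ p ≤ A * ρ ^ q := mul_le_mul_of_nonneg_left (pow_le_pow_right₀ hρ hpq) hA

theorem const_up (A ρ : ℝ) (hA : 0 ≤ A) (hρ : 1 ≤ ρ) (q : ℕ) : A ≤ A * ρ ^ q :=
  le_mul_of_one_le_right hA (one_le_pow₀ hρ)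

theorem powlog_up (A ρ : ℝ) (hA : 0 ≤ A) (hρ : 1 ≤ ρ) (p q : ℕ) (hpq : p ≤ q) :
    A * (ρ ^ p * (1 + Real.log ρ)) ≤ A * (ρ ^ q * (1 + Real.log ρ)) :=
  mul_le_mul_of_nonneg_left (mul_le_mul_of_nonneg_right (pow_le_pow_right₀ hρ hpq)
    (by have := Real.log_nonneg hρ; linarith)) hA

theorem constlog_up (A ρ : ℝ) (hA : 0 ≤ A) (hρ : 1 ≤ ρ) (q : ℕ) :
    A ≤ A * (ρ ^ q * (1 + Real.log ρ)) :=
  le_mul_of_one_le_right hA (one_le_mul_of_one_le_of_one_le (one_le_pow₀ hρ)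
    (by have := Real.log_nonneg hρ; linarith))

/-- **The separated subspace theorem: the exceptional scales are few.** -/
theorem sepQ (ξ : ℝ) (hξ : IsIntegral ℤ ξ) (hirr : Irrational ξ) (κ : ℝ) (hκ : 0 < κ) (s : ℕ) :
    ∀ η : ℝ, 0 < η → η ≤ 1 → ∃ ε : ℝ, 0 < ε ∧ ∃ A : ℝ, 0 ≤ A ∧ ∀ b : ℕ, 2 ≤ b →
      ∀ ρ : ℝ, 1 ≤ ρ → Thin (BadQ b ξ s η ε κ ρ) (A * (ρ ^ (s + 4) * (1 + Real.log ρ))) := by
  classical
  induction s with
  | zero =>
    intro η _ _
    refine ⟨1, one_pos, 0, le_refl _, ?_⟩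
    intro b _ ρ _ S _ hS
    have h1 : S = ∅ := by
      by_contra hne
      obtain ⟨L, hL⟩ := Finset.nonempty_iff_ne_empty.mpr hne
      exact not_badQ_zero _ _ _ _ _ _ _ (hS L hL)
    rw [h1]
    simp
  | succ s ih =>
    intro η hη hη1
    obtain ⟨ε', hε', A, hA, hih⟩ := ih (η / 8) (by positivity) (by linarith)
    obtain ⟨K, hK, hstep⟩ := stepQ s ξ hξ hirr κ η ε' hκ hη hη1 hε'
    refine ⟨min (min (ε' / 4) (η / 8) / 2) (κ / 2), ?_, A + 12 * K ^ 2, by positivity, ?_⟩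
    · apply lt_min
      · have : 0 < min (ε' / 4) (η / 8) := by apply lt_min <;> positivity
        positivity
      · positivity
    intro b hb ρ hρ
    have h1 := hih b hb ρ hρ
    have hlρ : 0 ≤ Real.log ρ := Real.log_nonneg hρ
    have hF1 : 1 ≤ K * ρ ^ (s + 3) := by
      have := const_up K ρ (by linarith) hρ (s + 3)
      linarith
    have hE1 : 1 ≤ K * (ρ ^ 2 * (1 + Real.log ρ)) :=
      one_le_mul_of_one_le_of_one_le hK
        (one_le_mul_of_one_le_of_one_le (one_le_pow₀ hρ) (by linarith))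
    have h2 : Thin (fun L => BadQ b ξ (s + 1) η (min (min (ε' / 4) (η / 8) / 2) (κ / 2)) κ ρ L ∧
        ¬ BadQ b ξ s (η / 8) ε' κ ρ L) (12 * ((K * ρ ^ (s + 3)) * (K * (ρ ^ 2 * (1 + Real.log ρ))))) := by
      apply thin_of_no_seq _ _ _ hF1 hE1
      intro T hT L hL1 hL2 hP
      exact hstep b hb ρ hρ T hT L hL1 hL2 (fun t => (hP t).1) (fun t => (hP t).2)
    have h3 : 12 * ((K * ρ ^ (s + 3)) * (K * (ρ ^ 2 * (1 + Real.log ρ)))) =
        12 * K ^ 2 * (ρ ^ (s + 1 + 4) * (1 + Real.log ρ)) := by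
      rw [show s + 1 + 4 = (s + 3) + 2 by ring, pow_add ρ (s + 3) 2]
      ring
    refine (h1.or h2).mono ?_ ?_
    · intro L _ hbad
      by_cases h : BadQ b ξ s (η / 8) ε' κ ρ L
      · exact Or.inl h
      · exact Or.inr ⟨hbad, h⟩
    · rw [h3, add_mul]
      exact add_le_add (powlog_up A ρ hA hρ _ _ (by omega)) le_rfl

end Pool.Agent.H723.QP
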