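import Mathlib

set_option autoImplicit false

namespace Pool.Agent.H723.QP

/-- the largest scale -/
theorem rate_a_scale (p : ℕ) (A : ℝ) (hA : 1 ≤ A) (J : ℕ) (hJ : A ≤ J) :
    ∃ ρ : ℕ, A * (2 ^ (p * ρ) * ((ρ : ℝ) + 1)) ≤ J ∧
      (J : ℝ) < A * (2 ^ (p * (ρ + 1)) * ((ρ : ℝ) + 2)) := by
  classical
  have hex : ∃ ρ : ℕ, ¬ A * (2 ^ (p * ρ) * ((ρ : ℝ) + 1)) ≤ J := by
    refine ⟨J, ?_⟩
    rw [not_le]
    have h1 : (1 : ℝ) ≤ 2 ^ (p * J) := one_le_pow₀ (by norm_num)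
    have h2 : (0 : ℝ) ≤ (J : ℝ) := Nat.cast_nonneg _
    have h3 : (J : ℝ) + 1 ≤ 2 ^ (p * J) * ((J : ℝ) + 1) := by
      nlinarith
    have h4 : 2 ^ (p * J) * ((J : ℝ) + 1) ≤ A * (2 ^ (p * J) * ((J : ℝ) + 1)) := by
      have h5 : (0 : ℝ) ≤ 2 ^ (p * J) * ((J : ℝ) + 1) := by positivity
      nlinarith
    linarith
  have hs := Nat.find_spec hex
  have hm : ∀ m < Nat.find hex, A * (2 ^ (p * m) * ((m : ℝ) + 1)) ≤ J := fun m hm => by
    have := Nat.find_min hex hm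
    exact not_not.mp this
  obtain ⟨m, hmm⟩ : ∃ m, Nat.find hex = m + 1 := by
    rcases Nat.eq_zero_or_pos (Nat.find hex) with h0 | h0
    · exfalso
      rw [h0] at hs
      apply hs
      simpa using hJ
    · exact ⟨Nat.find hex - 1, by omega⟩
  rw [hmm] at hs
  refine ⟨m, hm m (by omega), ?_⟩
  rw [not_le] at hs
  refine lt_of_lt_of_le hs (le_of_eq ?_)
  push_cast
  ring

/-- From scales to logarithms: no errors. -/
theorem rate_a (p : ℕ) (hp : 1 ≤ p) (A : ℝ) : ∃ c : ℝ, 0 < c ∧ ∃ N₀ : ℕ, ∀ N ≥ N₀, ∀ W : ℕ,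
    (∀ ρ : ℕ, A * (2 ^ (p * ρ) * ((ρ : ℝ) + 1)) ≤ Nat.log 2 N → 2 ^ ρ * Nat.log 2 N ≤ 8 * W) →
      c * (Real.log N ^ (1 + 1 / (p : ℝ)) / Real.log (Real.log N) ^ (1 / (p : ℝ))) ≤ W := by
  set A' : ℝ := max A 1 with hA'
  have hA1 : 1 ≤ A' := le_max_right _ _
  have hAA : A ≤ A' := le_max_left _ _
  have hp0 : (0 : ℝ) < (p : ℝ) := by exact_mod_cast hp
  set B : ℝ := 4 * A' * 2 ^ p with hB
  have hB0 : 0 < B := by positivity
  set c1 : ℝ := B ^ (1 / (p : ℝ)) with hc1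
  have hc10 : 0 < c1 := Real.rpow_pos_of_pos hB0 _
  refine ⟨1 / (8 * c1), by positivity, ⌈Real.exp (max A' (Real.exp 2))⌉₊, ?_⟩
  intro N hN W hW
  set L : ℝ := Real.log N with hL
  set J : ℕ := Nat.log 2 N with hJ
  have hN1 : Real.exp (max A' (Real.exp 2)) ≤ (N : ℝ) := (Nat.le_ceil _).trans (by exact_mod_cast hN)
  have hN0 : (0 : ℝ) < (N : ℝ) := lt_of_lt_of_le (Real.exp_pos _) hN1
  have hNne : N ≠ 0 := by
    intro h
    rw [h] at hN0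
    simp at hN0
  have hLge : max A' (Real.exp 2) ≤ L := by
    rw [hL, Real.le_log_iff_exp_le hN0]
    exact hN1
  have hLA : A' ≤ L := (le_max_left _ _).trans hLge
  have hLe : Real.exp 2 ≤ L := (le_max_right _ _).trans hLge
  have hL3 : 3 ≤ L := by
    have := Real.add_one_le_exp (2 : ℝ)
    linarith
  have hL0 : 0 < L := by linarith
  set M : ℝ := Real.log L with hM
  have hM2 : 2 ≤ M := by
    rw [hM, Real.le_log_iff_exp_le hL0]
    exact hLe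
  have hM0 : 0 < M := by linarith
  have hl1 : Real.log 2 < 0.7 := by
    have := Real.log_two_lt_d9
    linarith
  have hl2 : 0.5 < Real.log 2 := by
    have := Real.log_two_gt_d9
    linarith
  have hJ0 : (0 : ℝ) ≤ (J : ℝ) := Nat.cast_nonneg _
  -- the two bounds of `J`
  have hJ1 : (J : ℝ) * Real.log 2 ≤ L := by
    have h1 : (2 : ℝ) ^ J ≤ (N : ℝ) := by
      have := Nat.pow_log_le_self 2 hNne
      exact_mod_cast this
    have h2 := Real.log_le_log (by positivity) h1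
    rw [Real.log_pow] at h2
    exact h2
  have hJ2 : L ≤ ((J : ℝ) + 1) * Real.log 2 := by
    have h1 : (N : ℝ) ≤ (2 : ℝ) ^ (J + 1) := by
      have := (Nat.lt_pow_succ_log_self (b := 2) (by norm_num) N).le
      exact_mod_cast this
    have h2 := Real.log_le_log hN0 h1
    rw [Real.log_pow] at h2
    push_cast at h2
    exact h2
  have hJL : L ≤ (J : ℝ) := by
    have h1 : ((J : ℝ) + 1) * Real.log 2 ≤ ((J : ℝ) + 1) * 0.7 :=
      mul_le_mul_of_nonneg_left hl1.le (by linarith)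
    linarith
  have hJU : (J : ℝ) ≤ 2 * L := by
    have h1 : (J : ℝ) * 0.5 ≤ (J : ℝ) * Real.log 2 := mul_le_mul_of_nonneg_left hl2.le hJ0
    linarith
  obtain ⟨ρ, hρ1, hρ2⟩ := rate_a_scale p A' hA1 J (hLA.trans hJL)
  have hpow1 : (1 : ℝ) ≤ 2 ^ (p * ρ) := one_le_pow₀ (by norm_num)
  have hpow0 : (0 : ℝ) < 2 ^ (p * ρ) := by positivity
  have hρ0 : (0 : ℝ) ≤ (ρ : ℝ) := Nat.cast_nonneg _
  have hfac : (0 : ℝ) ≤ 2 ^ (p * ρ) * ((ρ : ℝ) + 1) := by positivity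
  -- the bound of `ρ`
  have h2ρ : (2 : ℝ) ^ ρ ≤ (J : ℝ) := by
    have h1 : (2 : ℝ) ^ ρ ≤ 2 ^ (p * ρ) := pow_le_pow_right₀ (by norm_num) (by nlinarith)
    have h2 : (2 : ℝ) ^ (p * ρ) ≤ 2 ^ (p * ρ) * ((ρ : ℝ) + 1) := by
      have := mul_nonneg hpow0.le hρ0
      linarith
    have h3 : 2 ^ (p * ρ) * ((ρ : ℝ) + 1) ≤ A' * (2 ^ (p * ρ) * ((ρ : ℝ) + 1)) := by
      have := mul_le_mul_of_nonneg_right hA1 hfac
      linarith
    linarith
  have hρM : (ρ : ℝ) + 2 ≤ 4 * M := by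
    have h1 : (2 : ℝ) ^ ρ ≤ 2 * L := h2ρ.trans hJU
    have h2 := Real.log_le_log (by positivity) h1
    rw [Real.log_pow, Real.log_mul (by norm_num) hL0.ne'] at h2
    have h3 : (ρ : ℝ) * 0.5 ≤ (ρ : ℝ) * Real.log 2 := mul_le_mul_of_nonneg_left hl2.le hρ0
    rw [← hM] at h2
    linarith
  -- the lower bound of `2 ^ ρ`
  have hkey : L ≤ B * M * ((2 : ℝ) ^ ρ) ^ p := by
    have h1 : A' * (2 ^ (p * (ρ + 1)) * ((ρ : ℝ) + 2)) ≤ A' * (2 ^ (p * (ρ + 1)) * (4 * M)) :=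
      mul_le_mul_of_nonneg_left (mul_le_mul_of_nonneg_left hρM (by positivity)) (by linarith)
    have h2 : A' * (2 ^ (p * (ρ + 1)) * (4 * M)) = B * M * ((2 : ℝ) ^ ρ) ^ p := by
      rw [hB, mul_add, pow_add, mul_one, mul_comm p ρ, pow_mul]
      ring
    linarith
  have hroot : L ^ (1 / (p : ℝ)) ≤ c1 * M ^ (1 / (p : ℝ)) * 2 ^ ρ := by
    have h1 := Real.rpow_le_rpow hL0.le hkey (by positivity : (0 : ℝ) ≤ 1 / (p : ℝ))
    rw [Real.mul_rpow (by positivity) (by positivity), Real.mul_rpow hB0.le hM0.le] at h1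
    have h2 : (((2 : ℝ) ^ ρ) ^ p) ^ (1 / (p : ℝ)) = 2 ^ ρ := by
      rw [one_div]
      exact Real.pow_rpow_inv_natCast (by positivity) (by omega)
    rw [h2] at h1
    exact h1
  -- the conclusion
  have hWN := hW ρ ((mul_le_mul_of_nonneg_right hAA hfac).trans hρ1)
  have hWR : (2 : ℝ) ^ ρ * (J : ℝ) ≤ 8 * (W : ℝ) := by exact_mod_cast hWN
  have hM1 : 0 < M ^ (1 / (p : ℝ)) := Real.rpow_pos_of_pos hM0 _
  have hL1 : 0 < L ^ (1 / (p : ℝ)) := Real.rpow_pos_of_pos hL0 _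
  rw [Real.rpow_add hL0, Real.rpow_one]
  have e1 : 1 / (8 * c1) * (L * L ^ (1 / (p : ℝ)) / M ^ (1 / (p : ℝ))) =
      L * (L ^ (1 / (p : ℝ))) / (8 * (c1 * M ^ (1 / (p : ℝ)))) := by
    field_simp
  rw [e1, div_le_iff₀ (by positivity)]
  have h5 : L * L ^ (1 / (p : ℝ)) ≤ (J : ℝ) * (c1 * M ^ (1 / (p : ℝ)) * 2 ^ ρ) :=
    mul_le_mul hJL hroot hL1.le hJ0
  have h6 : (c1 * M ^ (1 / (p : ℝ))) * (2 ^ ρ * (J : ℝ)) ≤ (c1 * M ^ (1 / (p : ℝ))) * (8 * (W : ℝ)) :=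
    mul_le_mul_of_nonneg_left hWR (by positivity)
  linarith

end Pool.Agent.H723.QP
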