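import Mathlib

set_option autoImplicit false

namespace Pool.Agent.H723.QP

private theorem rate_b_exp (q : ℕ) (C : ℝ) : ∃ ρ₀ : ℕ, ∀ ρ ≥ ρ₀,
    C * ((ρ : ℝ) + 2) ^ q ≤ 2 ^ ρ := by
  have h1 := tendsto_pow_const_div_const_pow_of_one_lt q (r := (2 : ℝ)) (by norm_num)
  have h2 := (Filter.tendsto_add_atTop_iff_nat (f := fun n : ℕ => (n : ℝ) ^ q / 2 ^ n) 2).mpr h1
  have h3 := h2.const_mul (C * 4)
  rw [mul_zero] at h3
  have h4 := h3.eventually (gt_mem_nhds (zero_lt_one))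
  obtain ⟨ρ₀, h5⟩ := Filter.eventually_atTop.mp h4
  refine ⟨ρ₀, fun ρ hρ => ?_⟩
  have h6 := h5 ρ hρ
  push_cast at h6
  have h7 : (0 : ℝ) < 2 ^ ρ := by positivity
  rw [pow_add, ← mul_div_assoc, div_lt_one (by positivity)] at h6
  norm_num at h6
  nlinarith

/-- From scales to logarithms: with errors. -/
theorem rate_b (P q : ℕ) (hP : 1 ≤ P) (A : ℝ) : ∃ N₀ : ℕ, ∀ N ≥ N₀, ∀ W : ℕ,
    (∀ ρ : ℕ, A * (2 ^ (P * ρ) * ((ρ : ℝ) + 2) ^ q) ≤ Nat.log 2 N →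
      2 ^ ρ * Nat.log 2 N ≤ 8 * W) →
      Real.log N ^ (1 + 1 / ((P : ℝ) + 1)) ≤ W := by
  obtain ⟨ρ₀, hρ₀⟩ := rate_b_exp q (A * 16 ^ (P + 1))
  refine ⟨2 ^ (2 ^ ((P + 1) * ρ₀) + 3), fun N hN W hW => ?_⟩
  have hN0 : N ≠ 0 := by
    have : 0 < 2 ^ (2 ^ ((P + 1) * ρ₀) + 3) := by positivity
    omega
  set J : ℕ := Nat.log 2 N with hJ
  have hJ1 : 2 ^ ((P + 1) * ρ₀) + 3 ≤ J := by
    rw [hJ]
    exact Nat.le_log_of_pow_le (by norm_num) hN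
  have hJ2 : N < 2 ^ (J + 1) := Nat.lt_pow_succ_log_self (by norm_num) N
  have hp0 : 0 < 2 ^ ((P + 1) * ρ₀) := by positivity
  have hJpos : 0 < J := by omega
  -- the logarithm
  have hlog : Real.log N ≤ J := by
    have h1 : (N : ℝ) ≤ 2 ^ (J + 1) := by exact_mod_cast hJ2.le
    have h2 : (0 : ℝ) < N := by exact_mod_cast Nat.pos_of_ne_zero hN0
    have h3 := Real.log_le_log h2 h1
    rw [Real.log_pow] at h3
    have h4 := Real.log_two_lt_d9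
    have h5 : (3 : ℝ) ≤ J := by
      have : 3 ≤ J := by omega
      exact_mod_cast this
    push_cast at h3
    nlinarith
  have hlog0 : 0 ≤ Real.log N := Real.log_natCast_nonneg N
  -- the scale
  have hex : ∃ ρ : ℕ, 8 ^ (P + 1) * J ≤ 2 ^ ((P + 1) * ρ) := by
    refine ⟨3 + J, ?_⟩
    have h1 : J ≤ 2 ^ J := Nat.lt_two_pow_self.le
    have h2 : 2 ^ J ≤ 2 ^ ((P + 1) * J) := Nat.pow_le_pow_right (by norm_num) (by nlinarith)
    calc 8 ^ (P + 1) * J ≤ 8 ^ (P + 1) * 2 ^ ((P + 1) * J) :=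
          Nat.mul_le_mul_left _ (h1.trans h2)
      _ = 2 ^ ((P + 1) * (3 + J)) := by
          rw [mul_add, pow_add 2, mul_comm (P + 1) 3, pow_mul 2 3]
          norm_num
  classical
  set ρ : ℕ := Nat.find hex with hρ
  have hρ1 : 8 ^ (P + 1) * J ≤ 2 ^ ((P + 1) * ρ) := Nat.find_spec hex
  have hρ2 : ρ₀ < ρ := by
    have h1 : 2 ^ ((P + 1) * ρ₀) < 2 ^ ((P + 1) * ρ) := by
      have h2 : 1 * J ≤ 8 ^ (P + 1) * J := Nat.mul_le_mul_right _ (Nat.one_le_pow _ _ (by norm_num))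
      omega
    have h2 := (Nat.pow_lt_pow_iff_right (by norm_num : 1 < 2)).mp h1
    exact Nat.lt_of_mul_lt_mul_left h2
  have hρ3 : 2 ^ ((P + 1) * (ρ - 1)) < 8 ^ (P + 1) * J := by
    have := Nat.find_min hex (m := ρ - 1) (by omega)
    omega
  have hρ4 : 2 ^ ((P + 1) * ρ) < 16 ^ (P + 1) * J := by
    have e1 : (P + 1) * ρ = (P + 1) * (ρ - 1) + (P + 1) := by
      obtain ⟨m, hm⟩ : ∃ m, ρ = m + 1 := ⟨ρ - 1, by omega⟩
      rw [hm, Nat.add_sub_cancel]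
      ring
    rw [e1, pow_add]
    calc 2 ^ ((P + 1) * (ρ - 1)) * 2 ^ (P + 1) < 8 ^ (P + 1) * J * 2 ^ (P + 1) :=
          Nat.mul_lt_mul_of_pos_right hρ3 (by positivity)
      _ = 16 ^ (P + 1) * J := by
          have : (16 : ℕ) ^ (P + 1) = 8 ^ (P + 1) * 2 ^ (P + 1) := by
            rw [← mul_pow]
            norm_num
          rw [this]
          ring
  have hcond : A * (2 ^ (P * ρ) * ((ρ : ℝ) + 2) ^ q) ≤ J := by
    have h1 := hρ₀ ρ hρ2.le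
    have h2 : (2 : ℝ) ^ ((P + 1) * ρ) < 16 ^ (P + 1) * J := by exact_mod_cast hρ4
    have h3 : (2 : ℝ) ^ ((P + 1) * ρ) = 2 ^ (P * ρ) * 2 ^ ρ := by
      rw [← pow_add]
      ring_nf
    have h4 : (0 : ℝ) < 2 ^ (P * ρ) := by positivity
    have h5 : (0 : ℝ) < 16 ^ (P + 1) := by positivity
    have h6 : 16 ^ (P + 1) * (A * (2 ^ (P * ρ) * ((ρ : ℝ) + 2) ^ q)) ≤ 16 ^ (P + 1) * J := by
      calc 16 ^ (P + 1) * (A * (2 ^ (P * ρ) * ((ρ : ℝ) + 2) ^ q))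
          = 2 ^ (P * ρ) * (A * 16 ^ (P + 1) * ((ρ : ℝ) + 2) ^ q) := by ring
        _ ≤ 2 ^ (P * ρ) * 2 ^ ρ := mul_le_mul_of_nonneg_left h1 h4.le
        _ = 2 ^ ((P + 1) * ρ) := h3.symm
        _ ≤ 16 ^ (P + 1) * J := h2.le
    exact le_of_mul_le_mul_left h6 h5
  have hfin := hW ρ hcond
  -- the root
  have hJR : (0 : ℝ) < J := by exact_mod_cast hJpos
  have hP1 : ((P : ℝ) + 1) ≠ 0 := by positivity
  set y : ℝ := (J : ℝ) ^ (1 / ((P : ℝ) + 1)) with hy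
  have hy0 : 0 ≤ y := Real.rpow_nonneg hJR.le _
  have hy1 : y ^ (P + 1) = J := by
    rw [hy, ← Real.rpow_natCast, ← Real.rpow_mul hJR.le]
    push_cast
    rw [one_div_mul_cancel hP1, Real.rpow_one]
  have hy2 : 8 * y ≤ 2 ^ ρ := by
    refine le_of_pow_le_pow_left₀ (n := P + 1) (by omega) (by positivity) ?_
    rw [mul_pow, hy1, ← pow_mul, mul_comm ρ]
    exact_mod_cast hρ1
  have hfin' : (2 : ℝ) ^ ρ * J ≤ 8 * W := by exact_mod_cast hfin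
  calc Real.log N ^ (1 + 1 / ((P : ℝ) + 1)) ≤ (J : ℝ) ^ (1 + 1 / ((P : ℝ) + 1)) :=
        Real.rpow_le_rpow hlog0 hlog (by positivity)
    _ = J * y := by rw [Real.rpow_add hJR, Real.rpow_one]
    _ ≤ W := by nlinarith [mul_le_mul_of_nonneg_right hy2 hJR.le]

end Pool.Agent.H723.QP
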