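import Mathlib
import Pool.Agent.H723.QP.Main2
import Pool.Agent.H723.QP.W5a
import Pool.Agent.H723.QP.W5b

/-! The rates of growth. -/

set_option autoImplicit false

open Finset

namespace Pool.Agent.H723.QP

open Pool.Agent.H723.LZ

/-- blocks of equal digits -/
theorem fin0 (ξ : ℝ) (hξ : IsAlgebraic ℚ ξ) (hirr : Irrational ξ) :
    ∃ c : ℝ, 0 < c ∧ ∃ N₀ : ℕ, ∀ b : ℕ, 2 ≤ b → ∀ N ≥ N₀, ∀ (v : ℕ → ℝ) (z : ℕ),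
      Produces 0 v N z → (∀ t < N, v t = (dg b ξ (t + 1) : ℝ)) →
      c * (Real.log N ^ (1 + 1 / ((5 : ℕ) : ℝ)) /
        Real.log (Real.log N) ^ (1 / ((5 : ℕ) : ℝ))) ≤ z := by
  obtain ⟨A, hA, hthin⟩ := thin0 ξ hξ hirr
  obtain ⟨A', h⟩ := main_a 5 (by norm_num) A hA
  obtain ⟨c, hc, N₀, hr⟩ := rate_a 5 (by norm_num) A'
  refine ⟨c, hc, N₀, fun b hb N hN v z hP hv => hr N hN z (fun ρ hρ => ?_)⟩
  exact h b ξ 1 (Dep0 b ξ) Cp0 (loc0 b ξ) (fun C hC => hthin b hb C hC) N z v (brk0 hP) hv ρ hρ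

/-- affine copies of one window -/
theorem fin1 (ξ : ℝ) (hξ : IsAlgebraic ℚ ξ) (hirr : Irrational ξ) :
    ∃ c : ℝ, 0 < c ∧ ∃ N₀ : ℕ, ∀ b : ℕ, 2 ≤ b → ∀ N ≥ N₀, ∀ (v : ℕ → ℝ) (z : ℕ),
      Produces 1 v N z → (∀ t < N, v t = (dg b ξ (t + 1) : ℝ)) →
      c * (Real.log N ^ (1 + 1 / ((6 : ℕ) : ℝ)) /
        Real.log (Real.log N) ^ (1 / ((6 : ℕ) : ℝ))) ≤ z := by
  obtain ⟨A, hA, hthin⟩ := thin1 ξ hξ hirr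
  obtain ⟨A', h⟩ := main_a 6 (by norm_num) A hA
  obtain ⟨c, hc, N₀, hr⟩ := rate_a 6 (by norm_num) A'
  refine ⟨c, hc, N₀, fun b hb N hN v z hP hv => hr N hN z (fun ρ hρ => ?_)⟩
  exact h b ξ 2 (Dep1 b ξ) Cp1 (loc1 b ξ) (fun C hC => hthin b hb C hC) N z v (brk1 hP) hv ρ hρ

/-- affine copies of one window, with errors -/
theorem fin1e (ξ : ℝ) (hξ : IsAlgebraic ℚ ξ) (hirr : Irrational ξ) :
    ∃ N₀ : ℕ, ∀ b : ℕ, 2 ≤ b → ∀ N ≥ N₀, ∀ (v : ℕ → ℝ) (z : ℕ), Produces 1 v N z →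
      Real.log N ^ (1 + 1 / (((2 * 6 : ℕ) : ℝ) + 1)) ≤
        ((z + #{t ∈ Finset.range N | v t ≠ (dg b ξ (t + 1) : ℝ)} : ℕ) : ℝ) := by
  obtain ⟨A, hA, hthin⟩ := thin1 ξ hξ hirr
  obtain ⟨A', h⟩ := main_b 6 (by norm_num) A hA 2
  obtain ⟨N₀, hr⟩ := rate_b (2 * 6) (6 + 1) (by norm_num) A'
  refine ⟨N₀, fun b hb N hN v z hP => hr N hN _ (fun ρ hρ => ?_)⟩
  exact h b ξ (Dep1 b ξ) Cp1 (loc1 b ξ) (fun C hC => hthin b hb C hC) N z v (brk1 hP) ρ hρ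

/-- affine copies of `D` windows, with errors -/
theorem finR (D : ℕ) : ∃ δ : ℝ, 0 < δ ∧ ∀ ξ : ℝ, IsAlgebraic ℚ ξ → Irrational ξ →
    ∃ N₀ : ℕ, ∀ b : ℕ, 2 ≤ b → ∀ N ≥ N₀, ∀ (v : ℕ → ℝ) (z : ℕ), Produces D v N z →
      Real.log N ^ (1 + δ) ≤
        ((z + #{t ∈ Finset.range N | v t ≠ (dg b ξ (t + 1) : ℝ)} : ℕ) : ℝ) := by
  obtain ⟨p, hp, hthin⟩ := thinR (2 * D + 1 + 1)
  refine ⟨1 / (((2 * p : ℕ) : ℝ) + 1), by positivity, ?_⟩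
  intro ξ hξ hirr
  obtain ⟨A, hA, hthin⟩ := hthin ξ hξ hirr
  obtain ⟨A', h⟩ := main_b p hp A hA (2 * D + 1 + 1)
  obtain ⟨N₀, hr⟩ := rate_b (2 * p) (p + 1) (by omega) A'
  refine ⟨N₀, fun b hb N hN v z hP => hr N hN _ (fun ρ hρ => ?_)⟩
  exact h b ξ (DepR b ξ (2 * D + 1 + 1)) (LinCopy (2 * D + 1)) (locR b ξ (2 * D + 1))
    (fun C hC => hthin b hb C hC) N z v (brkR hP) ρ hρ

end Pool.Agent.H723.QP
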